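import Mathlib

set_option autoImplicit false

/-!
Elementary bounds for the sums of `mu d / d * log (x/d)^j`, `j = 0, 1`, with a coprimality
condition.
-/

open Finset ArithmeticFunction
open scoped ArithmeticFunction.Moebius ArithmeticFunction.zeta

namespace Pool.Agent.PrimeFourier

/-- `M s j x = ∑_{d ≤ x, no prime of s divides d} mu(d)/d * log(x/d)^j`. -/
noncomputable def M (s : Finset ℕ) (j : ℕ) (x : ℝ) : ℝ :=
  ∑ d ∈ (Ioc 0 ⌊x⌋₊).filter (fun d => ∀ p ∈ s, ¬ p ∣ d), (μ d : ℝ) / d * (Real.log (x/d))^j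

lemma abs_mu_le (d : ℕ) : |(μ d : ℝ)| ≤ 1 := by
  have h : |μ d| ≤ 1 := abs_moebius_le_one
  exact_mod_cast h

lemma sum_mu_floor {n : ℕ} (hn : 1 ≤ n) :
    ∑ d ∈ Ioc 0 n, (μ d : ℝ) * ((n / d : ℕ) : ℝ) = 1 := by
  have h := sum_Ioc_mul_zeta_eq_sum (R := ℝ) (μ : ArithmeticFunction ℝ) n
  rw [coe_moebius_mul_coe_zeta] at h
  simp only [intCoe_apply] at h
  rw [← h]
  have h1 : (1:ℕ) ∈ Ioc 0 n := by simp; omega
  rw [← sum_erase_add _ _ h1]
  have h2 : ∑ x ∈ (Ioc 0 n).erase 1, (1 : ArithmeticFunction ℝ) x = 0 := by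
    refine sum_eq_zero fun x hx => ?_
    rw [one_apply_ne (mem_erase.1 hx).1]
  rw [h2, one_one]; ring

lemma abs_sum_mu_div_le (n : ℕ) : |∑ d ∈ Ioc 0 n, (μ d : ℝ) / d| ≤ 1 := by
  rcases Nat.eq_zero_or_pos n with h0 | hn
  · subst h0; simp
  have hn' : (0:ℝ) < n := by exact_mod_cast hn
  have h1 := sum_mu_floor hn
  have h2 : (n:ℝ) * ∑ d ∈ Ioc 0 n, (μ d : ℝ) / d
      = 1 + ∑ d ∈ Ioc 0 n, (μ d : ℝ) * ((n:ℝ)/d - ((n / d : ℕ) : ℝ)) := by
    rw [← h1, ← sum_add_distrib, mul_sum]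
    refine sum_congr rfl fun d hd => ?_
    have : (d:ℝ) ≠ 0 := by
      have := (mem_Ioc.1 hd).1
      positivity
    field_simp
    ring
  have h3 : |∑ d ∈ Ioc 0 n, (μ d : ℝ) * ((n:ℝ)/d - ((n / d : ℕ) : ℝ))| ≤ n - 1 := by
    have h1m : (1:ℕ) ∈ Ioc 0 n := by simp; omega
    rw [← sum_erase_add _ _ h1m]
    simp only [Nat.div_one, Nat.cast_one, div_one, sub_self, mul_zero, add_zero]
    refine (abs_sum_le_sum_abs _ _).trans ?_
    have : ∀ d ∈ (Ioc 0 n).erase 1, |(μ d : ℝ) * ((n:ℝ)/d - ((n / d : ℕ) : ℝ))| ≤ 1 := by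
      intro d hd
      have hd0 : 0 < d := (mem_Ioc.1 (mem_of_mem_erase hd)).1
      have hd' : (0:ℝ) < d := by exact_mod_cast hd0
      have h5 : ((n / d : ℕ) : ℝ) ≤ (n:ℝ)/d := Nat.cast_div_le
      have h6 : (n:ℝ)/d < ((n / d : ℕ) : ℝ) + 1 := by
        rw [div_lt_iff₀ hd']
        have := Nat.lt_div_mul_add (a := n) hd0
        have h7 : (n:ℝ) < ((n/d : ℕ):ℝ) * d + d := by exact_mod_cast this
        nlinarith
      rw [abs_mul]
      have h8 : |(n:ℝ)/d - ((n / d : ℕ) : ℝ)| ≤ 1 := by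
        rw [abs_of_nonneg (by linarith)]; linarith
      calc |(μ d : ℝ)| * |(n:ℝ)/d - ((n / d : ℕ) : ℝ)| ≤ 1 * 1 :=
            mul_le_mul (abs_mu_le d) h8 (abs_nonneg _) zero_le_one
        _ = 1 := one_mul 1
    refine (sum_le_sum this).trans ?_
    rw [sum_const, card_erase_of_mem h1m]
    simp only [Nat.card_Ioc, tsub_zero, nsmul_eq_mul, mul_one]
    rw [Nat.cast_sub hn]; simp
  have h4 : |(n:ℝ) * ∑ d ∈ Ioc 0 n, (μ d : ℝ) / d| ≤ n := by
    rw [h2]
    refine (abs_add_le _ _).trans ?_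
    rw [abs_one]; linarith
  rw [abs_mul, abs_of_pos hn'] at h4
  nlinarith [abs_nonneg (∑ d ∈ Ioc 0 n, (μ d : ℝ) / d)]

/-- harmonic sums -/
noncomputable def Hs (n : ℕ) : ℝ := ∑ m ∈ Ioc 0 n, (1:ℝ) / m

lemma Hs_succ (n : ℕ) : Hs (n+1) = Hs n + 1 / ((n:ℝ)+1) := by
  unfold Hs
  rw [← Finset.insert_Ioc_right_eq_Ioc_add_one (by omega), sum_insert (by simp)]
  push_cast
  ring

lemma Hs_eq_harmonic (n : ℕ) : Hs n = harmonic n := by
  induction n with
  | zero => simp [Hs]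
  | succ n ih =>
    rw [Hs_succ, ih, harmonic_succ]
    push_cast
    simp

lemma sum_mu_div_mul_Hs {n : ℕ} (hn : 1 ≤ n) :
    ∑ d ∈ Ioc 0 n, (μ d : ℝ) / d * Hs (n / d) = 1 := by
  let f : ArithmeticFunction ℝ := ⟨fun d => (μ d : ℝ) / d, by simp⟩
  let g : ArithmeticFunction ℝ := ⟨fun d => (1 : ℝ) / d, by simp⟩
  have h := sum_Ioc_mul_eq_sum_sum f g n
  have h1 : ∀ k ∈ Ioc 0 n, (f * g) k = if k = 1 then 1 else 0 := by
    intro k hk
    have hk0 : 0 < k := (mem_Ioc.1 hk).1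
    have hk' : (k:ℝ) ≠ 0 := by positivity
    rw [mul_apply]
    have h2 : ∑ x ∈ k.divisorsAntidiagonal, f x.1 * g x.2
        = (1 / (k:ℝ)) * ((μ : ArithmeticFunction ℝ) * (ζ : ArithmeticFunction ℝ)) k := by
      rw [mul_apply, mul_sum]
      refine sum_congr rfl fun x hx => ?_
      obtain ⟨h3, h4⟩ := Nat.mem_divisorsAntidiagonal.1 hx
      have hx2 : x.2 ≠ 0 := by rintro h0; rw [h0, mul_zero] at h3; exact h4 h3.symm
      have hx1 : x.1 ≠ 0 := by rintro h0; rw [h0, zero_mul] at h3; exact h4 h3.symm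
      have hx2' : (x.2 : ℝ) ≠ 0 := by exact_mod_cast hx2
      have hx1' : (x.1 : ℝ) ≠ 0 := by exact_mod_cast hx1
      show (μ x.1 : ℝ) / x.1 * (1 / x.2) = _
      rw [natCoe_apply, zeta_apply_ne hx2, intCoe_apply, ← h3]
      push_cast
      field_simp
    rw [h2, coe_moebius_mul_coe_zeta, one_apply]
    split_ifs with hk1
    · subst hk1; simp
    · simp
  rw [sum_congr rfl h1] at h
  have h3 : ∑ k ∈ Ioc 0 n, (if k = 1 then (1:ℝ) else 0) = 1 := by
    rw [sum_ite_eq' (Ioc 0 n) 1 (fun _ => (1:ℝ))]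
    rw [if_pos (by simp; omega)]
  rw [h3] at h
  exact h.symm

lemma Hs_sub_log {n : ℕ} (hn : 1 ≤ n) :
    0 ≤ Hs n - Real.log n - Real.eulerMascheroniConstant ∧
      Hs n - Real.log n - Real.eulerMascheroniConstant ≤ 1 / (n:ℝ) := by
  have hn' : (0:ℝ) < n := by exact_mod_cast hn
  have h1 := Real.eulerMascheroniSeq_lt_eulerMascheroniConstant n
  have h2 := Real.eulerMascheroniConstant_lt_eulerMascheroniSeq' n
  unfold Real.eulerMascheroniSeq at h1
  unfold Real.eulerMascheroniSeq' at h2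
  rw [if_neg (by omega)] at h2
  rw [← Hs_eq_harmonic] at h1 h2
  refine ⟨by linarith, ?_⟩
  have h3 : Real.log ((n:ℝ)+1) - Real.log n ≤ 1 / (n:ℝ) := by
    rw [← Real.log_div (by positivity) (by positivity)]
    have := Real.log_le_sub_one_of_pos (x := ((n:ℝ)+1)/n) (by positivity)
    have h4 : ((n:ℝ)+1)/n - 1 = 1/n := by field_simp; ring
    linarith
  linarith

/-- `H(⌊y⌋) - log y - γ` is at most `2/y` in absolute value. -/
lemma abs_Hs_floor_sub {y : ℝ} (hy : 1 ≤ y) :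
    |Hs ⌊y⌋₊ - Real.log y - Real.eulerMascheroniConstant| ≤ 2 / y := by
  set k := ⌊y⌋₊ with hk
  have hk1 : 1 ≤ k := Nat.le_floor (by simpa using hy)
  have hk' : (0:ℝ) < k := by exact_mod_cast hk1
  have h1 : (k:ℝ) ≤ y := Nat.floor_le (by linarith)
  have h2 : y < k + 1 := Nat.lt_floor_add_one y
  obtain ⟨h3, h4⟩ := Hs_sub_log hk1
  have h5 : 0 ≤ Real.log y - Real.log k := by
    have := Real.log_le_log hk' h1; linarith
  have h6 : Real.log y - Real.log k ≤ 1 / (k:ℝ) := by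
    rw [← Real.log_div (by positivity) (by positivity)]
    have := Real.log_le_sub_one_of_pos (x := y/k) (by positivity)
    have h7 : y / k - 1 ≤ 1 / k := by
      rw [div_sub_one (by positivity)]
      apply div_le_div_of_nonneg_right _ hk'.le
      linarith
    linarith
  have h8 : 1 / (k:ℝ) ≤ 2 / y := by
    rw [div_le_div_iff₀ hk' (by linarith)]
    have : (1:ℝ) ≤ k := by exact_mod_cast hk1
    linarith
  rw [abs_le]
  constructor <;> linarith

lemma M_zero_empty (x : ℝ) : M ∅ 0 x = ∑ d ∈ Ioc 0 ⌊x⌋₊, (μ d : ℝ) / d := by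
  unfold M
  simp

lemma abs_M_zero_empty_le (x : ℝ) : |M ∅ 0 x| ≤ 1 := by
  rw [M_zero_empty]
  exact abs_sum_mu_div_le _

lemma M_one_empty (x : ℝ) : M ∅ 1 x = ∑ d ∈ Ioc 0 ⌊x⌋₊, (μ d : ℝ) / d * Real.log (x / d) := by
  unfold M
  simp

lemma abs_M_one_empty_le (x : ℝ) : |M ∅ 1 x| ≤ 4 := by
  rcases lt_or_ge x 1 with hx | hx
  · rw [M_one_empty, Nat.floor_eq_zero.2 hx]
    simp
  set n := ⌊x⌋₊ with hn
  have hn1 : 1 ≤ n := Nat.le_floor (by simpa using hx)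
  have hnx : (n:ℝ) ≤ x := Nat.floor_le (by linarith)
  set γ := Real.eulerMascheroniConstant with hγ
  have h1 : ∑ d ∈ Ioc 0 n, (μ d : ℝ) / d * Hs (n / d) = 1 := sum_mu_div_mul_Hs hn1
  have h2 : M ∅ 1 x = 1 - γ * M ∅ 0 x
      - ∑ d ∈ Ioc 0 n, (μ d : ℝ) / d * (Hs ⌊x / d⌋₊ - Real.log (x/d) - γ) := by
    rw [M_one_empty, M_zero_empty, ← hn, ← h1, mul_sum, ← sum_sub_distrib, ← sum_sub_distrib]
    refine sum_congr rfl fun d _ => ?_
    rw [Nat.floor_div_natCast, ← hn]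
    ring
  have h3 : |∑ d ∈ Ioc 0 n, (μ d : ℝ) / d * (Hs ⌊x / d⌋₊ - Real.log (x/d) - γ)| ≤ 2 := by
    refine (abs_sum_le_sum_abs _ _).trans ?_
    have h4 : ∀ d ∈ Ioc 0 n, |(μ d : ℝ) / d * (Hs ⌊x / d⌋₊ - Real.log (x/d) - γ)| ≤ 2 / x := by
      intro d hd
      obtain ⟨hd0, hdn⟩ := mem_Ioc.1 hd
      have hd' : (0:ℝ) < d := by exact_mod_cast hd0
      have hdx : 1 ≤ x / d := by
        rw [le_div_iff₀ hd', one_mul]
        exact le_trans (by exact_mod_cast hdn) hnx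
      have h5 := abs_Hs_floor_sub hdx
      rw [abs_mul, abs_div, Nat.abs_cast]
      calc |(μ d : ℝ)| / d * |Hs ⌊x / d⌋₊ - Real.log (x/d) - γ| ≤ 1 / d * (2 / (x / d)) :=
            mul_le_mul (div_le_div_of_nonneg_right (abs_mu_le d) hd'.le) h5 (abs_nonneg _)
              (by positivity)
        _ = 2 / x := by field_simp
    refine (sum_le_sum h4).trans ?_
    rw [sum_const, Nat.card_Ioc, nsmul_eq_mul, tsub_zero]
    have hx0 : 0 < x := by linarith
    rw [mul_div_assoc', div_le_iff₀ hx0]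
    linarith
  have h4 := abs_M_zero_empty_le x
  have h5 : γ < 2/3 := Real.eulerMascheroniConstant_lt_two_thirds
  have h6 : 1/2 < γ := Real.one_half_lt_eulerMascheroniConstant
  have h7 : |γ * M ∅ 0 x| ≤ 2/3 := by
    rw [abs_mul, abs_of_pos (by linarith : (0:ℝ) < γ)]
    nlinarith [abs_nonneg (M ∅ 0 x)]
  rw [h2]
  have h8 := abs_sub (1 - γ * M ∅ 0 x) (∑ d ∈ Ioc 0 n, (μ d : ℝ) / d * (Hs ⌊x / d⌋₊ - Real.log (x/d) - γ))
  have h9 := abs_sub 1 (γ * M ∅ 0 x)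
  rw [abs_one] at h9
  linarith

/-- Sieving identity for adding one prime. -/
lemma M_insert (s : Finset ℕ) (hs : ∀ q ∈ s, q.Prime) {p : ℕ} (hp : p.Prime) (hps : p ∉ s)
    (j : ℕ) {x : ℝ} : M s j x = M (insert p s) j x - (1 / (p:ℝ)) * M (insert p s) j (x / p) := by
  have hp0 : (0:ℝ) < p := by exact_mod_cast hp.pos
  unfold M
  rw [← sum_filter_add_sum_filter_not _ (fun d => ¬ p ∣ d)]
  have h1 : ((Ioc 0 ⌊x⌋₊).filter (fun d => ∀ q ∈ s, ¬ q ∣ d)).filter (fun d => ¬ p ∣ d)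
      = (Ioc 0 ⌊x⌋₊).filter (fun d => ∀ q ∈ insert p s, ¬ q ∣ d) := by
    ext d
    simp only [mem_filter, forall_mem_insert]
    tauto
  rw [h1]
  have h2 : ∑ d ∈ ((Ioc 0 ⌊x⌋₊).filter (fun d => ∀ q ∈ s, ¬ q ∣ d)).filter (fun d => ¬ ¬ p ∣ d),
      (μ d : ℝ) / d * (Real.log (x/d))^j
      = - ((1 / (p:ℝ)) * ∑ d ∈ (Ioc 0 ⌊x / p⌋₊).filter (fun d => ∀ q ∈ insert p s, ¬ q ∣ d),
        (μ d : ℝ) / d * (Real.log (x / p /d))^j) := by
    rw [mul_sum, ← sum_neg_distrib]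
    symm
    have h3 : ∀ d ∈ (Ioc 0 ⌊x / p⌋₊).filter (fun d => ∀ q ∈ insert p s, ¬ q ∣ d),
        -(1 / (p:ℝ) * ((μ d : ℝ) / d * (Real.log (x / p /d))^j))
          = (μ (p * d) : ℝ) / ((p * d : ℕ) : ℝ) * (Real.log (x/((p * d : ℕ) : ℝ)))^j := by
      intro d hd
      obtain ⟨hd1, hd2⟩ := mem_filter.1 hd
      have hpd : ¬ p ∣ d := hd2 p (mem_insert_self p s)
      have hcop : Nat.Coprime p d := (Nat.Prime.coprime_iff_not_dvd hp).2 hpd
      rw [isMultiplicative_moebius.map_mul_of_coprime hcop, moebius_apply_prime hp]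
      have hd0 : (0:ℝ) < d := by exact_mod_cast (mem_Ioc.1 hd1).1
      push_cast
      rw [div_div]
      field_simp
    rw [sum_congr rfl h3]
    rw [← sum_image (f := fun n : ℕ => (μ n : ℝ) / (n : ℝ) * (Real.log (x/(n : ℝ)))^j)
      (s := (Ioc 0 ⌊x / p⌋₊).filter (fun d => ∀ q ∈ insert p s, ¬ q ∣ d)) (g := fun d => p * d)
      (fun a _ b _ h => Nat.eq_of_mul_eq_mul_left hp.pos h)]
    apply sum_subset
    · intro n hn
      obtain ⟨d, hd, rfl⟩ := mem_image.1 hn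
      obtain ⟨hd1, hd2⟩ := mem_filter.1 hd
      obtain ⟨hd3, hd4⟩ := mem_Ioc.1 hd1
      refine mem_filter.2 ⟨mem_filter.2 ⟨mem_Ioc.2 ⟨Nat.mul_pos hp.pos hd3, ?_⟩, ?_⟩, ?_⟩
      · rw [Nat.floor_div_natCast, Nat.le_div_iff_mul_le hp.pos] at hd4
        rw [mul_comm]; exact hd4
      · intro q hq hqd
        rcases (Nat.Prime.dvd_mul (hs q hq)).1 hqd with h | h
        · rw [Nat.prime_dvd_prime_iff_eq (hs q hq) hp] at h
          exact hps (h ▸ hq)
        · exact hd2 q (mem_insert_of_mem hq) h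
      · rw [not_not]; exact Nat.dvd_mul_right p d
    · intro n hn hn'
      obtain ⟨hn1, hn2⟩ := mem_filter.1 hn
      rw [not_not] at hn2
      obtain ⟨hn3, hn4⟩ := mem_filter.1 hn1
      obtain ⟨hn5, hn6⟩ := mem_Ioc.1 hn3
      obtain ⟨d, rfl⟩ := hn2
      have hd0 : 0 < d := Nat.pos_of_ne_zero (by rintro rfl; simp at hn5)
      have hpd : p ∣ d := by
        by_contra hpd
        apply hn'
        refine mem_image.2 ⟨d, mem_filter.2 ⟨mem_Ioc.2 ⟨hd0, ?_⟩, ?_⟩, rfl⟩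
        · rw [Nat.floor_div_natCast, Nat.le_div_iff_mul_le hp.pos, mul_comm]
          exact hn6
        · intro q hq
          rcases mem_insert.1 hq with h | h
          · rw [h]; exact hpd
          · intro h'; exact hn4 q h (Dvd.dvd.mul_left h' p)
      have hns : ¬ Squarefree (p * d) := by
        intro hsq
        obtain ⟨c, rfl⟩ := hpd
        have := hsq p ⟨c, by ring⟩
        exact hp.one_lt.ne' (Nat.isUnit_iff.1 this)
      rw [moebius_eq_zero_of_not_squarefree hns]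
      simp
  rw [h2]
  ring

/-- Bound with a coprimality condition. -/
lemma abs_M_le (s : Finset ℕ) (hs : ∀ q ∈ s, q.Prime) (j : ℕ) {C : ℝ} (hC0 : 0 ≤ C)
    (hC : ∀ x : ℝ, |M ∅ j x| ≤ C) (x : ℝ) : |M s j x| ≤ C * ∏ p ∈ s, (1 - 1 / (p:ℝ))⁻¹ := by
  induction s using Finset.induction_on generalizing x with
  | empty => simpa using hC x
  | insert p s hps ih =>
    have hp : p.Prime := hs p (mem_insert_self p s)
    have hs' : ∀ q ∈ s, q.Prime := fun q hq => hs q (mem_insert_of_mem hq)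
    have ih' := ih hs'
    rw [prod_insert hps]
    set D := C * ∏ p ∈ s, (1 - 1 / (p:ℝ))⁻¹ with hD
    have hp2 : (2:ℝ) ≤ p := by exact_mod_cast hp.two_le
    have hu : 0 < 1 - 1 / (p:ℝ) := by
      rw [sub_pos, div_lt_one (by linarith)]; linarith
    have hD0 : 0 ≤ D := le_trans (abs_nonneg _) (ih' 0)
    have key : ∀ n : ℕ, ∀ y : ℝ, ⌊y⌋₊ ≤ n → |M (insert p s) j y| ≤ D * (1 - 1 / (p:ℝ))⁻¹ := by
      intro n
      induction n using Nat.strong_induction_on with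
      | _ n ihn =>
        intro y hy
        rcases Nat.eq_zero_or_pos ⌊y⌋₊ with h0 | h0
        · unfold M
          rw [h0]
          simp only [Ioc_self, filter_empty, sum_empty, abs_zero]
          positivity
        · have h1 : ⌊y / p⌋₊ < n := by
            rw [Nat.floor_div_natCast]
            exact lt_of_lt_of_le (Nat.div_lt_self h0 hp.one_lt) hy
          have h2 := ihn _ h1 (y / p) le_rfl
          have h3 := M_insert s hs' hp hps j (x := y)
          have h4 := ih' y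
          have h5 : M (insert p s) j y = M s j y + (1 / (p:ℝ)) * M (insert p s) j (y / p) := by
            linarith
          rw [h5]
          refine (abs_add_le _ _).trans ?_
          rw [abs_mul, abs_of_pos (by positivity : (0:ℝ) < 1 / (p:ℝ))]
          have h6 : 1 / (p:ℝ) * |M (insert p s) j (y / p)| ≤ 1 / (p:ℝ) * (D * (1 - 1 / (p:ℝ))⁻¹) :=
            mul_le_mul_of_nonneg_left h2 (by positivity)
          have h7 : D + 1 / (p:ℝ) * (D * (1 - 1 / (p:ℝ))⁻¹) = D * (1 - 1 / (p:ℝ))⁻¹ := by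
            have h8 : (1 - 1 / (p:ℝ)) * (1 - 1 / (p:ℝ))⁻¹ = 1 := mul_inv_cancel₀ hu.ne'
            linear_combination (-D) * h8
          linarith
    have := key _ x le_rfl
    rw [hD] at this
    calc |M (insert p s) j x| ≤ _ := this
      _ = _ := by ring

lemma prod_inv_eq {q : ℕ} (hq : 0 < q) :
    ∏ p ∈ q.primeFactors, (1 - 1 / (p:ℝ))⁻¹ = (q:ℝ) / Nat.totient q := by
  have h := Nat.totient_eq_mul_prod_factors q
  have h' : ((Nat.totient q : ℕ) : ℝ) = q * ∏ p ∈ q.primeFactors, (1 - (p:ℝ)⁻¹) := by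
    have h2 := congrArg (fun x : ℚ => (x : ℝ)) h
    push_cast at h2
    exact h2
  have hq' : (0:ℝ) < q := by exact_mod_cast hq
  have ht : (0:ℝ) < Nat.totient q := by exact_mod_cast Nat.totient_pos.2 hq
  rw [prod_inv_distrib]
  rw [h'] at ht ⊢
  have hP : (∏ p ∈ q.primeFactors, (1 - (p:ℝ)⁻¹)) ≠ 0 := by
    intro h0; rw [h0, mul_zero] at ht; exact lt_irrefl _ ht
  simp_rw [one_div]
  field_simp

/-- the coprimality condition expressed by prime factors -/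
lemma coprime_iff_primeFactors {q d : ℕ} (hq : 0 < q) :
    (∀ p ∈ q.primeFactors, ¬ p ∣ d) ↔ Nat.Coprime q d := by
  constructor
  · intro h
    rw [Nat.coprime_iff_gcd_eq_one]
    by_contra hne
    obtain ⟨p, hp, hpd⟩ := Nat.exists_prime_and_dvd hne
    exact h p (Nat.mem_primeFactors.2 ⟨hp, hpd.trans (Nat.gcd_dvd_left _ _), hq.ne'⟩)
      (hpd.trans (Nat.gcd_dvd_right _ _))
  · intro h p hp hpd
    obtain ⟨hp1, hp2, _⟩ := Nat.mem_primeFactors.1 hp
    have := Nat.dvd_gcd hp2 hpd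
    rw [h] at this
    exact hp1.one_lt.ne' (Nat.dvd_one.1 this)

/-- Sums over multiples of `q`: `K q j D t = ∑_{d ≤ D, q ∣ d} mu d / d * log (t/d)^j`. -/
noncomputable def K (q j : ℕ) (D : ℕ) (t : ℝ) : ℝ :=
  ∑ d ∈ (Ioc 0 D).filter (fun d => q ∣ d), (μ d : ℝ) / d * (Real.log (t/d))^j

lemma K_eq {q : ℕ} (hq : 0 < q) (j D : ℕ) (t : ℝ) :
    K q j D t = (μ q : ℝ) / q * ∑ d ∈ (Ioc 0 (D / q)).filter (fun d => Nat.Coprime q d),
      (μ d : ℝ) / d * (Real.log (t/q/d))^j := by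
  have hq' : (0:ℝ) < q := by exact_mod_cast hq
  unfold K
  rw [mul_sum]
  have h3 : ∀ d ∈ (Ioc 0 (D / q)).filter (fun d => Nat.Coprime q d),
      (μ q : ℝ) / q * ((μ d : ℝ) / d * (Real.log (t/q/d))^j)
        = (μ (q * d) : ℝ) / ((q * d : ℕ) : ℝ) * (Real.log (t/((q * d : ℕ) : ℝ)))^j := by
    intro d hd
    obtain ⟨hd1, hcop⟩ := mem_filter.1 hd
    rw [isMultiplicative_moebius.map_mul_of_coprime hcop]
    have hd0 : (0:ℝ) < d := by exact_mod_cast (mem_Ioc.1 hd1).1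
    push_cast
    rw [div_div t]
    field_simp
  rw [sum_congr rfl h3]
  rw [← sum_image (f := fun n : ℕ => (μ n : ℝ) / (n : ℝ) * (Real.log (t/(n : ℝ)))^j)
    (s := (Ioc 0 (D / q)).filter (fun d => Nat.Coprime q d)) (g := fun d => q * d)
    (fun a _ b _ h => Nat.eq_of_mul_eq_mul_left hq h)]
  symm
  apply sum_subset
  · intro n hn
    obtain ⟨d, hd, rfl⟩ := mem_image.1 hn
    obtain ⟨hd1, hd2⟩ := mem_filter.1 hd
    obtain ⟨hd3, hd4⟩ := mem_Ioc.1 hd1
    refine mem_filter.2 ⟨mem_Ioc.2 ⟨Nat.mul_pos hq hd3, ?_⟩, Nat.dvd_mul_right q d⟩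
    rw [Nat.le_div_iff_mul_le hq] at hd4
    rw [mul_comm]; exact hd4
  · intro n hn hn'
    obtain ⟨hn1, hn2⟩ := mem_filter.1 hn
    obtain ⟨hn5, hn6⟩ := mem_Ioc.1 hn1
    obtain ⟨d, rfl⟩ := hn2
    have hd0 : 0 < d := Nat.pos_of_ne_zero (by rintro rfl; simp at hn5)
    have hpd : ¬ Nat.Coprime q d := by
      intro hcop
      apply hn'
      refine mem_image.2 ⟨d, mem_filter.2 ⟨mem_Ioc.2 ⟨hd0, ?_⟩, hcop⟩, rfl⟩
      rw [Nat.le_div_iff_mul_le hq, mul_comm]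
      exact hn6
    have hns : ¬ Squarefree (q * d) := by
      intro hsq
      exact hpd (Nat.coprime_of_squarefree_mul hsq)
    rw [moebius_eq_zero_of_not_squarefree hns]
    simp

lemma abs_mu_div_le {q : ℕ} (hq : 0 < q) : |(μ q : ℝ) / q| ≤ 1 / (q:ℝ) := by
  rw [abs_div, Nat.abs_cast]
  exact div_le_div_of_nonneg_right (abs_mu_le q) (by positivity)

/-- `|K q 0 D t| ≤ 1/φ(q)` -/
lemma abs_K_zero_le {q : ℕ} (hq : 0 < q) (D : ℕ) (t : ℝ) :
    |K q 0 D t| ≤ 1 / (Nat.totient q : ℝ) := by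
  rw [K_eq hq]
  have h1 : ∑ d ∈ (Ioc 0 (D / q)).filter (fun d => Nat.Coprime q d),
      (μ d : ℝ) / d * (Real.log (t/q/d))^0 = M q.primeFactors 0 ((D / q : ℕ) : ℝ) := by
    unfold M
    rw [Nat.floor_natCast]
    simp only [pow_zero, mul_one]
    refine sum_congr (filter_congr fun d _ => (coprime_iff_primeFactors hq).symm) fun d _ => rfl
  rw [h1, abs_mul]
  have h2 := abs_M_le q.primeFactors (fun p hp => Nat.prime_of_mem_primeFactors hp) 0 zero_le_one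
    abs_M_zero_empty_le ((D / q : ℕ) : ℝ)
  rw [prod_inv_eq hq, one_mul] at h2
  have hq' : (0:ℝ) < q := by exact_mod_cast hq
  have ht : (0:ℝ) < Nat.totient q := by exact_mod_cast Nat.totient_pos.2 hq
  calc |(μ q : ℝ) / q| * |M q.primeFactors 0 ((D / q : ℕ) : ℝ)| ≤ 1 / q * (q / Nat.totient q) :=
        mul_le_mul (abs_mu_div_le hq) h2 (abs_nonneg _) (by positivity)
    _ = 1 / (Nat.totient q : ℝ) := by field_simp

/-- `|K q 1 D t| ≤ (4 + |log (t/D)| ...)/φ(q)`; here `D = ⌊x⌋`. -/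
lemma abs_K_one_le {q : ℕ} (hq : 0 < q) {D : ℕ} (hD : 0 < D) {t : ℝ} (ht : (D:ℝ) ≤ t) :
    |K q 1 D t| ≤ (4 + Real.log (t / D)) / (Nat.totient q : ℝ) := by
  have hq' : (0:ℝ) < q := by exact_mod_cast hq
  have hφ : (0:ℝ) < Nat.totient q := by exact_mod_cast Nat.totient_pos.2 hq
  have hD' : (0:ℝ) < D := by exact_mod_cast hD
  have ht0 : 0 < t := by linarith
  have hlog : 0 ≤ Real.log (t / D) := Real.log_nonneg (by rw [le_div_iff₀ hD']; linarith)
  have h0 : K q 1 D t = K q 1 D D + Real.log (t / D) * K q 0 D D := by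
    unfold K
    rw [mul_sum, ← sum_add_distrib]
    refine sum_congr rfl fun d hd => ?_
    have hd0 : (0:ℝ) < d := by exact_mod_cast (mem_Ioc.1 (mem_filter.1 hd).1).1
    rw [show t / (d:ℝ) = (t / D) * (D / d) by field_simp, Real.log_mul (by positivity) (by positivity)]
    ring
  have h1 : |K q 1 D D| ≤ 4 / (Nat.totient q : ℝ) := by
    rw [K_eq hq]
    have h1 : ∑ d ∈ (Ioc 0 (D / q)).filter (fun d => Nat.Coprime q d),
        (μ d : ℝ) / d * (Real.log ((D:ℝ)/q/d))^1 = M q.primeFactors 1 ((D:ℝ) / q) := by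
      unfold M
      rw [Nat.floor_div_natCast, Nat.floor_natCast]
      refine sum_congr (filter_congr fun d _ => (coprime_iff_primeFactors hq).symm) fun d _ => rfl
    rw [h1, abs_mul]
    have h2 := abs_M_le q.primeFactors (fun p hp => Nat.prime_of_mem_primeFactors hp) 1
      (by norm_num : (0:ℝ) ≤ 4) abs_M_one_empty_le ((D:ℝ) / q)
    rw [prod_inv_eq hq] at h2
    calc |(μ q : ℝ) / q| * |M q.primeFactors 1 ((D:ℝ) / q)| ≤ 1 / q * (4 * (q / Nat.totient q)) :=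
          mul_le_mul (abs_mu_div_le hq) h2 (abs_nonneg _) (by positivity)
      _ = 4 / (Nat.totient q : ℝ) := by field_simp
  have h2 := abs_K_zero_le hq D D
  rw [h0, add_div]
  refine (abs_add_le _ _).trans ?_
  rw [abs_mul, abs_of_nonneg hlog]
  have h3 : Real.log (t / D) * |K q 0 D D| ≤ Real.log (t / D) * (1 / (Nat.totient q : ℝ)) :=
    mul_le_mul_of_nonneg_left h2 hlog
  have h4 : Real.log (t / D) * (1 / (Nat.totient q : ℝ)) = Real.log (t / D) / (Nat.totient q : ℝ) := by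
    ring
  linarith

end Pool.Agent.PrimeFourier
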