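import Pool.Agent.Common_PrimeFourier.Exp
import Pool.Agent.Common_PrimeFourier.MobiusSums

set_option autoImplicit false

/-!
Sums of `bd X (dist1 x_i)` over well-spaced points.
-/

open Finset

namespace Pool.Agent.PrimeFourier

lemma card_bucket_le {ι : Type*} (S : Finset ι) (x : ι → ℝ) {q : ℕ} (hq : 0 < q)
    (hsep : ∀ i ∈ S, ∀ j ∈ S, i ≠ j → 1 / (2 * (q:ℝ)) ≤ dist1 (x i - x j)) (k : ℕ) :
    (S.filter (fun i => ⌊2 * (q:ℝ) * dist1 (x i)⌋₊ = k)).card ≤ 2 := by
  classical
  have hq' : (0:ℝ) < q := by exact_mod_cast hq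
  set T := S.filter (fun i => ⌊2 * (q:ℝ) * dist1 (x i)⌋₊ = k) with hT
  have h1 : T = T.filter (fun i => 0 ≤ x i - round (x i)) ∪ T.filter (fun i => ¬ 0 ≤ x i - round (x i)) :=
    (filter_union_filter_not_eq _ _).symm
  have key : ∀ i ∈ T, ∀ j ∈ T, (0 ≤ x i - round (x i) ↔ 0 ≤ x j - round (x j)) → i = j := by
    intro i hi j hj hsgn
    by_contra hne
    have hi' := (mem_filter.1 hi)
    have hj' := (mem_filter.1 hj)
    have h2 := hsep i hi'.1 j hj'.1 hne
    have h3 : dist1 (x i - x j) ≤ |(x i - round (x i)) - (x j - round (x j))| := by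
      have := dist1_le (x i - x j) (round (x i) - round (x j))
      refine this.trans (le_of_eq ?_)
      congr 1
      push_cast
      ring
    have h4 : |(x i - round (x i)) - (x j - round (x j))| = |dist1 (x i) - dist1 (x j)| := by
      unfold dist1
      by_cases h : 0 ≤ x i - round (x i)
      · rw [abs_of_nonneg h, abs_of_nonneg (hsgn.1 h)]
      · have h' : ¬ 0 ≤ x j - round (x j) := fun h'' => h (hsgn.2 h'')
        rw [abs_of_neg (lt_of_not_ge h), abs_of_neg (lt_of_not_ge h')]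
        rw [← abs_neg]
        congr 1
        ring
    have h5 : |2 * (q:ℝ) * dist1 (x i) - 2 * (q:ℝ) * dist1 (x j)| < 1 := by
      have e1 := Nat.floor_le (a := 2 * (q:ℝ) * dist1 (x i)) (by have := dist1_nonneg (x i); positivity)
      have e2 := Nat.floor_le (a := 2 * (q:ℝ) * dist1 (x j)) (by have := dist1_nonneg (x j); positivity)
      have e3 := Nat.lt_floor_add_one (2 * (q:ℝ) * dist1 (x i))
      have e4 := Nat.lt_floor_add_one (2 * (q:ℝ) * dist1 (x j))
      rw [hi'.2] at e1 e3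
      rw [hj'.2] at e2 e4
      rw [abs_lt]
      constructor <;> linarith
    rw [← mul_sub, abs_mul, abs_of_pos (by positivity : (0:ℝ) < 2 * q)] at h5
    rw [h4] at h3
    have h6 : 2 * (q:ℝ) * (1 / (2 * (q:ℝ))) = 1 := by field_simp
    have h7 : 2 * (q:ℝ) * (1 / (2 * (q:ℝ))) ≤ 2 * (q:ℝ) * |dist1 (x i) - dist1 (x j)| :=
      mul_le_mul_of_nonneg_left (h2.trans h3) (by positivity)
    linarith
  rw [h1]
  refine (card_union_le _ _).trans ?_
  have h8 : (T.filter (fun i => 0 ≤ x i - round (x i))).card ≤ 1 := by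
    rw [card_le_one]
    intro i hi j hj
    exact key i (mem_filter.1 hi).1 j (mem_filter.1 hj).1
      ⟨fun _ => (mem_filter.1 hj).2, fun _ => (mem_filter.1 hi).2⟩
  have h9 : (T.filter (fun i => ¬ 0 ≤ x i - round (x i))).card ≤ 1 := by
    rw [card_le_one]
    intro i hi j hj
    exact key i (mem_filter.1 hi).1 j (mem_filter.1 hj).1
      ⟨fun h => absurd h (mem_filter.1 hi).2, fun h => absurd h (mem_filter.1 hj).2⟩
  omega

lemma sum_bd_separated {ι : Type*} (S : Finset ι) (x : ι → ℝ) {q : ℕ} (hq : 0 < q)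
    (hsep : ∀ i ∈ S, ∀ j ∈ S, i ≠ j → 1 / (2 * (q:ℝ)) ≤ dist1 (x i - x j))
    {X : ℝ} (hX : 0 ≤ X) :
    ∑ i ∈ S, bd X (dist1 (x i)) ≤ 4 * X + 4 * q * (1 + Real.log q) := by
  classical
  have hq' : (0:ℝ) < q := by exact_mod_cast hq
  have hmaps : ∀ i ∈ S, ⌊2 * (q:ℝ) * dist1 (x i)⌋₊ ∈ range (q+1) := by
    intro i _
    rw [mem_range, Nat.lt_succ_iff]
    have h1 : 2 * (q:ℝ) * dist1 (x i) ≤ q := by
      have := dist1_le_half (x i)
      nlinarith
    have h2 := Nat.floor_le_floor h1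
    rwa [Nat.floor_natCast] at h2
  rw [← sum_fiberwise_of_maps_to hmaps]
  have h1 : ∀ k ∈ range (q+1), ∑ i ∈ S.filter (fun i => ⌊2 * (q:ℝ) * dist1 (x i)⌋₊ = k),
      bd X (dist1 (x i)) ≤ 2 * bd X (k / (2 * q)) := by
    intro k _
    have h2 : ∀ i ∈ S.filter (fun i => ⌊2 * (q:ℝ) * dist1 (x i)⌋₊ = k),
        bd X (dist1 (x i)) ≤ bd X (k / (2 * q)) := by
      intro i hi
      have hi' := (mem_filter.1 hi).2
      apply bd_anti hX (by positivity)
      have e1 := Nat.floor_le (a := 2 * (q:ℝ) * dist1 (x i)) (by have := dist1_nonneg (x i); positivity)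
      rw [hi'] at e1
      rw [div_le_iff₀ (by positivity)]
      linarith
    have h3 := sum_le_card_nsmul _ _ _ h2
    refine h3.trans ?_
    rw [nsmul_eq_mul]
    apply mul_le_mul_of_nonneg_right _ (bd_nonneg hX (by positivity))
    exact_mod_cast card_bucket_le S x hq hsep k
  refine (sum_le_sum h1).trans ?_
  rw [← mul_sum, sum_range_succ']
  have h4 : bd X (((0:ℕ):ℝ) / (2 * q)) ≤ 2 * X := bd_le_two_mul hX (by positivity)
  have h5 : ∑ k ∈ range q, bd X (((k+1 : ℕ):ℝ) / (2 * q)) ≤ 2 * q * (1 + Real.log q) := by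
    have h6 : ∀ k ∈ range q, bd X (((k+1 : ℕ):ℝ) / (2 * q)) ≤ 2 * q * (1 / ((k+1 : ℕ):ℝ)) := by
      intro k _
      refine (bd_le_inv hX (by positivity)).trans (le_of_eq ?_)
      field_simp
    refine (sum_le_sum h6).trans ?_
    rw [← mul_sum]
    apply mul_le_mul_of_nonneg_left _ (by positivity)
    have h7 := harmonic_le_one_add_log q
    refine le_trans (le_of_eq ?_) h7
    rw [harmonic]
    push_cast
    refine sum_congr rfl fun k _ => ?_
    rw [one_div]
  nlinarith

end Pool.Agent.PrimeFourier
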