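import Pool.Agent.Common_PrimeFourier.Hyperbola
import Pool.Agent.Common_Sieve.BT

set_option autoImplicit false

/-!
The minor arc bound: `∑ Λ(n) e(alpha n) = o(N)` unless `q` and `|β| N` are bounded.
-/

open Finset ArithmeticFunction Filter Topology
open scoped ArithmeticFunction.Moebius

namespace Pool.Agent.PrimeFourier

/-- one dyadic block, any `q`. -/
lemma typeII_block {C : ℝ} (hC : 0 < C)
    (hBT : ∀ y H q u : ℕ, 0 < q → q ^ 4 ≤ H → y ≤ H ^ 2 →
      ∑ m ∈ (Finset.Ioc y (y + H)).filter (fun m => m % q = u % q), Λ m ≤ C * H / Nat.totient q)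
    {q M N : ℕ} {α β : ℝ} {a : ℤ} (hq : 0 < q) (hcop : IsCoprime a (q:ℤ))
    (hα : α = a / q + β) (hβ : q * |β| * N ≤ (Real.log N)^8) (hL : 2 ≤ Real.log N)
    (hqL : q * (Real.log N)^8 ≤ N) (hM : (Real.log N)^50 ≤ M) (hM2 : M * M ≤ N) :
    ∑ m ∈ Ioc M (2 * M), Λ m * ‖X α (N / m) m‖
      ≤ N * (76 * C * Real.sqrt (q * g (|β| * N) / (Nat.totient q)^2)
          + (12 * (144 * C + 10584) + 21) / (Real.log N)^2) := by
  have hL0 : 0 < Real.log N := by linarith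
  have hφ : (0:ℝ) < Nat.totient q := by exact_mod_cast Nat.totient_pos.2 hq
  have hT0 : 0 ≤ |β| * N := by positivity
  have hg0 := g_pos hT0
  have hρ0 : 0 ≤ (q:ℝ) * g (|β| * N) / (Nat.totient q)^2 := by positivity
  rcases le_or_gt (q:ℝ) ((Real.log N)^8) with hcase | hcase
  · have h1 := typeII_small_block hC hBT hq hcop hα hβ hL hcase hM hM2
    set L := Real.log N with hLdef
    set ρ := (q:ℝ) * g (|β| * N) / (Nat.totient q)^2 with hρ
    have hsq := Real.sq_sqrt hρ0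
    have hs0 := Real.sqrt_nonneg ρ
    set s := Real.sqrt ρ with hs
    apply le_of_sq_le_sq _ (by positivity)
    refine h1.trans ?_
    have h2 : 12 * (144 * C + 10584) / L^8 ≤ ((12 * (144 * C + 10584) + 21) / L^2)^2 := by
      rw [div_pow, div_le_div_iff₀ (by positivity) (by positivity)]
      have h3 : 12 * (144 * C + 10584) ≤ (12 * (144 * C + 10584) + 21)^2 := by nlinarith
      have h4 : (L^2)^2 ≤ L^8 := by
        rw [← pow_mul]
        exact pow_le_pow_right₀ (by linarith) (by norm_num)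
      exact mul_le_mul h3 h4 (by positivity) (by positivity)
    have h3 : 12 * (480 * C^2 * ρ) ≤ (76 * C * s)^2 := by
      have : (76 * C * s)^2 = 5776 * (C^2 * ρ) := by rw [← hsq]; ring
      rw [this]
      have h4 : 0 ≤ C^2 * ρ := by positivity
      nlinarith
    have h4 : 0 ≤ (76 * C * s) * ((12 * (144 * C + 10584) + 21) / L^2) := by positivity
    have h5 : 12 * (480 * C^2 * ρ + (144 * C + 10584) / L^8)
        ≤ (76 * C * s + (12 * (144 * C + 10584) + 21) / L^2)^2 := by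
      have h6 : 12 * (480 * C^2 * ρ + (144 * C + 10584) / L^8)
        = 12 * (480 * C^2 * ρ) + 12 * (144 * C + 10584) / L^8 := by ring
      rw [h6]
      nlinarith
    have h6 := mul_le_mul_of_nonneg_left h5 (by positivity : (0:ℝ) ≤ (N:ℝ)^2)
    calc _ = (N:ℝ)^2 * (12 * (480 * C^2 * ρ + (144 * C + 10584) / L^8)) := by ring
      _ ≤ _ := h6
      _ = _ := by ring
  · have h1 := typeII_large_block hq hcop hα hβ hL hqL hcase.le
      (le_trans (pow_le_pow_right₀ (by linarith) (by norm_num)) hM) hM2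
    refine h1.trans ?_
    have h2 : 0 ≤ (N:ℝ) * (76 * C * Real.sqrt (q * g (|β| * N) / (Nat.totient q)^2)) := by positivity
    have h3 : 21 * ((N:ℝ) / (Real.log N)^2)
        ≤ N * ((12 * (144 * C + 10584) + 21) / (Real.log N)^2) := by
      have : N * ((12 * (144 * C + 10584) + 21) / (Real.log N)^2)
          = (12 * (144 * C + 10584) + 21) * ((N:ℝ) / (Real.log N)^2) := by ring
      rw [this]
      apply mul_le_mul_of_nonneg_right _ (by positivity)
      linarith [hC]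
    rw [mul_add]
    linarith

theorem typeII_bound {C : ℝ} (hC : 0 < C)
    (hBT : ∀ y H q u : ℕ, 0 < q → q ^ 4 ≤ H → y ≤ H ^ 2 →
      ∑ m ∈ (Finset.Ioc y (y + H)).filter (fun m => m % q = u % q), Λ m ≤ C * H / Nat.totient q)
    {ε : ℝ} (hε : 0 < ε) : ∀ᶠ N : ℕ in atTop, ∀ (α β : ℝ) (a : ℤ) (q : ℕ),
    0 < q → IsCoprime a (q:ℤ) → α = a / q + β → q * |β| * N ≤ (Real.log N)^8 →
    q * (Real.log N)^8 ≤ N →
    ∑ m ∈ Ioc 0 (Nat.sqrt N), Λ m * ‖X α (N / m) m‖
      ≤ N * Real.log N * (152 * C * Real.sqrt (q * g (|β| * N) / (Nat.totient q)^2) + ε) := by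
  obtain ⟨c2, hc2⟩ : ∃ c2, c2 = 12 * (144 * C + 10584) + 21 := ⟨_, rfl⟩
  have hc20 : 0 < c2 := by rw [hc2]; positivity
  filter_upwards [eventually_log_ge 2, eventually_log_ge (4 * c2 / ε), eventually_loglog_ge 1,
    eventually_loglog_pow_le 2 (by positivity : (0:ℝ) < ε / (2 * 15912)), eventually_ge_atTop 1]
    with N hL2 hLε hLL hLL2 hN1 α β a q hq hcop hα hβ hqL
  set L := Real.log N with hL
  set x := Real.log L with hx
  have hN0 : (0:ℝ) < N := by exact_mod_cast hN1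
  have hL0 : 0 < L := by linarith
  have hL1 : 1 ≤ L := by linarith
  have hφ : (0:ℝ) < Nat.totient q := by exact_mod_cast Nat.totient_pos.2 hq
  have hT0 : 0 ≤ |β| * N := by positivity
  have hg0 := g_pos hT0
  obtain ⟨s, hs⟩ : ∃ s, s = Real.sqrt (q * g (|β| * N) / (Nat.totient q)^2) := ⟨_, rfl⟩
  have hs0 : 0 ≤ s := by rw [hs]; exact Real.sqrt_nonneg _
  rw [← hs]
  obtain ⟨R, hR⟩ : ∃ R, R = Nat.sqrt N := ⟨_, rfl⟩
  rw [← hR]
  have hRN : R * R ≤ N := by rw [hR]; exact Nat.sqrt_le N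
  have hRleN : R ≤ N := by rw [hR]; exact Nat.sqrt_le_self N
  obtain ⟨M0, hM0⟩ : ∃ M0 : ℕ, M0 = ⌈L^50⌉₊ := ⟨_, rfl⟩
  have hM0ge : L^50 ≤ M0 := by rw [hM0]; exact Nat.le_ceil _
  have hL50 : 1 ≤ L^50 := one_le_pow₀ hL1
  have hM0le : (M0:ℝ) ≤ L^51 := by
    have h1 := Nat.ceil_lt_add_one (a := L^50) (by positivity)
    rw [← hM0] at h1
    have h2 : L^51 = L^50 * L := by ring
    rw [h2]
    nlinarith
  have hM0pos : 0 < M0 := by
    have : (0:ℝ) < M0 := by linarith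
    exact_mod_cast this
  have hlogM0 : Real.log M0 ≤ 51 * x := by
    have h1 : Real.log M0 ≤ Real.log (L^51) := Real.log_le_log (by exact_mod_cast hM0pos) hM0le
    rw [Real.log_pow] at h1
    push_cast at h1
    exact h1
  have hlogM00 : 0 ≤ Real.log M0 := Real.log_natCast_nonneg _
  obtain ⟨E, hE⟩ : ∃ E, E = N * (76 * C * s + c2 / L^2) := ⟨_, rfl⟩
  have hE0 : 0 ≤ E := by rw [hE]; positivity
  have hblock : ∀ M, M0 ≤ M → M ≤ R → ∑ m ∈ Ioc M (2 * M), Λ m * ‖X α (N / m) m‖ ≤ E := by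
    intro M h1 h2
    have h3 := typeII_block hC hBT hq hcop hα hβ hL2 hqL (M := M)
      (hM0ge.trans (by exact_mod_cast h1)) ((Nat.mul_le_mul h2 h2).trans hRN)
    rw [hE, hs, hc2]
    exact h3
  obtain ⟨J, hJ⟩ : ∃ J, J = Nat.log 2 R + 1 := ⟨_, rfl⟩
  have hRJ : R ≤ 2 ^ J * M0 := by
    have h1 : R < 2 ^ J := by rw [hJ]; exact Nat.lt_pow_succ_log_self (by norm_num) R
    calc R ≤ 2 ^ J := h1.le
      _ ≤ 2 ^ J * M0 := Nat.le_mul_of_pos_right _ hM0pos
  have hJL : (J:ℝ) ≤ 2 * L := by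
    rcases Nat.eq_zero_or_pos R with h0 | h0
    · rw [hJ, h0]; simp; linarith
    · have h1 : 2 ^ (Nat.log 2 R) ≤ R := Nat.pow_log_le_self 2 h0.ne'
      have h2 : (2:ℝ) ^ (Nat.log 2 R) ≤ N := by exact_mod_cast h1.trans hRleN
      have h3 := Real.log_le_log (by positivity) h2
      rw [Real.log_pow, ← hL] at h3
      have h4 : 0.69 ≤ Real.log 2 := by linarith [Real.log_two_gt_d9]
      have h5 : ((Nat.log 2 R : ℕ):ℝ) * 0.69 ≤ L := by
        have : (0:ℝ) ≤ (Nat.log 2 R : ℕ) := Nat.cast_nonneg _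
        nlinarith
      rw [hJ]
      push_cast
      linarith
  have hdy := dyadic_le (f := fun m => Λ m * ‖X α (N / m) m‖)
    (fun m => mul_nonneg vonMangoldt_nonneg (norm_nonneg _)) hE0 hblock J M0 le_rfl hRJ
  have hsmall := small_m_le α N M0
  have hunion : ∑ m ∈ Ioc 0 R, Λ m * ‖X α (N / m) m‖
      ≤ ∑ m ∈ Ioc 0 M0, Λ m * ‖X α (N / m) m‖ + ∑ m ∈ Ioc M0 R, Λ m * ‖X α (N / m) m‖ := by
    have hsub : Ioc 0 R ⊆ Ioc 0 M0 ∪ Ioc M0 R := by
      intro m hm
      rw [mem_Ioc] at hm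
      rw [mem_union, mem_Ioc, mem_Ioc]
      omega
    refine (sum_le_sum_of_subset_of_nonneg hsub
      (fun _ _ _ => mul_nonneg vonMangoldt_nonneg (norm_nonneg _))).trans ?_
    have h6 := sum_union_inter (s₁ := Ioc 0 M0) (s₂ := Ioc M0 R) (f := fun m => Λ m * ‖X α (N / m) m‖)
    have h7 : 0 ≤ ∑ m ∈ Ioc 0 M0 ∩ Ioc M0 R, Λ m * ‖X α (N / m) m‖ :=
      sum_nonneg fun _ _ => mul_nonneg vonMangoldt_nonneg (norm_nonneg _)
    linarith
  refine hunion.trans ?_
  have h1 : 6 * (N:ℝ) * (Real.log M0 * (1 + Real.log M0)) ≤ N * L * (ε / 2) := by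
    have h2 : Real.log M0 * (1 + Real.log M0) ≤ (51 * x) * (52 * x) :=
      mul_le_mul hlogM0 (by linarith) (by positivity) (by positivity)
    have h3 : 6 * (N:ℝ) * (Real.log M0 * (1 + Real.log M0)) ≤ 6 * N * ((51 * x) * (52 * x)) :=
      mul_le_mul_of_nonneg_left h2 (by positivity)
    have h4 : 6 * (N:ℝ) * ((51 * x) * (52 * x)) = N * (15912 * x^2) := by ring
    have h5 : 15912 * x^2 ≤ 15912 * (ε / (2 * 15912) * L) := mul_le_mul_of_nonneg_left hLL2 (by norm_num)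
    have h6 : 15912 * (ε / (2 * 15912) * L) = L * (ε / 2) := by ring
    rw [h6] at h5
    have h7 := mul_le_mul_of_nonneg_left h5 hN0.le
    linarith
  have h2 : (J:ℝ) * E ≤ 2 * L * E := mul_le_mul_of_nonneg_right hJL hE0
  have h3 : 2 * L * E = N * L * (152 * C * s) + N * L * (2 * c2 / L^2) := by
    rw [hE]; ring
  have h4 : 2 * c2 / L^2 ≤ ε / 2 := by
    rw [div_le_iff₀ (by positivity)]
    rw [div_le_iff₀ hε] at hLε
    have h5 : L * 1 ≤ L * L := mul_le_mul_of_nonneg_left hL1 hL0.le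
    have h6 : ε * L ≤ ε * (L * L) := mul_le_mul_of_nonneg_left (by linarith) hε.le
    have h7 : ε / 2 * L^2 = ε * (L * L) / 2 := by ring
    rw [h7]
    linarith
  have h5 : N * L * (2 * c2 / L^2) ≤ N * L * (ε / 2) := mul_le_mul_of_nonneg_left h4 (by positivity)
  have h6 : (N:ℝ) * L * (152 * C * s + ε) = N * L * (152 * C * s) + N * L * (ε / 2) + N * L * (ε / 2) := by
    ring
  rw [h6]
  linarith

lemma g_le {T : ℝ} (hT : 0 ≤ T) : g T ≤ 1 := by
  unfold g
  rw [div_le_one (by linarith)]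
  have := Real.log_le_sub_one_of_pos (x := 1 + T) (by linarith)
  linarith

lemma g_le_sqrt {T : ℝ} (hT : 0 ≤ T) : g T ≤ 2 / Real.sqrt (1 + T) := by
  unfold g
  have h1 : 0 < 1 + T := by linarith
  have h2 : 0 < Real.sqrt (1 + T) := Real.sqrt_pos.2 h1
  have h3 : Real.sqrt (1 + T) * Real.sqrt (1 + T) = 1 + T := Real.mul_self_sqrt h1.le
  have h4 : Real.log (1 + T) ≤ 2 * (Real.sqrt (1 + T) - 1) := by
    have h5 := Real.log_le_sub_one_of_pos h2
    have h6 : Real.log (1 + T) = 2 * Real.log (Real.sqrt (1 + T)) := by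
      conv_lhs => rw [← h3]
      rw [Real.log_mul h2.ne' h2.ne']
      ring
    rw [h6]
    linarith
  rw [div_le_div_iff₀ h1 h2]
  calc (1 + Real.log (1 + T)) * Real.sqrt (1 + T) ≤ (2 * Real.sqrt (1 + T)) * Real.sqrt (1 + T) := by
        apply mul_le_mul_of_nonneg_right _ h2.le
        linarith
    _ = 2 * (1 + T) := by rw [mul_assoc, h3]

/-- decay of the two main quantities -/
lemma decay {δ : ℝ} (hδ : 0 < δ) : ∃ K : ℝ, 0 < K ∧ ∀ (q : ℕ) (T : ℝ), 0 < q → 0 ≤ T → (K < q ∨ K < T) →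
    (q:ℝ) * g T / (Nat.totient q)^2 ≤ δ ∧ 1 / ((Nat.totient q : ℝ) * (1 + T)) ≤ δ := by
  refine ⟨21 / δ^3 + 9 / δ^2 + 5 / δ^3 + 1 + 36 / δ^2 + 1 / δ, by positivity, ?_⟩
  intro q T hq hT h
  have hq' : (0:ℝ) < q := by exact_mod_cast hq
  have hq1 : (1:ℝ) ≤ q := by exact_mod_cast hq
  have hφ : (0:ℝ) < Nat.totient q := by exact_mod_cast Nat.totient_pos.2 hq
  have hφ1 : (1:ℝ) ≤ Nat.totient q := by exact_mod_cast Nat.totient_pos.2 hq
  set φ := (Nat.totient q : ℝ) with hφdef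
  have hmain := sq_le_totient hq
  rw [← hφdef] at hmain
  have hg0 := g_pos hT
  have hg1 := g_le hT
  -- (q/φ²)^3 ≤ 21/q
  have hcube : ((q:ℝ) / φ^2)^3 ≤ 21 / q := by
    rw [div_pow, div_le_div_iff₀ (by positivity) hq']
    have h1 : ((q:ℝ)^2)^2 ≤ (9 / 2 * φ^3)^2 := pow_le_pow_left₀ (by positivity) hmain 2
    have h2 : (9 / 2 * φ^3)^2 = 81 / 4 * (φ^2)^3 := by ring
    rw [h2] at h1
    have h3 : 0 < (φ^2)^3 := by positivity
    have h4 : (q:ℝ)^3 * q = ((q:ℝ)^2)^2 := by ring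
    rw [h4]
    linarith
  have hr0 : 0 ≤ (q:ℝ) / φ^2 := by positivity
  have hpos1 : 0 < 21 / δ^3 := by positivity
  have hpos2 : 0 < 9 / δ^2 := by positivity
  have hpos3 : 0 < 5 / δ^3 := by positivity
  have hpos4 : 0 < 36 / δ^2 := by positivity
  have hpos5 : 0 < 1 / δ := by positivity
  have e1 : (q:ℝ) * g T / φ^2 = (q / φ^2) * g T := by ring
  rw [e1]
  rcases h with h | h
  · -- q large
    have h1 : 21 / (q:ℝ) ≤ δ^3 := by
      rw [div_le_iff₀ hq']
      have h2 : 21 / δ^3 < q := by linarith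
      rw [div_lt_iff₀ (by positivity)] at h2
      linarith
    have h2 : (q:ℝ) / φ^2 ≤ δ := le_of_pow_le_pow_left₀ (by norm_num) hδ.le (hcube.trans h1)
    refine ⟨?_, ?_⟩
    · calc (q:ℝ) / φ^2 * g T ≤ δ * 1 := mul_le_mul h2 hg1 hg0.le hδ.le
        _ = δ := mul_one δ
    · have h3 : 1 / δ ≤ φ := by
        apply le_of_pow_le_pow_left₀ (n := 3) (by norm_num) hφ.le
        have h4 : 5 / δ^3 ≤ q := by linarith
        have h5 : (q:ℝ) * 1 ≤ q * q := mul_le_mul_of_nonneg_left hq1 hq'.le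
        have h6 : (1 / δ)^3 = 1 / δ^3 := by rw [div_pow, one_pow]
        have h7 : 5 / δ^3 = 5 * (1 / δ^3) := by ring
        rw [h6]
        rw [h7] at h4
        have h8 : 0 < 1 / δ^3 := by positivity
        nlinarith
      rw [div_le_iff₀ (by positivity)]
      rw [div_le_iff₀ hδ] at h3
      have h4 : φ * 1 ≤ φ * (1 + T) := mul_le_mul_of_nonneg_left (by linarith) hφ.le
      have h5 : δ * (φ * 1) ≤ δ * (φ * (1 + T)) := mul_le_mul_of_nonneg_left h4 hδ.le
      linarith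
  · -- T large
    have h2 : (q:ℝ) / φ^2 ≤ 3 := by
      apply le_of_pow_le_pow_left₀ (n := 3) (by norm_num) (by norm_num)
      refine hcube.trans ?_
      rw [div_le_iff₀ hq']
      linarith
    have h1T : 0 < 1 + T := by linarith
    have hsq : 6 / δ ≤ Real.sqrt (1 + T) := by
      apply Real.le_sqrt_of_sq_le
      rw [div_pow]
      have : (6:ℝ)^2 / δ^2 = 36 / δ^2 := by norm_num
      rw [this]
      linarith
    refine ⟨?_, ?_⟩
    · have h3 : g T ≤ δ / 3 := by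
        refine (g_le_sqrt hT).trans ?_
        have h4 : 0 < Real.sqrt (1 + T) := Real.sqrt_pos.2 h1T
        rw [div_le_iff₀ h4]
        rw [div_le_iff₀ hδ] at hsq
        linarith
      calc (q:ℝ) / φ^2 * g T ≤ 3 * (δ / 3) := mul_le_mul h2 h3 hg0.le (by norm_num)
        _ = δ := by ring
    · rw [div_le_iff₀ (by positivity)]
      have h3 : 1 / δ ≤ 1 + T := by linarith
      rw [div_le_iff₀ hδ] at h3
      have h4 : 1 * (1 + T) ≤ φ * (1 + T) := mul_le_mul_of_nonneg_right hφ1 h1T.le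
      have h5 : δ * (1 * (1 + T)) ≤ δ * (φ * (1 + T)) := mul_le_mul_of_nonneg_left h4 hδ.le
      linarith

/-- Minor arcs. -/
theorem caseII {ε : ℝ} (hε : 0 < ε) : ∃ K : ℝ, 0 < K ∧ ∀ᶠ N : ℕ in atTop,
    ∀ (α β : ℝ) (a : ℤ) (q : ℕ),
    0 < q → IsCoprime a (q:ℤ) → α = a / q + β → q * |β| * N ≤ (Real.log N)^8 →
    q * (Real.log N)^8 ≤ N → (K < q ∨ K < |β| * N) →
    ‖∑ n ∈ Ioc 0 N, ((Λ n : ℝ) : ℂ) * e (α * n)‖ ≤ ε * N := by
  obtain ⟨C, hC, hBT⟩ := Pool.Agent.Common_Sieve.brun_titchmarsh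
  obtain ⟨δ, hδ, hδ1, hδ2⟩ : ∃ δ : ℝ, 0 < δ ∧ 80 * δ ≤ ε / 8 ∧ 304 * C * Real.sqrt δ ≤ ε / 8 := by
    refine ⟨min (ε / 640) ((ε / (2432 * C))^2), by positivity, ?_, ?_⟩
    · have := min_le_left (ε / 640) ((ε / (2432 * C))^2)
      linarith
    · have h1 : Real.sqrt (min (ε / 640) ((ε / (2432 * C))^2)) ≤ ε / (2432 * C) := by
        apply Real.sqrt_le_iff.2
        exact ⟨by positivity, min_le_right _ _⟩
      calc 304 * C * Real.sqrt (min (ε / 640) ((ε / (2432 * C))^2))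
          ≤ 304 * C * (ε / (2432 * C)) := mul_le_mul_of_nonneg_left h1 (by positivity)
        _ = ε / 8 := by field_simp; norm_num
  obtain ⟨K, hK0, hK⟩ := decay hδ
  refine ⟨K, hK0, ?_⟩
  filter_upwards [typeI_bound (by positivity : 0 < ε / 4), typeII_bound hC hBT (by positivity : 0 < ε / 8),
    eventually_log_ge 1, eventually_log_ge (168 / ε)]
    with N h1 h2 hL1 hLε α β a q hq hcop hα hβ hqL hKq
  have h1' := h1 α β a q hq hcop hα hβ hqL
  have h2' := h2 α β a q hq hcop hα hβ hqL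
  have hT0 : 0 ≤ |β| * N := by positivity
  obtain ⟨hd1, hd2⟩ := hK q (|β| * N) hq hT0 hKq
  have h3 := log_mul_norm_le α N
  have h4 := norm_F2_le α N
  set L := Real.log N with hL
  have hL0 : 0 < L := by linarith
  have hN0 : (0:ℝ) ≤ N := Nat.cast_nonneg N
  have h5 : N * L * (80 / ((Nat.totient q : ℝ) * (1 + |β| * N)) + ε / 4) ≤ N * L * (ε / 8 + ε / 4) := by
    apply mul_le_mul_of_nonneg_left _ (by positivity)
    have : 80 / ((Nat.totient q : ℝ) * (1 + |β| * N)) = 80 * (1 / ((Nat.totient q : ℝ) * (1 + |β| * N))) := by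
      ring
    rw [this]
    linarith
  have h6 : N * L * (152 * C * Real.sqrt (q * g (|β| * N) / (Nat.totient q)^2) + ε / 8)
      ≤ N * L * (ε / 16 + ε / 8) := by
    apply mul_le_mul_of_nonneg_left _ (by positivity)
    have h7 : Real.sqrt (q * g (|β| * N) / (Nat.totient q)^2) ≤ Real.sqrt δ := Real.sqrt_le_sqrt hd1
    have h8 := mul_le_mul_of_nonneg_left h7 (by positivity : (0:ℝ) ≤ 152 * C)
    linarith
  have h7 : 42 * (N:ℝ) ≤ N * L * (ε / 4) := by
    rw [div_le_iff₀ hε] at hLε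
    have : N * L * (ε / 4) = N * ((L * ε) / 4) := by ring
    rw [this, mul_comm]
    apply mul_le_mul_of_nonneg_left _ hN0
    linarith
  have h8 : L * ‖∑ n ∈ Ioc 0 N, ((Λ n : ℝ) : ℂ) * e (α * n)‖ ≤ L * (ε * N) := by
    have h9 : L * (ε * N) = N * L * (ε / 8 + ε / 4) + 2 * (N * L * (ε / 16 + ε / 8)) + N * L * (ε / 4) := by
      ring
    rw [h9]
    linarith
  exact le_of_mul_le_mul_left h8 hL0

end Pool.Agent.PrimeFourier
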