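import Mathlib

set_option autoImplicit false

/-!
Additive characters, distance to the nearest integer, geometric sums, summation by parts.
-/

open Finset

namespace Pool.Agent.PrimeFourier

/-- `e x = exp (2 pi i x)`. -/
noncomputable def e (x : ℝ) : ℂ := Complex.exp (2 * Real.pi * Complex.I * x)

lemma e_zero : e 0 = 1 := by simp [e]

lemma e_add (x y : ℝ) : e (x + y) = e x * e y := by
  unfold e
  rw [← Complex.exp_add]
  congr 1
  push_cast
  ring

lemma norm_e (x : ℝ) : ‖e x‖ = 1 := by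
  unfold e
  rw [show (2 * Real.pi * Complex.I * x : ℂ) = ((2 * Real.pi * x : ℝ) : ℂ) * Complex.I by
    push_cast; ring]
  exact Complex.norm_exp_ofReal_mul_I _

lemma e_ne_zero (x : ℝ) : e x ≠ 0 := Complex.exp_ne_zero _

lemma e_int (k : ℤ) : e k = 1 := by
  unfold e
  rw [show (2 * Real.pi * Complex.I * ((k : ℝ) : ℂ) : ℂ) = k * (2 * Real.pi * Complex.I) by
    push_cast; ring]
  exact Complex.exp_int_mul_two_pi_mul_I k

lemma e_nat (k : ℕ) : e k = 1 := by
  have := e_int k
  simpa using this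

lemma e_add_int (x : ℝ) (k : ℤ) : e (x + k) = e x := by rw [e_add, e_int, mul_one]

lemma e_sub_int (x : ℝ) (k : ℤ) : e (x - k) = e x := by
  have := e_add_int (x - k) k
  rw [sub_add_cancel] at this
  exact this.symm

lemma e_nat_mul (x : ℝ) (n : ℕ) : e (x * n) = e x ^ n := by
  unfold e
  rw [← Complex.exp_nat_mul]
  congr 1
  push_cast
  ring

lemma conj_e (x : ℝ) : (starRingEnd ℂ) (e x) = e (-x) := by
  unfold e
  rw [← Complex.exp_conj]
  congr 1
  simp only [map_mul, Complex.conj_I, Complex.conj_ofReal, map_ofNat]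
  push_cast
  ring

lemma norm_e_sub_e_le (x y : ℝ) : ‖e x - e y‖ ≤ 2 * Real.pi * |x - y| := by
  have h : e x - e y = e y * (e (x - y) - 1) := by
    rw [mul_sub, ← e_add]; simp
  rw [h, norm_mul, norm_e, one_mul]
  unfold e
  rw [show (2 * Real.pi * Complex.I * ((x - y : ℝ) : ℂ) : ℂ)
    = Complex.I * ((2 * Real.pi * (x - y) : ℝ) : ℂ) by push_cast; ring]
  rw [Complex.norm_exp_I_mul_ofReal_sub_one]
  rw [Real.norm_eq_abs, abs_mul, abs_two]
  have h1 : |Real.sin (2 * Real.pi * (x - y) / 2)| ≤ |2 * Real.pi * (x - y) / 2| :=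
    Real.abs_sin_le_abs
  calc 2 * |Real.sin (2 * Real.pi * (x - y) / 2)| ≤ 2 * |2 * Real.pi * (x - y) / 2| := by linarith
    _ = 2 * Real.pi * |x - y| := by
      rw [show 2 * Real.pi * (x - y) / 2 = Real.pi * (x - y) by ring, abs_mul,
        abs_of_pos Real.pi_pos]
      ring

/-- distance to the nearest integer -/
noncomputable def dist1 (x : ℝ) : ℝ := |x - round x|

lemma dist1_nonneg (x : ℝ) : 0 ≤ dist1 x := abs_nonneg _

lemma dist1_le_half (x : ℝ) : dist1 x ≤ 1/2 := by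
  unfold dist1
  exact abs_sub_round x

lemma dist1_le (x : ℝ) (k : ℤ) : dist1 x ≤ |x - k| := round_le x k

lemma dist1_add_int (x : ℝ) (k : ℤ) : dist1 (x + k) = dist1 x := by
  unfold dist1
  rw [round_add_intCast]
  push_cast
  congr 1
  ring

lemma dist1_neg (x : ℝ) : dist1 (-x) = dist1 x := by
  apply le_antisymm
  · refine (dist1_le (-x) (-round x)).trans (le_of_eq ?_)
    unfold dist1
    push_cast
    rw [← abs_neg]
    congr 1
    ring
  · have := dist1_le x (-round (-x))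
    refine this.trans (le_of_eq ?_)
    unfold dist1
    push_cast
    rw [← abs_neg]
    congr 1
    ring

lemma dist1_add_le (x y : ℝ) : dist1 (x + y) ≤ dist1 x + |y| := by
  refine (dist1_le (x + y) (round x)).trans ?_
  unfold dist1
  rw [show x + y - round x = (x - round x) + y by ring]
  exact abs_add_le _ _

lemma le_dist1_add (x y : ℝ) : dist1 x - |y| ≤ dist1 (x + y) := by
  have := dist1_add_le (x + y) (-y)
  rw [add_neg_cancel_right, abs_neg] at this
  linarith

lemma dist1_eq_abs {x : ℝ} (h : |x| ≤ 1/2) : dist1 x = |x| := by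
  apply le_antisymm
  · simpa using dist1_le x 0
  · unfold dist1
    by_cases h0 : round x = 0
    · rw [h0]; simp
    · have h1 : (1:ℝ) ≤ |(round x : ℝ)| := by
        have : (1:ℤ) ≤ |round x| := Int.one_le_abs h0
        exact_mod_cast this
      have h2 : |(round x : ℝ)| ≤ |x - round x| + |x| := by
        have := abs_sub_abs_le_abs_sub (round x : ℝ) x
        rw [abs_sub_comm] at this
        linarith
      linarith

/-- rational points are far from integers -/
lemma dist1_div_ge {a : ℤ} {q : ℕ} (hq : 0 < q) (h : ¬ (q : ℤ) ∣ a) :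
    1 / (q:ℝ) ≤ dist1 ((a:ℝ) / q) := by
  unfold dist1
  have hq' : (0:ℝ) < q := by exact_mod_cast hq
  rw [show (a:ℝ) / q - round ((a:ℝ)/q) = ((a - round ((a:ℝ)/q) * q : ℤ) : ℝ) / q by
    push_cast; field_simp]
  rw [abs_div, abs_of_pos hq']
  apply div_le_div_of_nonneg_right _ hq'.le
  have : a - round ((a:ℝ)/q) * q ≠ 0 := by
    intro h0
    apply h
    exact ⟨round ((a:ℝ)/q), by linarith⟩
  exact_mod_cast Int.one_le_abs this

lemma four_mul_dist1_le (x : ℝ) : 4 * dist1 x ≤ ‖1 - e x‖ := by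
  set y := x - round x with hy
  have h1 : e x = e y := by rw [hy, e_sub_int]
  have h2 : |y| ≤ 1/2 := abs_sub_round x
  rw [h1, norm_sub_rev]
  unfold e dist1
  rw [← hy]
  rw [show (2 * Real.pi * Complex.I * (y : ℂ) : ℂ)
    = Complex.I * ((2 * Real.pi * y : ℝ) : ℂ) by push_cast; ring]
  rw [Complex.norm_exp_I_mul_ofReal_sub_one, Real.norm_eq_abs, abs_mul, abs_two]
  have h3 : 2 * |y| ≤ |Real.sin (2 * Real.pi * y / 2)| := by
    rw [show 2 * Real.pi * y / 2 = Real.pi * y by ring]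
    have h4 : ∀ z : ℝ, 0 ≤ z → z ≤ 1/2 → 2 * z ≤ Real.sin (Real.pi * z) := by
      intro z hz hz'
      have := Real.mul_le_sin (x := Real.pi * z) (by positivity)
        (by nlinarith [Real.pi_pos])
      have h5 : 2 / Real.pi * (Real.pi * z) = 2 * z := by field_simp
      linarith
    rcases le_total 0 y with h0 | h0
    · rw [abs_of_nonneg h0] at h2 ⊢
      exact (h4 y h0 h2).trans (le_abs_self _)
    · rw [abs_of_nonpos h0] at h2 ⊢
      have := h4 (-y) (by linarith) h2
      rw [show Real.pi * (-y) = -(Real.pi * y) by ring, Real.sin_neg] at this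
      exact this.trans (neg_le_abs _)
  linarith

/-- A smooth substitute of `min X (1/(2y))` (up to a factor 2). -/
noncomputable def bd (X y : ℝ) : ℝ := 2 * X / (1 + 2 * X * y)

lemma bd_nonneg {X y : ℝ} (hX : 0 ≤ X) (hy : 0 ≤ y) : 0 ≤ bd X y := by
  unfold bd; positivity

lemma bd_le_two_mul {X y : ℝ} (hX : 0 ≤ X) (hy : 0 ≤ y) : bd X y ≤ 2 * X := by
  unfold bd
  apply div_le_self (by positivity)
  nlinarith [mul_nonneg hX hy]

lemma bd_le_inv {X y : ℝ} (hX : 0 ≤ X) (hy : 0 < y) : bd X y ≤ 1 / y := by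
  unfold bd
  rw [div_le_div_iff₀ (by positivity) hy]
  nlinarith [mul_nonneg hX hy.le]

lemma bd_anti {X y y' : ℝ} (hX : 0 ≤ X) (hy : 0 ≤ y) (h : y ≤ y') : bd X y' ≤ bd X y := by
  unfold bd
  apply div_le_div_of_nonneg_left (by positivity) (by positivity)
  nlinarith

lemma bd_mono {X X' y : ℝ} (hX : 0 ≤ X) (hy : 0 ≤ y) (h : X ≤ X') : bd X y ≤ bd X' y := by
  unfold bd
  rw [div_le_div_iff₀ (by positivity) (by nlinarith [mul_nonneg (hX.trans h) hy])]
  nlinarith

lemma min_le_bd {X y : ℝ} {z : ℝ} (hX : 0 ≤ X) (hy : 0 ≤ y) (h1 : z ≤ X) (h2 : 2 * y * z ≤ 1) :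
    z ≤ bd X y := by
  unfold bd
  rw [le_div_iff₀ (by positivity)]
  nlinarith [mul_nonneg hX hy]

lemma sum_e_geom (x : ℝ) (a b : ℕ) (hab : a ≤ b) :
    (1 - e x) * ∑ n ∈ Ico a b, e (x * n) = e (x * a) - e (x * b) := by
  induction b, hab using Nat.le_induction with
  | base => simp
  | succ b hb ih =>
    rw [sum_Ico_succ_top hb, mul_add, ih]
    rw [show x * ((b + 1 : ℕ) : ℝ) = x + x * b by push_cast; ring, e_add]
    ring

/-- Geometric sums. -/
lemma norm_sum_e_le (x : ℝ) (a b : ℕ) {X : ℝ} (hX : ((b - a : ℕ) : ℝ) ≤ X) :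
    ‖∑ n ∈ Ico a b, e (x * n)‖ ≤ bd X (dist1 x) := by
  have hX0 : 0 ≤ X := le_trans (Nat.cast_nonneg _) hX
  rcases le_total b a with hba | hab
  · rw [Ico_eq_empty (by omega), sum_empty, norm_zero]
    exact bd_nonneg hX0 (dist1_nonneg _)
  apply min_le_bd hX0 (dist1_nonneg _)
  · refine (norm_sum_le _ _).trans ?_
    simp only [norm_e, sum_const, Nat.card_Ico, nsmul_eq_mul, mul_one]
    exact hX
  · have h := congrArg norm (sum_e_geom x a b hab)
    rw [norm_mul] at h
    have h2 : ‖e (x * a) - e (x * b)‖ ≤ 2 := by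
      refine (norm_sub_le _ _).trans ?_
      rw [norm_e, norm_e]; norm_num
    have h3 := four_mul_dist1_le x
    have h4 := norm_nonneg (∑ n ∈ Ico a b, e (x * n))
    nlinarith [mul_le_mul_of_nonneg_right h3 h4]

lemma Ioc_eq_Ico (a b : ℕ) : Ioc a b = Ico (a+1) (b+1) := by
  ext n; simp only [mem_Ioc, mem_Ico]; omega

lemma norm_sum_e_le' (x : ℝ) (a b : ℕ) {X : ℝ} (hX : ((b - a : ℕ) : ℝ) ≤ X) :
    ‖∑ n ∈ Ioc a b, e (x * n)‖ ≤ bd X (dist1 x) := by
  rw [Ioc_eq_Ico]
  exact norm_sum_e_le x _ _ (by simpa using hX)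

/-- Summation by parts bound. -/
lemma norm_sum_mul_le (f z : ℕ → ℂ) (M : ℕ) (B : ℝ)
    (hB : ∀ k ≤ M, ‖∑ m ∈ Ioc 0 k, z m‖ ≤ B) :
    ‖∑ m ∈ Ioc 0 M, f m * z m‖ ≤ B * (‖f M‖ + ∑ m ∈ Ioo 0 M, ‖f (m+1) - f m‖) := by
  have key : ∀ k : ℕ, k ≤ M → ∑ m ∈ Ioc 0 k, f m * z m
      = f k * (∑ m ∈ Ioc 0 k, z m) - ∑ m ∈ Ioo 0 k, (f (m+1) - f m) * ∑ j ∈ Ioc 0 m, z j := by
    intro k
    induction k with
    | zero => intro _; simp
    | succ k ih =>
      intro hk
      have ih' := ih (by omega)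
      rw [← Finset.insert_Ioc_right_eq_Ioc_add_one (by omega), sum_insert (by simp), ih']
      rw [sum_insert (by simp)]
      rcases Nat.eq_zero_or_pos k with h0 | h0
      · subst h0
        have h1 : Ioo 0 1 = (∅ : Finset ℕ) := by decide
        simp [h1]
      · have h1 : Ioo 0 (k+1) = insert k (Ioo 0 k) := by
          ext n; simp only [mem_Ioo, mem_insert]; omega
        rw [h1, sum_insert (by simp)]
        ring
  rw [key M le_rfl]
  refine (norm_sub_le _ _).trans ?_
  rw [norm_mul, mul_add]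
  apply add_le_add
  · rw [mul_comm]
    exact mul_le_mul_of_nonneg_right (hB M le_rfl) (norm_nonneg _)
  · refine (norm_sum_le _ _).trans ?_
    rw [mul_sum]
    refine sum_le_sum fun m hm => ?_
    rw [norm_mul, mul_comm]
    exact mul_le_mul_of_nonneg_right (hB m (mem_Ioo.1 hm).2.le) (norm_nonneg _)

end Pool.Agent.PrimeFourier
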