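import Pool.Agent.Common_PrimeFourier.Exp
import Pool.Agent.Common_PNT.PNT

set_option autoImplicit false

/-!
Major arcs: consequences of the prime number theorem in arithmetic progressions.
-/

open Finset ArithmeticFunction Filter Topology
open ArithmeticFunction.vonMangoldt (residueClass residueClass_nonneg residueClass_le)

namespace Pool.Agent.PrimeFourier

lemma tendsto_class_unit {m : ℕ} [NeZero m] {r : ZMod m} (hr : IsUnit r) :
    Tendsto (fun t : ℕ => (∑ n ∈ Ioc 0 t, residueClass r n) / (t:ℝ)) atTop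
      (𝓝 ((Nat.totient m : ℝ)⁻¹)) := by
  have h := (Pool.Agent.Common_PNT.tendsto_psi_residueClass hr).comp tendsto_natCast_atTop_atTop
  refine h.congr fun t => ?_
  simp only [Function.comp, Nat.floor_natCast]
  congr 1

lemma residueClass_le_Lambda {m : ℕ} (r : ZMod m) (n : ℕ) : residueClass r n ≤ Λ n := residueClass_le r n

lemma sum_residueClass {m : ℕ} [NeZero m] (n : ℕ) : ∑ r : ZMod m, residueClass r n = Λ n := by
  have : ∀ r : ZMod m, residueClass r n = if r = (n : ZMod m) then Λ n else 0 := by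
    intro r
    unfold residueClass
    rw [Set.indicator_apply]
    by_cases h : (n : ZMod m) = r
    · rw [if_pos (by exact h), if_pos h.symm]
    · rw [if_neg (by exact h), if_neg (fun h' => h h'.symm)]
  rw [sum_congr rfl (fun r _ => this r)]
  simp

lemma card_units_filter (m : ℕ) [NeZero m] :
    ((univ : Finset (ZMod m)).filter IsUnit).card = Nat.totient m := by
  classical
  rw [← ZMod.card_units_eq_totient m]
  have h1 : (univ : Finset (ZMod m)).filter IsUnit
      = (univ : Finset (ZMod m)ˣ).image (fun u : (ZMod m)ˣ => (u : ZMod m)) := by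
    ext r
    simp only [mem_filter, mem_univ, true_and, mem_image]
    rfl
  rw [h1, card_image_of_injective _ Units.val_injective]
  rfl

lemma tendsto_class_nonunit {m : ℕ} [NeZero m] {r : ZMod m} (hr : ¬ IsUnit r) :
    Tendsto (fun t : ℕ => (∑ n ∈ Ioc 0 t, residueClass r n) / (t:ℝ)) atTop (𝓝 0) := by
  classical
  have htot : Tendsto (fun t : ℕ => (∑ n ∈ Ioc 0 t, Λ n) / (t:ℝ)) atTop (𝓝 1) := by
    have h := Pool.Agent.Common_PNT.tendsto_psi_div.comp tendsto_natCast_atTop_atTop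
    refine h.congr fun t => ?_
    simp only [Function.comp, Chebyshev.psi, Nat.floor_natCast]
  have hunits : Tendsto (fun t : ℕ => ∑ s ∈ (univ : Finset (ZMod m)).filter IsUnit,
      (∑ n ∈ Ioc 0 t, residueClass s n) / (t:ℝ)) atTop (𝓝 1) := by
    have h1 : (1:ℝ) = ∑ s ∈ (univ : Finset (ZMod m)).filter IsUnit, ((Nat.totient m : ℝ)⁻¹) := by
      rw [sum_const, card_units_filter, nsmul_eq_mul]
      have : (Nat.totient m : ℝ) ≠ 0 := by
        exact_mod_cast (Nat.totient_pos.2 (NeZero.pos m)).ne'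
      field_simp
    conv => rhs; rw [h1]
    exact tendsto_finsetSum _ fun s hs => tendsto_class_unit (mem_filter.1 hs).2
  have hdiff := htot.sub hunits
  rw [sub_self] at hdiff
  refine squeeze_zero (fun t => ?_) (fun t => ?_) hdiff
  · exact div_nonneg (sum_nonneg fun n _ => residueClass_nonneg r n) (Nat.cast_nonneg t)
  · rw [← sum_div, ← sub_div]
    apply div_le_div_of_nonneg_right _ (Nat.cast_nonneg t)
    rw [sum_comm, ← sum_sub_distrib]
    refine sum_le_sum fun n _ => ?_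
    have h1 := sum_residueClass (m := m) n
    rw [← sum_filter_add_sum_filter_not univ IsUnit] at h1
    have h2 : residueClass r n ≤ ∑ s ∈ (univ : Finset (ZMod m)).filter (fun s => ¬ IsUnit s), residueClass s n := by
      apply single_le_sum (f := fun s => residueClass s n) (fun s _ => residueClass_nonneg s n)
      simp [hr]
    linarith

/-- weighted form of PNT in progressions -/
lemma tendsto_weighted {m : ℕ} [NeZero m] (c : ZMod m → ℂ) :
    Tendsto (fun t : ℕ => (∑ n ∈ Ioc 0 t, ((Λ n : ℝ) : ℂ) * c n) / (t:ℂ)) atTop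
      (𝓝 ((Nat.totient m : ℂ)⁻¹ * ∑ r ∈ (univ : Finset (ZMod m)).filter IsUnit, c r)) := by
  classical
  have h1 : ∀ t : ℕ, (∑ n ∈ Ioc 0 t, ((Λ n : ℝ) : ℂ) * c n) / (t:ℂ)
      = ∑ r : ZMod m, c r * (((∑ n ∈ Ioc 0 t, residueClass r n) / (t:ℝ) : ℝ) : ℂ) := by
    intro t
    have h2 : ∀ n ∈ Ioc 0 t, ((Λ n : ℝ) : ℂ) * c n = ∑ r : ZMod m, c r * ((residueClass r n : ℝ) : ℂ) := by
      intro n _
      have : ∀ r : ZMod m, c r * ((residueClass r n : ℝ) : ℂ)
          = if r = (n : ZMod m) then ((Λ n : ℝ) : ℂ) * c n else 0 := by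
        intro r
        unfold residueClass
        rw [Set.indicator_apply]
        by_cases h : (n : ZMod m) = r
        · rw [if_pos (by exact h), if_pos h.symm, h, mul_comm]
        · rw [if_neg (by exact h), if_neg (fun h' => h h'.symm)]
          simp
      rw [sum_congr rfl (fun r _ => this r)]
      simp
    rw [sum_congr rfl h2, sum_comm, sum_div]
    refine sum_congr rfl fun r _ => ?_
    push_cast
    rw [← mul_sum]
    ring
  have h3 : ((Nat.totient m : ℂ)⁻¹ * ∑ r ∈ (univ : Finset (ZMod m)).filter IsUnit, c r)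
      = ∑ r : ZMod m, c r * (((if IsUnit r then (Nat.totient m : ℝ)⁻¹ else 0 : ℝ)) : ℂ) := by
    rw [mul_sum, sum_filter]
    refine sum_congr rfl fun r _ => ?_
    split_ifs
    · push_cast; ring
    · simp
  rw [h3]
  refine Tendsto.congr (fun t => (h1 t).symm) ?_
  refine tendsto_finsetSum _ fun r _ => ?_
  apply Tendsto.const_mul
  apply (Complex.continuous_ofReal.tendsto _).comp
  by_cases hr : IsUnit r
  · rw [if_pos hr]; exact tendsto_class_unit hr
  · rw [if_neg hr]; exact tendsto_class_nonunit hr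

/-- bounded partial sums for a mean zero periodic function -/
lemma periodic_sum_bound {m : ℕ} [NeZero m] (f : ZMod m → ℂ) (hf : ∑ r, f r = 0) :
    ∃ B : ℝ, ∀ t : ℕ, ‖∑ n ∈ Ioc 0 t, f (n : ZMod m)‖ ≤ B := by
  have hm : 0 < m := NeZero.pos m
  have hshift : ∀ t : ℕ, ∑ n ∈ Ioc 0 (t + m), f (n : ZMod m) = ∑ n ∈ Ioc 0 t, f (n : ZMod m) := by
    intro t
    rw [← sum_Ioc_consecutive _ (Nat.zero_le t) (Nat.le_add_right t m)]
    have h1 : ∑ n ∈ Ioc t (t + m), f (n : ZMod m) = 0 := by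
      rw [← hf]
      symm
      refine sum_bij' (fun (r : ZMod m) _ => t + 1 + (r - ((t + 1 : ℕ) : ZMod m)).val)
        (fun n _ => (n : ZMod m)) ?_ ?_ ?_ ?_ ?_
      · intro r _
        have := ZMod.val_lt (r - ((t + 1 : ℕ) : ZMod m))
        rw [mem_Ioc]; omega
      · intro n _; exact mem_univ _
      · intro r _
        push_cast
        rw [ZMod.natCast_zmod_val]
        push_cast
        ring
      · intro n hn
        obtain ⟨h2, h3⟩ := mem_Ioc.1 hn
        have h4 : ((n : ZMod m) - ((t + 1 : ℕ) : ZMod m)) = ((n - (t + 1) : ℕ) : ZMod m) := by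
          rw [Nat.cast_sub (by omega)]
        show t + 1 + ((n : ZMod m) - ((t + 1 : ℕ) : ZMod m)).val = n
        rw [h4, ZMod.val_natCast, Nat.mod_eq_of_lt (by omega)]
        omega
      · intro r _
        congr 1
        push_cast
        rw [ZMod.natCast_zmod_val]
        push_cast
        ring
    rw [h1, add_zero]
  have hmod : ∀ k t : ℕ, ∑ n ∈ Ioc 0 (t + k * m), f (n : ZMod m) = ∑ n ∈ Ioc 0 t, f (n : ZMod m) := by
    intro k
    induction k with
    | zero => intro t; simp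
    | succ k ih =>
      intro t
      rw [show t + (k + 1) * m = (t + k * m) + m by ring, hshift, ih]
  refine ⟨∑ s ∈ range m, ‖∑ n ∈ Ioc 0 s, f (n : ZMod m)‖, fun t => ?_⟩
  have h1 : t = t % m + (t / m) * m := by rw [mul_comm]; exact (Nat.mod_add_div t m).symm
  rw [h1, hmod]
  apply single_le_sum (f := fun s : ℕ => ‖∑ n ∈ Ioc 0 s, f ((n : ℕ) : ZMod m)‖)
    (fun _ _ => norm_nonneg _)
  rw [mem_range]
  exact Nat.mod_lt t hm

/-- mean of a periodic function -/
lemma tendsto_periodic {m : ℕ} [NeZero m] (f : ZMod m → ℂ) :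
    Tendsto (fun t : ℕ => (∑ n ∈ Ioc 0 t, f (n : ZMod m)) / (t:ℂ)) atTop
      (𝓝 ((m:ℂ)⁻¹ * ∑ r, f r)) := by
  have hm : (m:ℂ) ≠ 0 := by exact_mod_cast (NeZero.ne m)
  obtain ⟨μ, hμ⟩ : ∃ μ, μ = (m:ℂ)⁻¹ * ∑ r, f r := ⟨_, rfl⟩
  rw [← hμ]
  obtain ⟨B, hB⟩ := periodic_sum_bound (fun r => f r - μ) (by
    rw [sum_sub_distrib, sum_const, card_univ, ZMod.card, nsmul_eq_mul, hμ]
    field_simp
    ring)
  rw [tendsto_iff_norm_sub_tendsto_zero]
  have hlim : Tendsto (fun t : ℕ => B / (t:ℝ)) atTop (𝓝 0) :=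
    tendsto_const_nhds.div_atTop tendsto_natCast_atTop_atTop
  refine squeeze_zero' (Eventually.of_forall fun t => norm_nonneg _) ?_ hlim
  filter_upwards [eventually_gt_atTop 0] with t ht
  have ht' : (t:ℂ) ≠ 0 := by exact_mod_cast ht.ne'
  have h1 : (∑ n ∈ Ioc 0 t, f (n : ZMod m)) / (t:ℂ) - μ
      = (∑ n ∈ Ioc 0 t, (f (n : ZMod m) - μ)) / (t:ℂ) := by
    rw [sum_sub_distrib, sum_const, Nat.card_Ioc, nsmul_eq_mul, Nat.sub_zero]
    field_simp
  rw [h1, norm_div, Complex.norm_natCast]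
  exact div_le_div_of_nonneg_right (hB t) (Nat.cast_nonneg t)

/-- partial summation with a slowly varying phase -/
lemma phase_sum {z : ℕ → ℂ} (hz : Tendsto (fun t : ℕ => (∑ n ∈ Ioc 0 t, z n) / (t:ℂ)) atTop (𝓝 0))
    {ε K : ℝ} (hε : 0 < ε) (hK : 0 < K) :
    ∀ᶠ N : ℕ in atTop, ∀ β : ℝ, |β| * N ≤ K →
      ‖∑ n ∈ Ioc 0 N, z n * e (β * n)‖ ≤ ε * N := by
  obtain ⟨η, hη⟩ : ∃ η, η = ε / (2 * (1 + 7 * K)) := ⟨_, rfl⟩
  have hη0 : 0 < η := by rw [hη]; positivity
  have h1 : ∃ B : ℝ, 0 ≤ B ∧ ∀ t : ℕ, ‖∑ n ∈ Ioc 0 t, z n‖ ≤ η * t + B := by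
    have h2 := (tendsto_iff_norm_sub_tendsto_zero.1 hz).eventually (gt_mem_nhds hη0)
    obtain ⟨T, hT⟩ := h2.exists_forall_of_atTop
    refine ⟨∑ s ∈ range (T + 1), ‖∑ n ∈ Ioc 0 s, z n‖, sum_nonneg fun _ _ => norm_nonneg _, fun t => ?_⟩
    rcases le_or_gt t T with h | h
    · have h3 : ‖∑ n ∈ Ioc 0 t, z n‖ ≤ ∑ s ∈ range (T + 1), ‖∑ n ∈ Ioc 0 s, z n‖ := by
        apply single_le_sum (f := fun s => ‖∑ n ∈ Ioc 0 s, z n‖) (fun _ _ => norm_nonneg _)
        rw [mem_range]; omega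
      have : 0 ≤ η * t := by positivity
      linarith
    · have h3 := hT t h.le
      rw [sub_zero, norm_div, Complex.norm_natCast] at h3
      have ht : (0:ℝ) < t := by
        have : 0 < t := by omega
        exact_mod_cast this
      rw [div_lt_iff₀ ht] at h3
      have : 0 ≤ ∑ s ∈ range (T + 1), ‖∑ n ∈ Ioc 0 s, z n‖ := sum_nonneg fun _ _ => norm_nonneg _
      linarith
  obtain ⟨B, hB0, hB⟩ := h1
  filter_upwards [eventually_ge_atTop ⌈B / η⌉₊] with N hN β hβ
  have hBN : B ≤ η * N := by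
    have h3 : B / η ≤ N := le_trans (Nat.le_ceil _) (by exact_mod_cast hN)
    rw [div_le_iff₀ hη0] at h3
    linarith
  have h3 := norm_sum_mul_le (fun n => e (β * n)) z N (2 * (η * N)) (fun k hk => by
    have h4 := hB k
    have h5 : (k:ℝ) ≤ N := by exact_mod_cast hk
    have h6 : η * k ≤ η * N := mul_le_mul_of_nonneg_left h5 hη0.le
    linarith)
  have h4 : ∑ n ∈ Ioc 0 N, z n * e (β * n) = ∑ n ∈ Ioc 0 N, e (β * n) * z n :=
    sum_congr rfl fun _ _ => mul_comm _ _
  rw [h4]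
  refine h3.trans ?_
  have h5 : ∀ n ∈ Ioo 0 N, ‖e (β * ((n + 1 : ℕ) : ℝ)) - e (β * n)‖ ≤ 2 * Real.pi * |β| := by
    intro n _
    refine (norm_e_sub_e_le _ _).trans (le_of_eq ?_)
    have : β * ((n + 1 : ℕ) : ℝ) - β * n = β := by push_cast; ring
    rw [this]
  have h6 : ∑ n ∈ Ioo 0 N, ‖e (β * ((n + 1 : ℕ) : ℝ)) - e (β * n)‖ ≤ 7 * K := by
    refine (sum_le_card_nsmul _ _ _ h5).trans ?_
    rw [nsmul_eq_mul]
    have h7 : ((Ioo 0 N).card : ℝ) ≤ N := by
      have : (Ioo 0 N).card ≤ N := by simp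
      exact_mod_cast this
    have h8 : 2 * Real.pi ≤ 7 := by linarith [Real.pi_lt_d2]
    calc ((Ioo 0 N).card : ℝ) * (2 * Real.pi * |β|) ≤ N * (2 * Real.pi * |β|) :=
          mul_le_mul_of_nonneg_right h7 (by positivity)
      _ = 2 * Real.pi * (|β| * N) := by ring
      _ ≤ 7 * K := mul_le_mul h8 hβ (by positivity) (by norm_num)
  rw [norm_e]
  calc 2 * (η * N) * (1 + ∑ n ∈ Ioo 0 N, ‖e (β * ((n + 1 : ℕ) : ℝ)) - e (β * n)‖)
      ≤ 2 * (η * N) * (1 + 7 * K) := by
        apply mul_le_mul_of_nonneg_left _ (by positivity)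
        linarith
    _ = ε * N := by rw [hη]; field_simp

/-- Ramanujan sums of non-squarefree modulus vanish at units. -/
lemma sum_units_eq_zero {q : ℕ} [NeZero q] (hq : ¬ Squarefree q) {a : ZMod q} (ha : IsUnit a) :
    ∑ r ∈ (univ : Finset (ZMod q)).filter IsUnit, ZMod.stdAddChar (a * r) = 0 := by
  classical
  unfold Squarefree at hq
  simp only [not_forall] at hq
  obtain ⟨x, ⟨m', hm'⟩, hx⟩ := hq
  have hq0 : 0 < q := NeZero.pos q
  have hx2 : 2 ≤ x := by
    rcases Nat.lt_or_ge x 2 with h | h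
    · interval_cases x
      · simp at hm'; omega
      · exact absurd isUnit_one hx
    · exact h
  have hm'0 : 0 < m' := Nat.pos_of_ne_zero (by rintro rfl; simp at hm'; omega)
  obtain ⟨s, hs⟩ : ∃ s : ZMod q, s = ((x * m' : ℕ) : ZMod q) := ⟨_, rfl⟩
  have hss : s * s = 0 := by
    rw [hs, ← Nat.cast_mul]
    rw [ZMod.natCast_eq_zero_iff]
    refine ⟨m', ?_⟩
    calc x * m' * (x * m') = (x * x * m') * m' := by ring
      _ = q * m' := by rw [← hm']
  have hnil : IsNilpotent s := ⟨2, by rw [pow_two, hss]⟩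
  have hs0 : s ≠ 0 := by
    rw [hs]
    intro h
    rw [ZMod.natCast_eq_zero_iff] at h
    have h1 := Nat.le_of_dvd (Nat.mul_pos (by omega) hm'0) h
    have h2 : q = x * (x * m') := by rw [hm']; ring
    have h3 : 0 < x * m' := Nat.mul_pos (by omega) hm'0
    nlinarith
  obtain ⟨S, hS⟩ : ∃ S, S = ∑ r ∈ (univ : Finset (ZMod q)).filter IsUnit, (ZMod.stdAddChar (a * r) : ℂ) := ⟨_, rfl⟩
  rw [← hS]
  have hshift : S = ZMod.stdAddChar (a * s) * S := by
    conv_lhs => rw [hS]
    rw [hS, mul_sum]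
    refine sum_bij' (fun r _ => r - s) (fun r _ => r + s) ?_ ?_ ?_ ?_ ?_
    · intro r hr
      rw [mem_filter] at hr ⊢
      refine ⟨mem_univ _, ?_⟩
      rw [sub_eq_add_neg]
      exact hnil.neg.isUnit_add_left_of_commute hr.2 (Commute.all _ _)
    · intro r hr
      rw [mem_filter] at hr ⊢
      exact ⟨mem_univ _, hnil.isUnit_add_left_of_commute hr.2 (Commute.all _ _)⟩
    · intro r _; ring
    · intro r _; ring
    · intro r _
      rw [← AddChar.map_add_eq_mul]
      congr 1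
      ring
  have hne : (ZMod.stdAddChar (a * s) : ℂ) ≠ 1 := by
    intro h
    rw [← AddChar.map_zero_eq_one (ZMod.stdAddChar (N := q))] at h
    have h2 := ZMod.injective_stdAddChar h
    exact hs0 ((ha.mul_right_eq_zero).1 h2)
  have h3 : (ZMod.stdAddChar (a * s) - 1) * S = 0 := by
    rw [sub_mul, one_mul, ← hshift, sub_self]
  rcases mul_eq_zero.1 h3 with h | h
  · exact absurd (sub_eq_zero.1 h) hne
  · exact h

lemma stdAddChar_eq_e {q : ℕ} [NeZero q] (b : ℤ) (n : ℕ) :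
    (ZMod.stdAddChar ((b : ZMod q) * (n : ZMod q)) : ℂ) = e ((b:ℝ) / q * n) := by
  have h1 : (b : ZMod q) * (n : ZMod q) = ((b * n : ℤ) : ZMod q) := by push_cast; rfl
  rw [h1, ZMod.stdAddChar_coe, e]
  congr 1
  push_cast
  ring

end Pool.Agent.PrimeFourier
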