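import Pool.Agent.Common_PrimeFourier.CaseII
import Pool.Agent.Common_PrimeFourier.MajorArcs

set_option autoImplicit false

/-!
The Fourier bound: `Λ` minus its model has small Fourier transform, uniformly in the frequency.
-/

open Finset ArithmeticFunction Filter Topology

namespace Pool.Agent.PrimeFourier

/-- exponential sums with periodic coefficients -/
lemma periodic_exp_sum {f : ℕ → ℂ} {W : ℕ} (hf : ∀ n, f (n + W) = f n) {F : ℝ}
    (hF : ∀ n, ‖f n‖ ≤ F) (α : ℝ) (N : ℕ) :
    4 * dist1 (α * W) * ‖∑ n ∈ Ioc 0 N, f n * e (α * n)‖ ≤ 2 * W * F := by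
  have h1 : (1 - e (α * W)) * ∑ n ∈ Ioc 0 N, f n * e (α * n)
      = ∑ n ∈ Ioc 0 W, f n * e (α * n) - ∑ n ∈ Ioc N (N + W), f n * e (α * n) := by
    have h2 : e (α * W) * ∑ n ∈ Ioc 0 N, f n * e (α * n) = ∑ n ∈ Ioc W (N + W), f n * e (α * n) := by
      rw [mul_sum]
      refine sum_bij' (fun n _ => n + W) (fun n _ => n - W) ?_ ?_ ?_ ?_ ?_
      · intro n hn; rw [mem_Ioc] at hn ⊢; omega
      · intro n hn; rw [mem_Ioc] at hn ⊢; omega
      · intro n _; simp
      · intro n hn; rw [mem_Ioc] at hn; omega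
      · intro n _
        rw [hf]
        have : e (α * ((n + W : ℕ) : ℝ)) = e (α * W) * e (α * n) := by
          rw [← e_add]; congr 1; push_cast; ring
        rw [this]
        ring
    rw [sub_mul, one_mul, h2]
    have h3 := sum_Ioc_consecutive (fun n => f n * e (α * n)) (Nat.zero_le N) (Nat.le_add_right N W)
    have h4 := sum_Ioc_consecutive (fun n => f n * e (α * n)) (Nat.zero_le W) (Nat.le_add_left W N)
    rw [← h4] at h3
    linear_combination h3
  have h2 : ‖(1 - e (α * W)) * ∑ n ∈ Ioc 0 N, f n * e (α * n)‖ ≤ 2 * W * F := by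
    rw [h1]
    have h3 : ∀ a b : ℕ, b - a = W → ‖∑ n ∈ Ioc a b, f n * e (α * n)‖ ≤ W * F := by
      intro a b hab
      have : ∀ n ∈ Ioc a b, ‖f n * e (α * n)‖ ≤ F := by
        intro n _
        rw [norm_mul, norm_e, mul_one]
        exact hF n
      refine (norm_sum_le_of_le _ this).trans ?_
      rw [sum_const, Nat.card_Ioc, nsmul_eq_mul, hab]
    refine (norm_sub_le _ _).trans ?_
    have h4 := h3 0 W (by omega)
    have h5 := h3 N (N + W) (by omega)
    linarith
  rw [norm_mul] at h2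
  have h3 := four_mul_dist1_le (α * W)
  exact (mul_le_mul_of_nonneg_right h3 (norm_nonneg _)).trans h2

/-- the local model -/
noncomputable def model (W n : ℕ) : ℝ := if Nat.Coprime n W then (W:ℝ) / Nat.totient W else 0

lemma model_periodic (W n : ℕ) : model W (n + W) = model W n := by
  unfold model
  have : Nat.Coprime (n + W) W ↔ Nat.Coprime n W := by simp
  simp only [this]

lemma norm_model_le {W : ℕ} (hW : 0 < W) (n : ℕ) : |model W n| ≤ W := by
  have hφ : (1:ℝ) ≤ Nat.totient W := by exact_mod_cast Nat.totient_pos.2 hW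
  unfold model
  split_ifs
  · rw [abs_of_nonneg (by positivity)]
    exact div_le_self (by positivity) hφ
  · rw [abs_zero]; positivity

lemma model_eq {W : ℕ} [NeZero W] (n : ℕ) :
    ((model W n : ℝ) : ℂ) = (fun r : ZMod W => if IsUnit r then (W:ℂ) / Nat.totient W else 0) (n : ZMod W) := by
  unfold model
  have : IsUnit (n : ZMod W) ↔ Nat.Coprime n W := ZMod.isUnit_iff_coprime n W
  simp only [this]
  split_ifs
  · push_cast; rfl
  · simp

/-- PNT minus model, frequencies `b / W`. -/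
lemma tendsto_model {W : ℕ} [NeZero W] (b : ZMod W) :
    Tendsto (fun t : ℕ => (∑ n ∈ Ioc 0 t, (((Λ n - model W n : ℝ) : ℂ) * ZMod.stdAddChar (b * (n : ZMod W)))) / (t:ℂ))
      atTop (𝓝 0) := by
  have h1 := tendsto_weighted (m := W) (fun r => ZMod.stdAddChar (b * r))
  have h2 := tendsto_periodic (m := W)
    (fun r : ZMod W => (if IsUnit r then (W:ℂ) / Nat.totient W else 0) * ZMod.stdAddChar (b * r))
  have h3 := h1.sub h2
  have h4 : (Nat.totient W : ℂ)⁻¹ * ∑ r ∈ (univ : Finset (ZMod W)).filter IsUnit, ZMod.stdAddChar (b * r)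
      - (W:ℂ)⁻¹ * ∑ r : ZMod W, (if IsUnit r then (W:ℂ) / Nat.totient W else 0) * ZMod.stdAddChar (b * r) = 0 := by
    rw [sub_eq_zero, mul_sum, mul_sum, sum_filter]
    refine sum_congr rfl fun r _ => ?_
    have hW : (W:ℂ) ≠ 0 := by exact_mod_cast NeZero.ne W
    split_ifs
    · field_simp
    · simp
  rw [h4] at h3
  refine h3.congr fun t => ?_
  rw [← sub_div, ← sum_sub_distrib]
  congr 1
  refine sum_congr rfl fun n _ => ?_
  have := model_eq (W := W) n
  simp only at this
  push_cast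
  rw [this]
  ring

/-- PNT for non-squarefree moduli. -/
lemma tendsto_nonsquarefree {q : ℕ} [NeZero q] (hq : ¬ Squarefree q) {a : ZMod q} (ha : IsUnit a) :
    Tendsto (fun t : ℕ => (∑ n ∈ Ioc 0 t, ((Λ n : ℝ) : ℂ) * ZMod.stdAddChar (a * (n : ZMod q))) / (t:ℂ))
      atTop (𝓝 0) := by
  have h1 := tendsto_weighted (m := q) (fun r => ZMod.stdAddChar (a * r))
  rw [sum_units_eq_zero hq ha, mul_zero] at h1
  exact h1

lemma dvd_primorial_of_squarefree {q w : ℕ} (hq : Squarefree q) (hqw : q ≤ w) : q ∣ primorial w := by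
  rw [← Nat.prod_primeFactors_of_squarefree hq, primorial]
  apply prod_dvd_prod_of_subset
  intro p hp
  rw [mem_filter, mem_range]
  have h1 := Nat.prime_of_mem_primeFactors hp
  have h2 := Nat.le_of_mem_primeFactors hp
  exact ⟨by omega, h1⟩

theorem fourier_bound_aux {ε : ℝ} (hε : 0 < ε) : ∃ w0 : ℕ, ∀ w ≥ w0, ∀ᶠ N : ℕ in atTop, ∀ α : ℝ,
    ‖∑ n ∈ Ioc 0 N, ((Λ n - model (primorial w) n : ℝ) : ℂ) * e (α * n)‖ ≤ ε * N := by
  obtain ⟨K1, hK10, hcase⟩ := caseII (by positivity : 0 < ε / 2)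
  refine ⟨⌈K1⌉₊, fun w hw => ?_⟩
  have hwK : K1 ≤ w := le_trans (Nat.le_ceil _) (by exact_mod_cast hw)
  obtain ⟨W, hWdef⟩ : ∃ W, W = primorial w := ⟨_, rfl⟩
  rw [← hWdef]
  have hW0 : 0 < W := by rw [hWdef]; exact primorial_pos w
  have : NeZero W := ⟨hW0.ne'⟩
  have hW' : (0:ℝ) < W := by exact_mod_cast hW0
  have hW1 : (1:ℝ) ≤ W := by exact_mod_cast hW0
  obtain ⟨K, hK⟩ : ∃ K : ℝ, K = K1 + W / ε := ⟨_, rfl⟩
  have hK0 : 0 < K := by rw [hK]; positivity
  have hKK1 : K1 ≤ K := by rw [hK]; have : 0 < W / ε := by positivity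
                           linarith
  -- (ii)
  have hii : ∀ᶠ N : ℕ in atTop, ∀ b : ZMod W, ∀ β : ℝ, |β| * N ≤ K →
      ‖∑ n ∈ Ioc 0 N, (((Λ n - model W n : ℝ) : ℂ) * ZMod.stdAddChar (b * (n : ZMod W))) * e (β * n)‖ ≤ ε * N := by
    rw [eventually_all]
    intro b
    exact phase_sum (tendsto_model b) hε hK0
  -- (iii)
  have hiii : ∀ᶠ N : ℕ in atTop, ∀ q ∈ range (⌊K1⌋₊ + 1), ∀ hq : 0 < q, ¬ Squarefree q →
      ∀ a : ℤ, IsCoprime a (q:ℤ) → ∀ β : ℝ, |β| * N ≤ K1 →
      ‖∑ n ∈ Ioc 0 N, (((Λ n : ℝ) : ℂ) * e ((a:ℝ) / q * n)) * e (β * n)‖ ≤ (ε / 2) * N := by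
    rw [eventually_all_finset]
    intro q _
    by_cases hq : 0 < q
    · by_cases hsf : Squarefree q
      · exact Eventually.of_forall fun N _ h => absurd hsf h
      · have : NeZero q := ⟨hq.ne'⟩
        have h1 : ∀ᶠ N : ℕ in atTop, ∀ a : ZMod q, IsUnit a → ∀ β : ℝ, |β| * N ≤ K1 →
            ‖∑ n ∈ Ioc 0 N, (((Λ n : ℝ) : ℂ) * ZMod.stdAddChar (a * (n : ZMod q))) * e (β * n)‖ ≤ (ε / 2) * N := by
          rw [eventually_all]
          intro a
          by_cases ha : IsUnit a
          · filter_upwards [phase_sum (tendsto_nonsquarefree hsf ha) (by positivity : 0 < ε / 2) hK10] with N hN _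
            exact hN
          · exact Eventually.of_forall fun N h => absurd h ha
        filter_upwards [h1] with N hN _ _ a ha β hβ
        have h2 : IsUnit (a : ZMod q) := by
          have h3 : IsCoprime (a : ZMod q) ((q:ℤ) : ZMod q) := by
            have := ha.map (Int.castRingHom (ZMod q))
            simpa using this
          have h4 : ((q:ℤ) : ZMod q) = 0 := by simp
          rw [h4, isCoprime_zero_right] at h3
          exact h3
        have h3 := hN (a : ZMod q) h2 β hβ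
        have h4 : ∀ n ∈ Ioc 0 N, (((Λ n : ℝ) : ℂ) * ZMod.stdAddChar ((a : ZMod q) * (n : ZMod q))) * e (β * n)
            = (((Λ n : ℝ) : ℂ) * e ((a:ℝ) / q * n)) * e (β * n) := by
          intro n _
          rw [stdAddChar_eq_e]
        rw [sum_congr rfl h4] at h3
        exact h3
    · exact Eventually.of_forall fun N h => absurd h hq
  -- parameters
  filter_upwards [hcase, hii, hiii, eventually_log_ge 2, eventually_log_ge (2 * W^2 / ε),
    eventually_log_pow_le_nat 8 (by positivity : (0:ℝ) < 1 / (2 * W)), eventually_ge_atTop 1]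
    with N h1 h2 h3 hL2 hLε hL8 hN1 α
  set L := Real.log N with hL
  have hL0 : 0 < L := by linarith
  have hN0 : (0:ℝ) < N := by exact_mod_cast hN1
  have hL8' : 0 < L^8 := by positivity
  have hWL : 2 * W * L^8 ≤ N := by
    have h4 : 2 * W * L^8 ≤ 2 * W * (1 / (2 * W) * N) := mul_le_mul_of_nonneg_left hL8 (by positivity)
    have h5 : 2 * W * (1 / (2 * W) * (N:ℝ)) = N := by field_simp
    linarith
  have hL8N : L^8 ≤ N := by
    have : 1 * L^8 ≤ 2 * W * L^8 := mul_le_mul_of_nonneg_right (by linarith) hL8'.le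
    linarith
  -- Dirichlet
  obtain ⟨n0, hn0⟩ : ∃ n0 : ℕ, n0 = ⌊(N:ℝ) / L^8⌋₊ := ⟨_, rfl⟩
  have hn0pos : 0 < n0 := by
    rw [hn0]
    apply Nat.floor_pos.2
    rw [le_div_iff₀ hL8', one_mul]
    exact hL8N
  have hn0le : (n0:ℝ) ≤ N / L^8 := by rw [hn0]; exact Nat.floor_le (by positivity)
  have hn0lt : (N:ℝ) / L^8 < n0 + 1 := by rw [hn0]; exact Nat.lt_floor_add_one _
  obtain ⟨r, hr1, hr2⟩ := Real.exists_rat_abs_sub_le_and_den_le α hn0pos
  obtain ⟨a, ha⟩ : ∃ a : ℤ, a = r.num := ⟨_, rfl⟩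
  obtain ⟨q, hq⟩ : ∃ q : ℕ, q = r.den := ⟨_, rfl⟩
  have hq0 : 0 < q := by rw [hq]; exact r.den_pos
  have hq' : (0:ℝ) < q := by exact_mod_cast hq0
  have hcop : IsCoprime a (q:ℤ) := by
    rw [ha, hq, Int.isCoprime_iff_gcd_eq_one]
    exact r.reduced
  have hr : (r:ℝ) = a / q := by
    rw [ha, hq]
    exact_mod_cast (Rat.num_div_den r).symm
  obtain ⟨β, hβ⟩ : ∃ β, β = α - a / q := ⟨_, rfl⟩
  have hα : α = a / q + β := by rw [hβ]; ring
  rw [hr, ← hβ, ← hq] at hr1
  rw [← hq] at hr2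
  have hqn0 : (q:ℝ) ≤ n0 := by exact_mod_cast hr2
  have hβq : q * |β| * N ≤ L^8 := by
    rw [le_div_iff₀ (by positivity)] at hr1
    have h4 : (N:ℝ) ≤ (n0 + 1) * L^8 := by
      rw [div_lt_iff₀ hL8'] at hn0lt
      exact hn0lt.le
    calc q * |β| * N ≤ q * |β| * ((n0 + 1) * L^8) := mul_le_mul_of_nonneg_left h4 (by positivity)
      _ = (|β| * ((n0 + 1) * q)) * L^8 := by ring
      _ ≤ 1 * L^8 := mul_le_mul_of_nonneg_right hr1 hL8'.le
      _ = L^8 := one_mul _
  have hqL : q * L^8 ≤ N := by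
    have h4 : (q:ℝ) ≤ N / L^8 := hqn0.trans hn0le
    rwa [le_div_iff₀ hL8'] at h4
  have hT0 : 0 ≤ |β| * N := by positivity
  have hW12 : |β| * W ≤ 1 / (2 * q) := by
    rw [le_div_iff₀ (by positivity)]
    have h4 : (|β| * W * (2 * q)) * N ≤ 1 * N := by
      calc (|β| * W * (2 * q)) * N = 2 * W * (q * |β| * N) := by ring
        _ ≤ 2 * W * L^8 := mul_le_mul_of_nonneg_left hβq (by positivity)
        _ ≤ 1 * N := by linarith
    exact le_of_mul_le_mul_right h4 hN0
  -- model sum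
  have hmodel := periodic_exp_sum (f := fun n => ((model W n : ℝ) : ℂ)) (W := W)
    (fun n => by rw [model_periodic]) (F := W) (fun n => by
      rw [Complex.norm_real, Real.norm_eq_abs]; exact norm_model_le hW0 n) α N
  have hsplit : ∑ n ∈ Ioc 0 N, ((Λ n - model W n : ℝ) : ℂ) * e (α * n)
      = ∑ n ∈ Ioc 0 N, ((Λ n : ℝ) : ℂ) * e (α * n) - ∑ n ∈ Ioc 0 N, ((model W n : ℝ) : ℂ) * e (α * n) := by
    rw [← sum_sub_distrib]
    refine sum_congr rfl fun n _ => ?_
    push_cast
    ring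
  have hfin : ‖∑ n ∈ Ioc 0 N, ((Λ n : ℝ) : ℂ) * e (α * n)‖ ≤ (ε / 2) * N →
      ‖∑ n ∈ Ioc 0 N, ((model W n : ℝ) : ℂ) * e (α * n)‖ ≤ (ε / 2) * N →
      ‖∑ n ∈ Ioc 0 N, ((Λ n - model W n : ℝ) : ℂ) * e (α * n)‖ ≤ ε * N := by
    intro h4 h5
    rw [hsplit]
    refine (norm_sub_le _ _).trans ?_
    linarith
  by_cases hqW : q ∣ W
  · obtain ⟨c, hc⟩ := hqW
    have hc' : (W:ℝ) = q * c := by rw [hc]; push_cast; ring
    rcases le_or_gt (|β| * N) K with hT | hT
    · -- major arc
      have h4 := h2 ((a * c : ℤ) : ZMod W) β hT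
      have h5 : ∀ n ∈ Ioc 0 N, (((Λ n - model W n : ℝ) : ℂ) *
          ZMod.stdAddChar (((a * c : ℤ) : ZMod W) * (n : ZMod W))) * e (β * n)
          = ((Λ n - model W n : ℝ) : ℂ) * e (α * n) := by
        intro n _
        rw [stdAddChar_eq_e, mul_assoc, ← e_add]
        congr 2
        rw [hα, hc']
        have hc0 : (c:ℝ) ≠ 0 := by
          intro h0
          rw [h0, mul_zero] at hc'
          exact hW'.ne' hc'
        push_cast
        field_simp
      rw [sum_congr rfl h5] at h4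
      exact h4
    · apply hfin
      · exact h1 α β a q hq0 hcop hα hβq hqL (Or.inr (lt_of_le_of_lt hKK1 hT))
      · have h4 : dist1 (α * W) = |β| * W := by
          have h5 := dist1_alpha_of_dvd hq0 hα (W:ℤ) (by exact_mod_cast (Dvd.intro c hc.symm))
          rw [Int.cast_natCast] at h5
          rw [h5, dist1_eq_abs]
          · rw [abs_mul, Nat.abs_cast]
          · rw [abs_mul, Nat.abs_cast]
            refine hW12.trans ?_
            apply div_le_div_of_nonneg_left zero_le_one (by norm_num)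
            have : (1:ℝ) ≤ q := by exact_mod_cast hq0
            linarith
        rw [h4] at hmodel
        -- 4 |β| W S ≤ 2 W W
        have h5 : W / ε ≤ |β| * N := by
          have : W / ε ≤ K := by rw [hK]; linarith
          linarith
        rw [div_le_iff₀ hε] at h5
        obtain ⟨S, hS⟩ : ∃ S, S = ‖∑ n ∈ Ioc 0 N, ((model W n : ℝ) : ℂ) * e (α * n)‖ := ⟨_, rfl⟩
        rw [← hS] at hmodel ⊢
        have hS0 : 0 ≤ S := by rw [hS]; exact norm_nonneg _
        -- W ≤ |β| N ε, so  S W ≤ S |β| N ε and 2 |β| S ≤ W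
        have hβpos : 0 < |β| := by
          rcases (abs_nonneg β).eq_or_lt with h0 | h0
          · rw [← h0] at h5; simp at h5; linarith
          · exact h0
        have h6 : 2 * |β| * S ≤ W := by
          have h7 : (2 * |β| * S) * (2 * W) ≤ W * (2 * W) := by
            calc (2 * |β| * S) * (2 * W) = 4 * (|β| * W) * S := by ring
              _ ≤ 2 * W * W := hmodel
              _ = W * (2 * W) := by ring
          exact le_of_mul_le_mul_right h7 (by positivity)
        have h7 : (2 * |β|) * S ≤ (2 * |β|) * (ε / 2 * N) := by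
          calc (2 * |β|) * S ≤ W := h6
            _ ≤ |β| * N * ε := h5
            _ = (2 * |β|) * (ε / 2 * N) := by ring
        exact le_of_mul_le_mul_left h7 (by positivity)
  · apply hfin
    · by_cases hcases : K1 < q ∨ K1 < |β| * N
      · exact h1 α β a q hq0 hcop hα hβq hqL hcases
      · simp only [not_or, not_lt] at hcases
        obtain ⟨hc1, hc2⟩ := hcases
        have hqw : q ≤ w := by exact_mod_cast hc1.trans hwK
        have hsf : ¬ Squarefree q := fun h => hqW (by rw [hWdef]; exact dvd_primorial_of_squarefree h hqw)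
        have hqr : q ∈ range (⌊K1⌋₊ + 1) := by
          rw [mem_range, Nat.lt_succ_iff]
          exact Nat.le_floor hc1
        have h4 := h3 q hqr hq0 hsf a hcop β hc2
        have h5 : ∀ n ∈ Ioc 0 N, (((Λ n : ℝ) : ℂ) * e ((a:ℝ) / q * n)) * e (β * n)
            = ((Λ n : ℝ) : ℂ) * e (α * n) := by
          intro n _
          rw [mul_assoc, ← e_add, hα]
          congr 2
          ring
        rw [sum_congr rfl h5] at h4
        exact h4
    · have h4 : 1 / (2 * (q:ℝ)) ≤ dist1 (α * W) := by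
        have h5 := dist1_alpha_ge hq0 hcop hα (W:ℤ) (by exact_mod_cast hqW) (by
          rw [Int.cast_natCast, Nat.abs_cast]; exact hW12)
        rw [Int.cast_natCast] at h5
        exact h5
      obtain ⟨S, hS⟩ : ∃ S, S = ‖∑ n ∈ Ioc 0 N, ((model W n : ℝ) : ℂ) * e (α * n)‖ := ⟨_, rfl⟩
      rw [← hS] at hmodel ⊢
      have hS0 : 0 ≤ S := by rw [hS]; exact norm_nonneg _
      have h5 : 4 * (1 / (2 * (q:ℝ))) * S ≤ 2 * W * W := by
        refine le_trans ?_ hmodel
        apply mul_le_mul_of_nonneg_right _ hS0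
        linarith
      have h6 : S ≤ q * W^2 := by
        have h7 : 4 * (1 / (2 * (q:ℝ))) * S = 2 * S / q := by field_simp; norm_num
        rw [h7, div_le_iff₀ hq'] at h5
        nlinarith
      have h7 : q * L ≤ N := by
        have h8 : L ≤ L^8 := by
          calc L = L^1 := (pow_one L).symm
            _ ≤ L^8 := pow_le_pow_right₀ (by linarith) (by norm_num)
        have h9 := mul_le_mul_of_nonneg_left h8 hq'.le
        linarith
      rw [div_le_iff₀ hε] at hLε
      -- 2 W² ≤ L ε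
      calc S ≤ q * W^2 := h6
        _ ≤ q * (L * ε / 2) := by
            apply mul_le_mul_of_nonneg_left _ hq'.le
            linarith
        _ = (ε / 2) * (q * L) := by ring
        _ ≤ (ε / 2) * N := mul_le_mul_of_nonneg_left h7 (by positivity)

/-- The Fourier bound. -/
theorem exists_fourier_bound : ∀ ε : ℝ, 0 < ε → ∃ w0 : ℕ, ∀ w ≥ w0, ∃ N0 : ℕ, ∀ N ≥ N0, ∀ a : ℝ,
    ‖∑ n ∈ Finset.Icc 1 N, ((ArithmeticFunction.vonMangoldt n : ℂ)
      - (if Nat.Coprime n (primorial w) then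
          ((((primorial w : ℝ) / (Nat.totient (primorial w) : ℝ)) : ℝ) : ℂ) else 0))
        * Complex.exp (2 * Real.pi * Complex.I * a * n)‖ ≤ ε * N := by
  intro ε hε
  obtain ⟨w0, hw0⟩ := fourier_bound_aux hε
  refine ⟨w0, fun w hw => ?_⟩
  obtain ⟨N0, hN0⟩ := (hw0 w hw).exists_forall_of_atTop
  refine ⟨N0, fun N hN a => ?_⟩
  have h := hN0 N hN a
  refine le_trans (le_of_eq ?_) h
  congr 1
  refine sum_congr rfl fun n _ => ?_
  have h1 : Complex.exp (2 * Real.pi * Complex.I * a * n) = e (a * n) := by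
    unfold e
    congr 1
    push_cast
    ring
  rw [h1]
  congr 1
  unfold model
  split_ifs
  · push_cast; rfl
  · push_cast; rfl

end Pool.Agent.PrimeFourier
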