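import Mathlib

set_option autoImplicit false

/-!
The identity `Λ log + Λ * Λ = μ * log²`, a totient lower bound, and rearrangement of double sums.
-/

open Finset ArithmeticFunction
open scoped ArithmeticFunction.Moebius ArithmeticFunction.zeta

namespace Pool.Agent.PrimeFourier

/-- pointwise multiplication by `log` -/
noncomputable def Dlog (f : ArithmeticFunction ℝ) : ArithmeticFunction ℝ := pmul f ArithmeticFunction.log

lemma Dlog_apply (f : ArithmeticFunction ℝ) (n : ℕ) : Dlog f n = f n * Real.log n := by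
  simp [Dlog, ArithmeticFunction.log_apply]

lemma Dlog_mul (f g : ArithmeticFunction ℝ) : Dlog (f * g) = Dlog f * g + f * Dlog g := by
  ext n
  rw [Dlog_apply, mul_apply, ArithmeticFunction.add_apply, mul_apply, mul_apply, sum_mul, ← sum_add_distrib]
  refine sum_congr rfl fun x hx => ?_
  obtain ⟨h1, h2⟩ := Nat.mem_divisorsAntidiagonal.1 hx
  rw [Dlog_apply, Dlog_apply, ← h1]
  have h3 : x.1 ≠ 0 := by rintro h; rw [h] at h1; simp at h1; exact h2 h1.symm
  have h4 : x.2 ≠ 0 := by rintro h; rw [h] at h1; simp at h1; exact h2 h1.symm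
  push_cast
  rw [Real.log_mul (by exact_mod_cast h3) (by exact_mod_cast h4)]
  ring

lemma selberg_identity (n : ℕ) :
    Λ n * Real.log n + (vonMangoldt * vonMangoldt) n
      = ∑ x ∈ n.divisorsAntidiagonal, (μ x.1 : ℝ) * (Real.log x.2)^2 := by
  have h1 : (vonMangoldt * (ζ : ArithmeticFunction ℝ)) = ArithmeticFunction.log := vonMangoldt_mul_zeta
  have h2 : Dlog (ζ : ArithmeticFunction ℝ) = ArithmeticFunction.log := by
    ext n
    rw [Dlog_apply, natCoe_apply, zeta_apply, ArithmeticFunction.log_apply]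
    split_ifs with h
    · subst h; simp
    · simp
  have h3 : Dlog ArithmeticFunction.log
      = (Dlog vonMangoldt + vonMangoldt * vonMangoldt) * (ζ : ArithmeticFunction ℝ) := by
    conv_lhs => rw [← h1]
    rw [Dlog_mul, h2, ← h1, add_mul, mul_assoc]
  have h4 : ((μ : ArithmeticFunction ℤ) : ArithmeticFunction ℝ) * Dlog ArithmeticFunction.log
      = Dlog vonMangoldt + vonMangoldt * vonMangoldt := by
    rw [h3, mul_comm _ (ζ : ArithmeticFunction ℝ), ← mul_assoc, coe_moebius_mul_coe_zeta, one_mul]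
  have h5 := congrArg (fun f : ArithmeticFunction ℝ => f n) h4
  simp only [ArithmeticFunction.add_apply, mul_apply, Dlog_apply] at h5
  rw [mul_apply, ← h5]
  refine sum_congr rfl fun x _ => ?_
  rw [ArithmeticFunction.log_apply, intCoe_apply]
  ring

/-- rearranging a sum over factorisations. -/
lemma sum_divisorsAntidiagonal_eq {R : Type*} [AddCommMonoid R] (F : ℕ → ℕ → R) (N : ℕ) :
    ∑ n ∈ Ioc 0 N, ∑ x ∈ n.divisorsAntidiagonal, F x.1 x.2
      = ∑ d ∈ Ioc 0 N, ∑ m ∈ Ioc 0 (N / d), F d m := by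
  rw [sum_sigma', sum_sigma']
  refine sum_bij' (fun x _ => ⟨x.2.1, x.2.2⟩) (fun y _ => ⟨y.1 * y.2, (y.1, y.2)⟩) ?_ ?_ ?_ ?_ ?_
  · rintro ⟨n, x⟩ hx
    rw [mem_sigma] at hx ⊢
    obtain ⟨h1, h2⟩ := hx
    simp only [mem_Ioc] at h1 ⊢
    obtain ⟨h3, h4⟩ := Nat.mem_divisorsAntidiagonal.1 h2
    simp only at h3 h4
    have h5 : 0 < x.1 := Nat.pos_of_ne_zero (by rintro h; rw [h] at h3; simp at h3; omega)
    have h6 : 0 < x.2 := Nat.pos_of_ne_zero (by rintro h; rw [h] at h3; simp at h3; omega)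
    refine ⟨⟨h5, ?_⟩, h6, ?_⟩
    · calc x.1 ≤ x.1 * x.2 := Nat.le_mul_of_pos_right _ h6
        _ = n := h3
        _ ≤ N := h1.2
    · rw [Nat.le_div_iff_mul_le h5, mul_comm, h3]; exact h1.2
  · rintro ⟨d, m⟩ hy
    rw [mem_sigma] at hy ⊢
    simp only [mem_Ioc] at hy ⊢
    obtain ⟨⟨h1, h2⟩, h3, h4⟩ := hy
    rw [Nat.le_div_iff_mul_le h1] at h4
    refine ⟨⟨Nat.mul_pos h1 h3, by rw [mul_comm]; exact h4⟩, ?_⟩
    rw [Nat.mem_divisorsAntidiagonal]
    exact ⟨rfl, (Nat.mul_pos h1 h3).ne'⟩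
  · rintro ⟨n, x⟩ hx
    rw [mem_sigma] at hx
    obtain ⟨h3, _⟩ := Nat.mem_divisorsAntidiagonal.1 hx.2
    simp only at h3
    subst h3
    rfl
  · rintro ⟨d, m⟩ _
    rfl
  · rintro ⟨n, x⟩ _
    rfl

/-- totient lower bound -/
noncomputable def ctot (n : ℕ) : ℝ := (if 2 ∣ n then 4 else 1) * (if 3 ∣ n then 9 / 8 else 1)

lemma ctot_le (n : ℕ) : ctot n ≤ 9 / 2 := by
  unfold ctot
  split_ifs <;> norm_num

lemma ite_or_mul {P Q : Prop} [Decidable P] [Decidable Q] {c : ℝ} (h : ¬ (P ∧ Q)) :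
    (if P ∨ Q then c else 1) = (if P then c else 1) * (if Q then c else 1) := by
  by_cases hP : P
  · have hQ : ¬ Q := fun hQ => h ⟨hP, hQ⟩
    simp [hP, hQ]
  · simp [hP]

lemma sq_le_totient_aux (n : ℕ) : 0 < n → (n:ℝ)^2 ≤ ctot n * (Nat.totient n : ℝ)^3 := by
  induction n using Nat.recOnPosPrimePosCoprime with
  | prime_pow p k hp hk =>
    intro _
    obtain ⟨j, rfl⟩ : ∃ j, k = j + 1 := ⟨k - 1, by omega⟩
    rw [Nat.totient_prime_pow_succ hp]
    have hp2 := hp.two_le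
    have hp' : (2:ℝ) ≤ p := by exact_mod_cast hp2
    have hcast : ((p ^ j * (p - 1) : ℕ) : ℝ) = (p:ℝ)^j * ((p:ℝ) - 1) := by
      rw [Nat.cast_mul, Nat.cast_pow, Nat.cast_sub (by omega), Nat.cast_one]
    rw [hcast]
    have hkey : (p:ℝ)^2 ≤ ctot (p ^ (j+1)) * ((p:ℝ) - 1)^3 := by
      rcases Nat.lt_or_ge p 4 with h | h
      · have hp3 : p = 2 ∨ p = 3 := by omega
        rcases hp3 with rfl | rfl
        · have h1 : (2:ℕ) ∣ 2 ^ (j+1) := dvd_pow_self 2 (by omega)
          have h2 : ¬ (3:ℕ) ∣ 2 ^ (j+1) := by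
            intro h
            have := Nat.Prime.dvd_of_dvd_pow Nat.prime_three h
            omega
          unfold ctot
          rw [if_pos h1, if_neg h2]
          norm_num
        · have h1 : (3:ℕ) ∣ 3 ^ (j+1) := dvd_pow_self 3 (by omega)
          have h2 : ¬ (2:ℕ) ∣ 3 ^ (j+1) := by
            intro h
            have := Nat.Prime.dvd_of_dvd_pow Nat.prime_two h
            omega
          unfold ctot
          rw [if_pos h1, if_neg h2]
          norm_num
      · have h4 : (4:ℝ) ≤ p := by exact_mod_cast h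
        have hc : 1 ≤ ctot (p ^ (j+1)) := by
          unfold ctot; split_ifs <;> norm_num
        have h5 : (p:ℝ)^2 ≤ ((p:ℝ) - 1)^3 := by nlinarith [mul_nonneg (by linarith : (0:ℝ) ≤ p) (by linarith : (0:ℝ) ≤ p - 4), mul_nonneg (mul_nonneg (by linarith : (0:ℝ) ≤ p) (by linarith : (0:ℝ) ≤ p)) (by linarith : (0:ℝ) ≤ p - 4)]
        have h6 : 0 ≤ ((p:ℝ) - 1)^3 := by
          have : (0:ℝ) ≤ p - 1 := by linarith
          positivity
        nlinarith
    have h1 : ((p ^ (j+1) : ℕ) : ℝ)^2 = ((p:ℝ)^j)^2 * (p:ℝ)^2 := by push_cast; ring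
    have h2 : ctot (p ^ (j+1)) * ((p:ℝ)^j * ((p:ℝ) - 1))^3
        = ((p:ℝ)^j)^3 * (ctot (p ^ (j+1)) * ((p:ℝ) - 1)^3) := by ring
    rw [h1, h2]
    have h3 : (1:ℝ) ≤ (p:ℝ)^j := one_le_pow₀ (by linarith)
    apply mul_le_mul (pow_le_pow_right₀ h3 (by norm_num)) hkey (by positivity) (by positivity)
  | zero => intro h; exact absurd h (lt_irrefl 0)
  | one => intro _; unfold ctot; norm_num
  | coprime a b ha hb hab iha ihb =>
    intro _
    have h1 := iha (by omega)
    have h2 := ihb (by omega)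
    rw [Nat.totient_mul hab]
    have hc : ctot (a * b) = ctot a * ctot b := by
      unfold ctot
      have e2 : (2 ∣ a * b) ↔ (2 ∣ a ∨ 2 ∣ b) := Nat.prime_two.dvd_mul
      have e3 : (3 ∣ a * b) ↔ (3 ∣ a ∨ 3 ∣ b) := Nat.prime_three.dvd_mul
      have n2 : ¬ (2 ∣ a ∧ 2 ∣ b) := fun h => by
        have := Nat.dvd_gcd h.1 h.2
        rw [hab] at this; omega
      have n3 : ¬ (3 ∣ a ∧ 3 ∣ b) := fun h => by
        have := Nat.dvd_gcd h.1 h.2
        rw [hab] at this; omega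
      rw [if_congr e2 rfl rfl, if_congr e3 rfl rfl, ite_or_mul n2, ite_or_mul n3]
      ring
    rw [hc]
    push_cast
    calc ((a:ℝ) * b)^2 = (a:ℝ)^2 * (b:ℝ)^2 := by ring
      _ ≤ (ctot a * (Nat.totient a : ℝ)^3) * (ctot b * (Nat.totient b : ℝ)^3) := by
          apply mul_le_mul h1 h2 (by positivity)
          exact le_trans (by positivity) h1
      _ = _ := by ring

lemma sq_le_totient {n : ℕ} (hn : 0 < n) : (n:ℝ)^2 ≤ 9 / 2 * (Nat.totient n : ℝ)^3 :=
  (sq_le_totient_aux n hn).trans (mul_le_mul_of_nonneg_right (ctot_le n) (by positivity))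

end Pool.Agent.PrimeFourier
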