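import Pool.Agent.Common_PrimeFourier.TypeIIDiag
import Pool.Agent.Common_PrimeFourier.Selberg

set_option autoImplicit false

/-!
The hyperbola decomposition of `∑ (Λ * Λ)(n) e(alpha n)`.
-/

open Finset ArithmeticFunction Filter Topology
open scoped ArithmeticFunction.Moebius

namespace Pool.Agent.PrimeFourier

lemma X_split (α : ℝ) {R Y m : ℕ} (h : R ≤ Y) :
    X α Y m = X α R m + ∑ n ∈ Ioc R Y, ((Λ n : ℝ) : ℂ) * e (α * (m * n : ℕ)) := by
  unfold X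
  rw [← sum_Ioc_consecutive _ (Nat.zero_le _) h]

/-- hyperbola identity -/
lemma hyperbola (α : ℝ) (N : ℕ) :
    ∑ m ∈ Ioc 0 N, ((Λ m : ℝ) : ℂ) * X α (N / m) m
      = 2 * ∑ m ∈ Ioc 0 (Nat.sqrt N), ((Λ m : ℝ) : ℂ) * X α (N / m) m
        - ∑ m ∈ Ioc 0 (Nat.sqrt N), ((Λ m : ℝ) : ℂ) * X α (Nat.sqrt N) m := by
  obtain ⟨R, hR⟩ : ∃ R, R = Nat.sqrt N := ⟨_, rfl⟩
  rw [← hR]
  have hRN : R * R ≤ N := by rw [hR]; exact Nat.sqrt_le N
  have hRN2 : N < (R + 1) * (R + 1) := by rw [hR]; exact Nat.lt_succ_sqrt N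
  have hRleN : R ≤ N := by rw [hR]; exact Nat.sqrt_le_self N
  rw [← sum_Ioc_consecutive _ (Nat.zero_le _) hRleN]
  have h1 : ∑ m ∈ Ioc R N, ((Λ m : ℝ) : ℂ) * X α (N / m) m
      = ∑ n ∈ Ioc 0 R, ((Λ n : ℝ) : ℂ) * (X α (N / n) n - X α R n) := by
    have h2 : ∑ m ∈ Ioc R N, ((Λ m : ℝ) : ℂ) * X α (N / m) m
        = ∑ m ∈ Ioc R N, ∑ n ∈ Ioc 0 (N / m), ((Λ m : ℝ) : ℂ) * (((Λ n : ℝ) : ℂ) * e (α * (m * n : ℕ))) := by
      refine sum_congr rfl fun m _ => ?_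
      unfold X
      rw [mul_sum]
    have h3 : ∑ n ∈ Ioc 0 R, ((Λ n : ℝ) : ℂ) * (X α (N / n) n - X α R n)
        = ∑ n ∈ Ioc 0 R, ∑ m ∈ Ioc R (N / n), ((Λ m : ℝ) : ℂ) * (((Λ n : ℝ) : ℂ) * e (α * (m * n : ℕ))) := by
      refine sum_congr rfl fun n hn => ?_
      obtain ⟨hn1, hn2⟩ := mem_Ioc.1 hn
      have h4 : R ≤ N / n := by
        rw [Nat.le_div_iff_mul_le hn1]
        exact (Nat.mul_le_mul_left R hn2).trans hRN
      rw [X_split α h4, add_sub_cancel_left, mul_sum]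
      refine sum_congr rfl fun m _ => ?_
      rw [Nat.mul_comm n m]
      ring
    rw [h2, h3]
    apply sum_comm'
    intro m n
    simp only [mem_Ioc]
    constructor
    · rintro ⟨⟨a1, a2⟩, a3, a4⟩
      have hm0 : 0 < m := by omega
      rw [Nat.le_div_iff_mul_le hm0] at a4
      refine ⟨⟨a1, ?_⟩, a3, ?_⟩
      · rw [Nat.le_div_iff_mul_le a3, mul_comm]; exact a4
      · by_contra hcon
        have : (R + 1) * (R + 1) ≤ n * m := Nat.mul_le_mul (by omega) a1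
        omega
    · rintro ⟨⟨a1, a2⟩, a3, a4⟩
      rw [Nat.le_div_iff_mul_le a3] at a2
      have hm0 : 0 < m := by omega
      refine ⟨⟨a1, ?_⟩, a3, ?_⟩
      · exact (Nat.le_mul_of_pos_right m a3).trans a2
      · rw [Nat.le_div_iff_mul_le hm0, mul_comm]; exact a2
  rw [h1]
  have h2 : ∑ n ∈ Ioc 0 R, ((Λ n : ℝ) : ℂ) * (X α (N / n) n - X α R n)
      = ∑ n ∈ Ioc 0 R, ((Λ n : ℝ) : ℂ) * X α (N / n) n - ∑ n ∈ Ioc 0 R, ((Λ n : ℝ) : ℂ) * X α R n := by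
    rw [← sum_sub_distrib]
    exact sum_congr rfl fun _ _ => by ring
  rw [h2]
  ring

/-- reduction to `m ≤ √N` -/
lemma norm_F2_le (α : ℝ) (N : ℕ) :
    ‖∑ m ∈ Ioc 0 N, ((Λ m : ℝ) : ℂ) * X α (N / m) m‖
      ≤ 2 * ∑ m ∈ Ioc 0 (Nat.sqrt N), Λ m * ‖X α (N / m) m‖ + 36 * N := by
  rw [hyperbola]
  refine (norm_sub_le _ _).trans (add_le_add ?_ ?_)
  · rw [norm_mul]
    have : ‖(2:ℂ)‖ = 2 := by simp
    rw [this]
    apply mul_le_mul_of_nonneg_left _ (by norm_num)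
    refine (norm_sum_le _ _).trans (le_of_eq (sum_congr rfl fun m _ => ?_))
    rw [norm_mul, Complex.norm_real, Real.norm_eq_abs, abs_of_nonneg vonMangoldt_nonneg]
  · refine (norm_sum_le _ _).trans ?_
    have h1 : ∀ m ∈ Ioc 0 (Nat.sqrt N), ‖((Λ m : ℝ) : ℂ) * X α (Nat.sqrt N) m‖
        ≤ Λ m * (6 * (Nat.sqrt N : ℕ)) := by
      intro m _
      rw [norm_mul, Complex.norm_real, Real.norm_eq_abs, abs_of_nonneg vonMangoldt_nonneg]
      exact mul_le_mul_of_nonneg_left (norm_X_le _ _ _) vonMangoldt_nonneg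
    refine (sum_le_sum h1).trans ?_
    rw [← sum_mul]
    have h2 := sum_Lambda_le (Nat.sqrt N)
    have h3 : ((Nat.sqrt N : ℕ):ℝ) * (Nat.sqrt N : ℕ) ≤ N := by exact_mod_cast Nat.sqrt_le N
    calc _ ≤ (6 * ((Nat.sqrt N : ℕ):ℝ)) * (6 * (Nat.sqrt N : ℕ)) :=
          mul_le_mul_of_nonneg_right h2 (by positivity)
      _ = 36 * (((Nat.sqrt N : ℕ):ℝ) * (Nat.sqrt N : ℕ)) := by ring
      _ ≤ 36 * N := by linarith

/-- dyadic decomposition -/
lemma dyadic_le {f : ℕ → ℝ} (hf : ∀ m, 0 ≤ f m) {R M0 : ℕ} {E : ℝ} (hE : 0 ≤ E)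
    (hblock : ∀ M, M0 ≤ M → M ≤ R → ∑ m ∈ Ioc M (2 * M), f m ≤ E) :
    ∀ J M : ℕ, M0 ≤ M → R ≤ 2 ^ J * M → ∑ m ∈ Ioc M R, f m ≤ J * E := by
  intro J
  induction J with
  | zero =>
    intro M _ h
    rw [Ioc_eq_empty (by simpa using h)]
    simp
  | succ J ih =>
    intro M hM h
    rcases le_or_gt R M with h1 | h1
    · rw [Ioc_eq_empty (by omega)]
      simp only [sum_empty]
      positivity
    · have h2 : R ≤ 2 ^ J * (2 * M) := by
        calc R ≤ 2 ^ (J+1) * M := h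
          _ = 2 ^ J * (2 * M) := by ring
      have h3 := ih (2 * M) (by omega) h2
      have h4 := hblock M hM h1.le
      have h5 : ∑ m ∈ Ioc M R, f m ≤ ∑ m ∈ Ioc M (2 * M), f m + ∑ m ∈ Ioc (2 * M) R, f m := by
        have hsub : Ioc M R ⊆ Ioc M (2 * M) ∪ Ioc (2 * M) R := by
          intro m hm
          rw [mem_Ioc] at hm
          rw [mem_union, mem_Ioc, mem_Ioc]
          omega
        refine (sum_le_sum_of_subset_of_nonneg hsub (fun _ _ _ => hf _)).trans ?_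
        have h6 := sum_union_inter (s₁ := Ioc M (2 * M)) (s₂ := Ioc (2 * M) R) (f := f)
        have h7 : 0 ≤ ∑ m ∈ Ioc M (2 * M) ∩ Ioc (2 * M) R, f m := sum_nonneg fun _ _ => hf _
        linarith
      push_cast
      linarith

/-- very small `m`. -/
lemma small_m_le (α : ℝ) (N M0 : ℕ) :
    ∑ m ∈ Ioc 0 M0, Λ m * ‖X α (N / m) m‖ ≤ 6 * N * (Real.log M0 * (1 + Real.log M0)) := by
  have h1 : ∀ m ∈ Ioc 0 M0, Λ m * ‖X α (N / m) m‖ ≤ 6 * N * Real.log M0 * (1 / (m:ℝ)) := by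
    intro m hm
    have hm0 : (0:ℝ) < m := by exact_mod_cast (mem_Ioc.1 hm).1
    have h2 : ‖X α (N / m) m‖ ≤ 6 * (N / m) := by
      refine (norm_X_le _ _ _).trans ?_
      have : ((N / m : ℕ):ℝ) ≤ N / m := Nat.cast_div_le
      linarith
    calc Λ m * ‖X α (N / m) m‖ ≤ Real.log M0 * (6 * (N / m)) :=
          mul_le_mul (Lambda_le_log (mem_Ioc.1 hm).2) h2 (norm_nonneg _) (Real.log_natCast_nonneg _)
      _ = _ := by ring
  refine (sum_le_sum h1).trans ?_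
  rw [← mul_sum]
  have h2 : ∑ m ∈ Ioc 0 M0, (1:ℝ) / m ≤ 1 + Real.log M0 := by
    have h3 := harmonic_le_one_add_log M0
    rw [← Hs_eq_harmonic] at h3
    exact h3
  have h3 : 0 ≤ 6 * (N:ℝ) * Real.log M0 := by
    have := Real.log_natCast_nonneg M0
    positivity
  calc _ ≤ 6 * (N:ℝ) * Real.log M0 * (1 + Real.log M0) := mul_le_mul_of_nonneg_left h2 h3
    _ = _ := by ring

/-- removing the logarithm -/
lemma sum_Lambda_log_div_le (N : ℕ) :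
    ∑ n ∈ Ioc 0 N, Λ n * (Real.log N - Real.log n) ≤ 6 * N := by
  induction N with
  | zero => simp
  | succ N ih =>
    rcases Nat.eq_zero_or_pos N with h0 | h0
    · subst h0; simp
    have hN : (0:ℝ) < N := by exact_mod_cast h0
    have h1 : Ioc 0 (N+1) = insert (N+1) (Ioc 0 N) := by
      ext k; simp only [mem_Ioc, mem_insert]; omega
    rw [h1, sum_insert (by simp), sub_self, mul_zero, zero_add]
    have h2 : ∑ n ∈ Ioc 0 N, Λ n * (Real.log ((N+1 : ℕ):ℝ) - Real.log n)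
        = ∑ n ∈ Ioc 0 N, Λ n * (Real.log N - Real.log n)
          + (Real.log ((N+1 : ℕ):ℝ) - Real.log N) * ∑ n ∈ Ioc 0 N, Λ n := by
      rw [mul_sum, ← sum_add_distrib]
      exact sum_congr rfl fun _ _ => by ring
    rw [h2]
    have h3 : Real.log ((N+1 : ℕ):ℝ) - Real.log N ≤ 1 / N := by
      rw [← Real.log_div (by positivity) hN.ne']
      refine (Real.log_le_sub_one_of_pos (by positivity)).trans (le_of_eq ?_)
      push_cast
      field_simp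
      ring
    have h4 : 0 ≤ Real.log ((N+1 : ℕ):ℝ) - Real.log N := by
      have : Real.log N ≤ Real.log ((N+1 : ℕ):ℝ) :=
        Real.log_le_log hN (by push_cast; linarith)
      linarith
    have h5 := sum_Lambda_le N
    have h6 : (Real.log ((N+1 : ℕ):ℝ) - Real.log N) * ∑ n ∈ Ioc 0 N, Λ n ≤ 1 / N * (6 * N) :=
      mul_le_mul h3 h5 (sum_nonneg fun _ _ => vonMangoldt_nonneg) (by positivity)
    have h7 : 1 / (N:ℝ) * (6 * N) = 6 := by field_simp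
    have h8 : 6 * ((N + 1 : ℕ) : ℝ) = 6 * N + 6 := by push_cast; ring
    rw [h8]
    linarith

/-- `L ‖S‖ ≤ ‖F1‖ + ‖F2‖ + 6 N`. -/
lemma log_mul_norm_le (α : ℝ) (N : ℕ) :
    Real.log N * ‖∑ n ∈ Ioc 0 N, ((Λ n : ℝ) : ℂ) * e (α * n)‖
      ≤ ‖∑ d ∈ Ioc 0 N, ((μ d : ℝ) : ℂ) * I2 (α * d) (N / d)‖
        + ‖∑ m ∈ Ioc 0 N, ((Λ m : ℝ) : ℂ) * X α (N / m) m‖ + 6 * N := by
  have h1 : ∀ n : ℕ, ((Λ n * Real.log n : ℝ) : ℂ) * e (α * n)
      = ∑ x ∈ n.divisorsAntidiagonal, ((μ x.1 : ℝ) : ℂ) * ((((Real.log x.2)^2 : ℝ) : ℂ) * e (α * (x.1 * x.2 : ℕ)))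
        - ∑ x ∈ n.divisorsAntidiagonal, ((Λ x.1 : ℝ) : ℂ) * (((Λ x.2 : ℝ) : ℂ) * e (α * (x.1 * x.2 : ℕ))) := by
    intro n
    have h2 := selberg_identity n
    rw [mul_apply] at h2
    have h3 : Λ n * Real.log n = ∑ x ∈ n.divisorsAntidiagonal, (μ x.1 : ℝ) * (Real.log x.2)^2
        - ∑ x ∈ n.divisorsAntidiagonal, Λ x.1 * Λ x.2 := by linarith
    rw [h3]
    push_cast
    rw [sub_mul, sum_mul, sum_mul]
    congr 1
    · refine sum_congr rfl fun x hx => ?_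
      obtain ⟨h4, _⟩ := Nat.mem_divisorsAntidiagonal.1 hx
      rw [← h4]
      push_cast
      ring
    · refine sum_congr rfl fun x hx => ?_
      obtain ⟨h4, _⟩ := Nat.mem_divisorsAntidiagonal.1 hx
      rw [← h4]
      push_cast
      ring
  have h2 : ∑ n ∈ Ioc 0 N, ((Λ n * Real.log n : ℝ) : ℂ) * e (α * n)
      = ∑ d ∈ Ioc 0 N, ((μ d : ℝ) : ℂ) * I2 (α * d) (N / d)
        - ∑ m ∈ Ioc 0 N, ((Λ m : ℝ) : ℂ) * X α (N / m) m := by
    rw [sum_congr rfl (fun n _ => h1 n), sum_sub_distrib,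
      sum_divisorsAntidiagonal_eq (fun a b => ((μ a : ℝ) : ℂ) * ((((Real.log b)^2 : ℝ) : ℂ) * e (α * (a * b : ℕ)))) N,
      sum_divisorsAntidiagonal_eq (fun a b => ((Λ a : ℝ) : ℂ) * (((Λ b : ℝ) : ℂ) * e (α * (a * b : ℕ)))) N]
    congr 1
    · refine sum_congr rfl fun d _ => ?_
      unfold I2
      rw [mul_sum]
      refine sum_congr rfl fun m _ => ?_
      push_cast
      rw [mul_assoc]
    · refine sum_congr rfl fun d _ => ?_
      unfold X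
      rw [mul_sum]
  have h3 : ((Real.log N : ℝ) : ℂ) * ∑ n ∈ Ioc 0 N, ((Λ n : ℝ) : ℂ) * e (α * n)
      = ∑ n ∈ Ioc 0 N, ((Λ n * Real.log n : ℝ) : ℂ) * e (α * n)
        + ∑ n ∈ Ioc 0 N, ((Λ n * (Real.log N - Real.log n) : ℝ) : ℂ) * e (α * n) := by
    rw [mul_sum, ← sum_add_distrib]
    refine sum_congr rfl fun n _ => ?_
    push_cast
    ring
  have h4 : Real.log N * ‖∑ n ∈ Ioc 0 N, ((Λ n : ℝ) : ℂ) * e (α * n)‖
      = ‖((Real.log N : ℝ) : ℂ) * ∑ n ∈ Ioc 0 N, ((Λ n : ℝ) : ℂ) * e (α * n)‖ := by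
    rw [norm_mul, Complex.norm_real, Real.norm_eq_abs, abs_of_nonneg (Real.log_natCast_nonneg N)]
  rw [h4, h3, h2]
  refine (norm_add_le _ _).trans (add_le_add (norm_sub_le _ _) ?_)
  refine (norm_sum_le _ _).trans (le_trans (le_of_eq ?_) (sum_Lambda_log_div_le N))
  refine sum_congr rfl fun n hn => ?_
  obtain ⟨hn1, hn2⟩ := mem_Ioc.1 hn
  rw [norm_mul, norm_e, mul_one, Complex.norm_real, Real.norm_eq_abs, abs_of_nonneg]
  apply mul_nonneg vonMangoldt_nonneg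
  have : Real.log n ≤ Real.log N := Real.log_le_log (by exact_mod_cast hn1) (by exact_mod_cast hn2)
  linarith

end Pool.Agent.PrimeFourier
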