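import Pool.Agent.Common_PrimeFourier.TypeIc
import Pool.Agent.Common_PrimeFourier.Block

set_option autoImplicit false

/-!
The type I sum `∑ (mu * log^2)(n) e(alpha n)`.
-/

open Finset ArithmeticFunction
open scoped ArithmeticFunction.Moebius

namespace Pool.Agent.PrimeFourier

lemma dist1_alpha_ge {α β : ℝ} {a : ℤ} {q : ℕ} (hq : 0 < q) (hcop : IsCoprime a (q:ℤ))
    (hα : α = a / q + β) (k : ℤ) (hk : ¬ (q:ℤ) ∣ k) (hβ : |β| * |(k:ℝ)| ≤ 1 / (2 * q)) :
    1 / (2 * (q:ℝ)) ≤ dist1 (α * k) := by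
  have hq' : (0:ℝ) < q := by exact_mod_cast hq
  have h1 : ¬ (q:ℤ) ∣ a * k := fun h => hk (hcop.symm.dvd_of_dvd_mul_left h)
  have h2 := dist1_div_ge hq h1
  have h3 := le_dist1_add (((a * k : ℤ) : ℝ) / q) (β * k)
  have h4 : ((a * k : ℤ) : ℝ) / q + β * k = α * k := by
    rw [hα]; push_cast; ring
  rw [h4, abs_mul] at h3
  have h5 : 1 / (2 * (q:ℝ)) = 1 / q - 1 / (2 * q) := by field_simp; norm_num
  rw [h5]
  linarith

lemma e_alpha_of_dvd {α β : ℝ} {a : ℤ} {q : ℕ} (hq : 0 < q)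
    (hα : α = a / q + β) (k : ℤ) (hk : (q:ℤ) ∣ k) : e (α * k) = e (β * k) := by
  have hq' : (q:ℝ) ≠ 0 := by exact_mod_cast hq.ne'
  obtain ⟨c, rfl⟩ := hk
  have : α * ((q * c : ℤ) : ℝ) = β * ((q * c : ℤ) : ℝ) + ((a * c : ℤ) : ℝ) := by
    rw [hα]; push_cast; field_simp; ring
  rw [this, e_add_int]

lemma dist1_alpha_of_dvd {α β : ℝ} {a : ℤ} {q : ℕ} (hq : 0 < q)
    (hα : α = a / q + β) (k : ℤ) (hk : (q:ℤ) ∣ k) : dist1 (α * k) = dist1 (β * k) := by
  have hq' : (q:ℝ) ≠ 0 := by exact_mod_cast hq.ne'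
  obtain ⟨c, rfl⟩ := hk
  have : α * ((q * c : ℤ) : ℝ) = β * ((q * c : ℤ) : ℝ) + ((a * c : ℤ) : ℝ) := by
    rw [hα]; push_cast; field_simp; ring
  rw [this, dist1_add_int]

/-- tail `d > D` -/
lemma typeI_tail {D N : ℕ} (hD : 0 < D) (hDN : D ≤ N) (α : ℝ) :
    ‖∑ d ∈ Ioc D N, ((μ d : ℝ) : ℂ) * I2 (α * d) (N / d)‖ ≤ N * (Real.log (N / D))^3 := by
  have hD' : (0:ℝ) < D := by exact_mod_cast hD
  have h1 : ∀ d ∈ Ioc D N, ‖((μ d : ℝ) : ℂ) * I2 (α * d) (N / d)‖
      ≤ N * (Real.log (N / D))^2 * (1 / (d:ℝ)) := by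
    intro d hd
    obtain ⟨hd1, hd2⟩ := mem_Ioc.1 hd
    have hd0 : (0:ℝ) < d := by exact_mod_cast (hD.trans hd1)
    rw [norm_mul, Complex.norm_real, Real.norm_eq_abs]
    have h2 : ‖I2 (α * d) (N / d)‖ ≤ (N / d) * (Real.log (N / D))^2 := by
      refine (norm_I2_trivial _ _).trans ?_
      have h3 : ∀ m ∈ Ioc 0 (N / d), (Real.log (m:ℝ))^2 ≤ (Real.log (N / D))^2 := by
        intro m hm
        obtain ⟨hm1, hm2⟩ := mem_Ioc.1 hm
        apply log_sq_mono (by exact_mod_cast hm1)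
        have h4 : (m:ℝ) ≤ (N:ℝ) / d := by
          rw [le_div_iff₀ hd0]
          have : m * d ≤ N := (Nat.le_div_iff_mul_le (by omega)).1 hm2
          exact_mod_cast this
        refine h4.trans ?_
        apply div_le_div_of_nonneg_left (Nat.cast_nonneg N) hD'
        exact_mod_cast hd1.le
      refine (sum_le_card_nsmul _ _ _ h3).trans ?_
      rw [Nat.card_Ioc, nsmul_eq_mul, Nat.sub_zero]
      exact mul_le_mul_of_nonneg_right Nat.cast_div_le (by positivity)
    calc |(μ d : ℝ)| * ‖I2 (α * d) (N / d)‖ ≤ 1 * ((N / d) * (Real.log (N / D))^2) :=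
          mul_le_mul (abs_mu_le d) h2 (norm_nonneg _) zero_le_one
      _ = _ := by ring
  refine (norm_sum_le_of_le _ h1).trans ?_
  rw [← mul_sum]
  have h2 := sum_inv_Ioc_le hD hDN
  calc _ ≤ N * (Real.log (N / D))^2 * Real.log (N / D) :=
        mul_le_mul_of_nonneg_left h2 (by positivity)
    _ = _ := by ring

/-- non-multiples of `q`, small `q` -/
lemma typeI_nonmult {D N q : ℕ} {α β : ℝ} {a : ℤ} (hq : 0 < q) (hcop : IsCoprime a (q:ℤ))
    (hα : α = a / q + β) (hβ : |β| * D ≤ 1 / (2 * q)) :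
    ‖∑ d ∈ (Ioc 0 D).filter (fun d => ¬ q ∣ d), ((μ d : ℝ) : ℂ) * I2 (α * d) (N / d)‖
      ≤ D * (4 * q * (Real.log N)^2) := by
  have hq' : (0:ℝ) < q := by exact_mod_cast hq
  have h1 : ∀ d ∈ (Ioc 0 D).filter (fun d => ¬ q ∣ d), ‖((μ d : ℝ) : ℂ) * I2 (α * d) (N / d)‖
      ≤ 4 * q * (Real.log N)^2 := by
    intro d hd
    rw [mem_filter, mem_Ioc] at hd
    obtain ⟨⟨hd1, hd2⟩, hd3⟩ := hd
    rw [norm_mul, Complex.norm_real, Real.norm_eq_abs]
    have h2 : 1 / (2 * (q:ℝ)) ≤ dist1 (α * d) := by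
      have := dist1_alpha_ge hq hcop hα (d:ℤ) (by exact_mod_cast hd3) (by
        refine le_trans ?_ hβ
        apply mul_le_mul_of_nonneg_left _ (abs_nonneg _)
        rw [Int.cast_natCast, Nat.abs_cast]
        exact_mod_cast hd2)
      simpa using this
    have h3 : ‖I2 (α * d) (N / d)‖ ≤ 4 * q * (Real.log N)^2 := by
      refine (norm_I2_le (α * d) (N / d) (X := (N:ℝ)) (by exact_mod_cast Nat.div_le_self N d)).trans ?_
      have h4 : bd N (dist1 (α * d)) ≤ 2 * q := by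
        refine (bd_le_inv (Nat.cast_nonneg N) (lt_of_lt_of_le (by positivity) h2)).trans ?_
        rw [div_le_iff₀ (lt_of_lt_of_le (by positivity) h2)]
        rw [div_le_iff₀ (by positivity)] at h2
        linarith
      have h5 : (Real.log ((N/d:ℕ):ℝ))^2 ≤ (Real.log N)^2 := log_sq_nat_mono (Nat.div_le_self N d)
      have h6 : 2 * (Real.log ((N/d:ℕ):ℝ))^2 ≤ 2 * (Real.log N)^2 := by linarith
      calc _ ≤ 2 * (Real.log N)^2 * (2 * q) :=
            mul_le_mul h6 h4 (bd_nonneg (Nat.cast_nonneg N) (dist1_nonneg _)) (by positivity)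
        _ = _ := by ring
    calc |(μ d : ℝ)| * ‖I2 (α * d) (N / d)‖ ≤ 1 * (4 * q * (Real.log N)^2) :=
          mul_le_mul (abs_mu_le d) h3 (norm_nonneg _) zero_le_one
      _ = _ := one_mul _
  refine (norm_sum_le_of_le _ h1).trans ?_
  rw [sum_const, nsmul_eq_mul]
  apply mul_le_mul_of_nonneg_right _ (by positivity)
  have h6 : ((Ioc 0 D).filter (fun d => ¬ q ∣ d)).card ≤ D := by
    refine (card_filter_le _ _).trans ?_
    simp
  exact_mod_cast h6

/-- separation of `alpha d` for `d` in a short block -/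
lemma alpha_separated {q : ℕ} {α β : ℝ} {a : ℤ} (hq : 0 < q) (hcop : IsCoprime a (q:ℤ))
    (hα : α = a / q + β) (hβ : |β| * q ≤ 1 / q) {k : ℤ} (hk0 : k ≠ 0) (hk : 2 * |k| ≤ q) :
    1 / (2 * (q:ℝ)) ≤ dist1 (α * k) := by
  have hq' : (0:ℝ) < q := by exact_mod_cast hq
  apply dist1_alpha_ge hq hcop hα k
  · intro h
    have h1 := Int.le_of_dvd (abs_pos.2 hk0) ((dvd_abs _ _).2 h)
    have : 0 < |k| := abs_pos.2 hk0
    omega
  · have h1 : 2 * |(k:ℝ)| ≤ q := by exact_mod_cast hk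
    have h2 : |β| * |(k:ℝ)| ≤ |β| * (q / 2) := mul_le_mul_of_nonneg_left (by linarith) (abs_nonneg _)
    refine h2.trans ?_
    have h3 : 1 / (2 * (q:ℝ)) = (1 / q) / 2 := by field_simp
    rw [h3]
    linarith

/-- all `d ≤ D`, any `q`: bound through the block lemma. -/
lemma sum_bd_le {D N q : ℕ} {α β : ℝ} {a : ℤ} (hq : 0 < q) (hcop : IsCoprime a (q:ℤ))
    (hα : α = a / q + β) (hβ : |β| * q ≤ 1 / q) (hqN : q ≤ N) (hDN : D ≤ N) :
    ∑ d ∈ Ioc 0 D, bd (N / d) (dist1 (α * d))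
      ≤ (8 * N / q + 8 * D + 16 * q) * (1 + Real.log N) := by
  have hq' : (0:ℝ) < q := by exact_mod_cast hq
  have hN0 : (0:ℝ) ≤ N := Nat.cast_nonneg N
  have hN1 : (1:ℝ) ≤ N := by exact_mod_cast (show 1 ≤ N by omega)
  have hlq : 0 ≤ Real.log q := Real.log_natCast_nonneg q
  have hlqN : Real.log q ≤ Real.log N := Real.log_le_log hq' (by exact_mod_cast hqN)
  obtain ⟨h, hh⟩ : ∃ h, h = (q + 1) / 2 := ⟨_, rfl⟩
  have hh0 : 0 < h := by omega
  have hh' : (0:ℝ) < h := by exact_mod_cast hh0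
  have hhq : (q:ℝ) ≤ 2 * h := by exact_mod_cast (show q ≤ 2 * h by omega)
  have hmaps : ∀ d ∈ Ioc 0 D, d / h ∈ range (D / h + 1) := by
    intro d hd
    rw [mem_range, Nat.lt_succ_iff]
    exact Nat.div_le_div_right (mem_Ioc.1 hd).2
  -- separation inside a block
  have hsep : ∀ j : ℕ, ∀ d ∈ (Ioc 0 D).filter (fun d => d / h = j),
      ∀ d' ∈ (Ioc 0 D).filter (fun d => d / h = j), d ≠ d' →
      1 / (2 * (q:ℝ)) ≤ dist1 (α * d - α * d') := by
    intro j d hd d' hd' hne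
    have h1 := (mem_filter.1 hd).2
    have h2 := (mem_filter.1 hd').2
    have h3 := Nat.div_add_mod d h
    have h4 := Nat.div_add_mod d' h
    have h5 := Nat.mod_lt d hh0
    have h6 := Nat.mod_lt d' hh0
    rw [h1] at h3
    rw [h2] at h4
    have := alpha_separated hq hcop hα hβ (k := (d:ℤ) - d') (by
      intro h0; apply hne; exact_mod_cast (by linarith : (d:ℤ) = d')) (by
      rcases abs_cases ((d:ℤ) - d') with ⟨h7, _⟩ | ⟨h7, _⟩ <;> rw [h7] <;> push_cast <;> omega)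
    rw [← mul_sub]
    simpa using this
  rw [← sum_fiberwise_of_maps_to hmaps, sum_range_succ']
  have hblock0 : ∑ d ∈ (Ioc 0 D).filter (fun d => d / h = 0), bd (N / d) (dist1 (α * d))
      ≤ 16 * q * (1 + Real.log q) := by
    have h1 : ∀ d ∈ (Ioc 0 D).filter (fun d => d / h = 0), bd (N / d) (dist1 (α * d))
        ≤ 2 * bd q (dist1 (α * d)) := by
      intro d hd
      rw [mem_filter, mem_Ioc, Nat.div_eq_zero_iff] at hd
      have h2 : 1 / (2 * (q:ℝ)) ≤ dist1 (α * d) := by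
        have := alpha_separated hq hcop hα hβ (k := (d:ℤ)) (by
          have := hd.1.1; omega) (by
          rw [Nat.abs_cast]
          have := hd.2
          have := hd.1.1
          omega)
        simpa using this
      have h2' : 0 < dist1 (α * d) := lt_of_lt_of_le (by positivity) h2
      refine (bd_le_inv (by positivity) h2').trans ?_
      rw [bd, div_le_iff₀ h2']
      have h3 : 1 ≤ 2 * q * dist1 (α * d) := by
        rw [div_le_iff₀ (by positivity)] at h2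
        linarith
      have h4 : 2 * (2 * ↑q / (1 + 2 * ↑q * dist1 (α * ↑d))) * dist1 (α * ↑d)
          = 2 * (2 * q * dist1 (α * d)) / (1 + 2 * q * dist1 (α * d)) := by ring
      rw [h4, le_div_iff₀ (by positivity)]
      linarith
    refine (sum_le_sum h1).trans ?_
    rw [← mul_sum]
    have h2 := sum_bd_separated _ (fun d : ℕ => α * d) hq (hsep 0) hq'.le
    have h3 : 0 ≤ q * Real.log q := by positivity
    nlinarith
  have hblocks : ∑ j ∈ range (D / h), ∑ d ∈ (Ioc 0 D).filter (fun d => d / h = j + 1),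
      bd (N / d) (dist1 (α * d)) ≤ (8 * N / q + 8 * D) * (1 + Real.log N) := by
    have h1 : ∀ j ∈ range (D / h), ∑ d ∈ (Ioc 0 D).filter (fun d => d / h = j + 1),
        bd (N / d) (dist1 (α * d)) ≤ 8 * N / q * (1 / ((j+1 : ℕ):ℝ)) + 4 * q * (1 + Real.log q) := by
      intro j _
      have h2 : ∀ d ∈ (Ioc 0 D).filter (fun d => d / h = j + 1), bd (N / d) (dist1 (α * d))
          ≤ bd (2 * N / (q * ((j+1 : ℕ):ℝ))) (dist1 (α * d)) := by
        intro d hd
        rw [mem_filter, mem_Ioc] at hd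
        have hd0 : (0:ℝ) < d := by exact_mod_cast hd.1.1
        apply bd_mono (by positivity) (dist1_nonneg _)
        rw [div_le_div_iff₀ hd0 (by positivity)]
        have h3 : (j+1) * h ≤ d := by
          have := Nat.div_mul_le_self d h
          rwa [hd.2] at this
        have h4 : ((j+1 : ℕ):ℝ) * h ≤ d := by exact_mod_cast h3
        have h5 : (q:ℝ) * ((j+1 : ℕ):ℝ) ≤ 2 * d := by
          have : (q:ℝ) * ((j+1 : ℕ):ℝ) ≤ (2 * h) * ((j+1 : ℕ):ℝ) :=
            mul_le_mul_of_nonneg_right hhq (by positivity)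
          linarith
        nlinarith
      refine (sum_le_sum h2).trans ?_
      have h3 := sum_bd_separated _ (fun d : ℕ => α * d) hq (hsep (j+1))
        (X := 2 * N / (q * ((j+1 : ℕ):ℝ))) (by positivity)
      refine h3.trans (le_of_eq ?_)
      field_simp
      ring
    refine (sum_le_sum h1).trans ?_
    rw [sum_add_distrib, ← mul_sum, sum_const, card_range, nsmul_eq_mul]
    have h2 : ∑ j ∈ range (D / h), 1 / ((j+1 : ℕ):ℝ) ≤ 1 + Real.log N := by
      have h3 : ∑ j ∈ range (D / h), 1 / ((j+1 : ℕ):ℝ) ≤ ∑ j ∈ range N, 1 / ((j+1 : ℕ):ℝ) := by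
        apply sum_le_sum_of_subset_of_nonneg
        · exact range_subset_range.2 ((Nat.div_le_self _ _).trans hDN)
        · intros; positivity
      refine h3.trans (le_trans (le_of_eq ?_) (harmonic_le_one_add_log N))
      rw [harmonic]
      push_cast
      refine sum_congr rfl fun k _ => ?_
      rw [one_div]
    have h3 : ((D / h : ℕ):ℝ) * (4 * q * (1 + Real.log q)) ≤ 8 * D * (1 + Real.log N) := by
      have h4 : ((D / h : ℕ):ℝ) ≤ D / h := Nat.cast_div_le
      have h5 : ((D / h : ℕ):ℝ) * q ≤ 2 * D := by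
        have : ((D / h : ℕ):ℝ) * q ≤ (D / h) * (2 * h) := mul_le_mul h4 hhq hq'.le (by positivity)
        refine this.trans (le_of_eq ?_)
        field_simp
      have h6 : ((D / h : ℕ):ℝ) * (4 * q * (1 + Real.log q))
          = 4 * (((D / h : ℕ):ℝ) * q) * (1 + Real.log q) := by ring
      rw [h6]
      calc _ ≤ 4 * (2 * (D:ℝ)) * (1 + Real.log N) :=
            mul_le_mul (by linarith) (by linarith) (by positivity) (by positivity)
        _ = _ := by ring
    have h4 : 8 * N / (q:ℝ) * ∑ j ∈ range (D / h), 1 / ((j+1 : ℕ):ℝ)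
        ≤ 8 * N / (q:ℝ) * (1 + Real.log N) := mul_le_mul_of_nonneg_left h2 (by positivity)
    rw [add_mul]
    exact add_le_add h4 h3
  have h5 : 16 * q * (1 + Real.log q) ≤ 16 * q * (1 + Real.log N) :=
    mul_le_mul_of_nonneg_left (by linarith) (by positivity)
  calc _ ≤ (8 * N / q + 8 * D) * (1 + Real.log N) + 16 * q * (1 + Real.log N) :=
        add_le_add hblocks (hblock0.trans h5)
    _ = _ := by ring

/-- large `q` -/
lemma typeI_large {D N q : ℕ} {α β : ℝ} {a : ℤ} (hq : 0 < q) (hcop : IsCoprime a (q:ℤ))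
    (hα : α = a / q + β) (hβ : |β| * q ≤ 1 / q) (hqN : q ≤ N) (hDN : D ≤ N) :
    ‖∑ d ∈ Ioc 0 D, ((μ d : ℝ) : ℂ) * I2 (α * d) (N / d)‖
      ≤ 2 * (Real.log N)^2 * ((8 * N / q + 8 * D + 16 * q) * (1 + Real.log N)) := by
  have h1 : ∀ d ∈ Ioc 0 D, ‖((μ d : ℝ) : ℂ) * I2 (α * d) (N / d)‖
      ≤ 2 * (Real.log N)^2 * bd (N / d) (dist1 (α * d)) := by
    intro d hd
    obtain ⟨hd1, hd2⟩ := mem_Ioc.1 hd
    rw [norm_mul, Complex.norm_real, Real.norm_eq_abs]
    have h3 : ‖I2 (α * d) (N / d)‖ ≤ 2 * (Real.log N)^2 * bd (N / d) (dist1 (α * d)) := by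
      refine (norm_I2_le (α * d) (N / d) (X := (N:ℝ) / d) Nat.cast_div_le).trans ?_
      have h5 : (Real.log ((N/d:ℕ):ℝ))^2 ≤ (Real.log N)^2 := log_sq_nat_mono (Nat.div_le_self N d)
      exact mul_le_mul_of_nonneg_right (by linarith) (bd_nonneg (by positivity) (dist1_nonneg _))
    calc |(μ d : ℝ)| * ‖I2 (α * d) (N / d)‖ ≤ 1 * _ :=
          mul_le_mul (abs_mu_le d) h3 (norm_nonneg _) zero_le_one
      _ = _ := one_mul _
  refine (norm_sum_le_of_le _ h1).trans ?_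
  rw [← mul_sum]
  exact mul_le_mul_of_nonneg_left (sum_bd_le hq hcop hα hβ hqN hDN) (by positivity)

end Pool.Agent.PrimeFourier
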