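import Pool.Agent.Common_PrimeFourier.TypeI

set_option autoImplicit false

/-!
The final bound for the type I sum.
-/

open Finset ArithmeticFunction Filter Topology
open scoped ArithmeticFunction.Moebius

namespace Pool.Agent.PrimeFourier

lemma tendsto_log_nat : Tendsto (fun n : ℕ => Real.log n) atTop atTop :=
  Real.tendsto_log_atTop.comp tendsto_natCast_atTop_atTop

/-- powers of the logarithm are negligible -/
lemma eventually_log_pow_le (k : ℕ) {ε : ℝ} (hε : 0 < ε) :
    ∀ᶠ x : ℝ in atTop, (Real.log x)^k ≤ ε * x := by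
  have h := (Real.isLittleO_pow_log_id_atTop (n := k)).bound hε
  filter_upwards [h, eventually_ge_atTop 1] with x hx hx1
  rw [Real.norm_eq_abs, Real.norm_eq_abs, id, abs_of_nonneg (by linarith : (0:ℝ) ≤ x)] at hx
  exact (le_abs_self _).trans hx

lemma eventually_log_pow_le_nat (k : ℕ) {ε : ℝ} (hε : 0 < ε) :
    ∀ᶠ n : ℕ in atTop, (Real.log n)^k ≤ ε * n :=
  tendsto_natCast_atTop_atTop.eventually (eventually_log_pow_le k hε)

lemma eventually_loglog_pow_le (k : ℕ) {ε : ℝ} (hε : 0 < ε) :
    ∀ᶠ n : ℕ in atTop, (Real.log (Real.log n))^k ≤ ε * Real.log n :=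
  tendsto_log_nat.eventually (eventually_log_pow_le k hε)

lemma eventually_log_ge (c : ℝ) : ∀ᶠ n : ℕ in atTop, c ≤ Real.log n :=
  tendsto_log_nat.eventually (eventually_ge_atTop c)

lemma eventually_loglog_ge (c : ℝ) : ∀ᶠ n : ℕ in atTop, c ≤ Real.log (Real.log n) :=
  (Real.tendsto_log_atTop.comp tendsto_log_nat).eventually (eventually_ge_atTop c)

theorem typeI_bound {ε : ℝ} (hε : 0 < ε) : ∀ᶠ N : ℕ in atTop, ∀ (α β : ℝ) (a : ℤ) (q : ℕ),
    0 < q → IsCoprime a (q:ℤ) → α = a / q + β → q * |β| * N ≤ (Real.log N)^8 →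
    q * (Real.log N)^8 ≤ N →
    ‖∑ d ∈ Ioc 0 N, ((μ d : ℝ) : ℂ) * I2 (α * d) (N / d)‖
      ≤ N * Real.log N * (80 / ((Nat.totient q : ℝ) * (1 + |β| * N)) + ε) := by
  filter_upwards [eventually_log_ge 2, eventually_log_ge (200 / ε), eventually_loglog_ge 1,
    eventually_log_pow_le_nat 12 (by norm_num : (0:ℝ) < 1/2),
    eventually_loglog_pow_le 3 (by positivity : (0:ℝ) < ε / (2 * 13^3)),
    eventually_loglog_pow_le 2 (by norm_num : (0:ℝ) < 1 / (2 * 13^2)), eventually_ge_atTop 1]
    with N hL2 hLε hLL hL12 hLL3 hLL2 hN1 α β a q hq hcop hα hβ hqL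
  set L := Real.log N with hL
  set x := Real.log L with hx
  have hN0 : (0:ℝ) < N := by exact_mod_cast hN1
  have hL0 : 0 < L := by linarith
  have hq' : (0:ℝ) < q := by exact_mod_cast hq
  have hq1 : (1:ℝ) ≤ q := by exact_mod_cast hq
  have hφ : (0:ℝ) < Nat.totient q := by exact_mod_cast Nat.totient_pos.2 hq
  have hL8 : 0 < L^8 := by positivity
  have hL12' : 0 < L^12 := by positivity
  -- D
  obtain ⟨D, hDdef⟩ : ∃ D : ℕ, D = ⌊(N:ℝ) / L^12⌋₊ := ⟨_, rfl⟩
  have hDle : (D:ℝ) ≤ N / L^12 := by rw [hDdef]; exact Nat.floor_le (by positivity)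
  have hDge : (N:ℝ) / (2 * L^12) ≤ D := by
    have h1 := Nat.lt_floor_add_one ((N:ℝ) / L^12)
    rw [← hDdef] at h1
    have h2 : 2 ≤ (N:ℝ) / L^12 := by
      rw [le_div_iff₀ hL12']; linarith
    have h3 : (N:ℝ) / (2 * L^12) = ((N:ℝ) / L^12) / 2 := by field_simp
    rw [h3]
    linarith
  have hD0' : (0:ℝ) < D := lt_of_lt_of_le (by positivity) hDge
  have hD0 : 0 < D := by exact_mod_cast hD0'
  have hL12ge : (1:ℝ) ≤ L^12 := one_le_pow₀ (by linarith)
  have hDN' : (D:ℝ) ≤ N := hDle.trans (div_le_self hN0.le hL12ge)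
  have hDN : D ≤ N := by exact_mod_cast hDN'
  have hℓ : Real.log (N / D) ≤ 13 * x := by
    have h1 : (N:ℝ) / D ≤ 2 * L^12 := by
      rw [div_le_iff₀ hD0']
      rw [div_le_iff₀ (by positivity)] at hDge
      linarith
    have h2 : Real.log (N / D) ≤ Real.log (2 * L^12) := Real.log_le_log (by positivity) h1
    rw [Real.log_mul (by norm_num) (by positivity), Real.log_pow] at h2
    have h3 : Real.log 2 ≤ 1 := by linarith [Real.log_two_lt_d9]
    push_cast at h2
    linarith
  have hℓ0 : 0 ≤ Real.log (N / D) := Real.log_nonneg (by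
    rw [le_div_iff₀ hD0']; linarith)
  have hℓ3 : (Real.log (N / D))^3 ≤ ε / 2 * L := by
    have h1 : (Real.log (N / D))^3 ≤ (13 * x)^3 := pow_le_pow_left₀ hℓ0 hℓ 3
    rw [mul_pow] at h1
    have h2 : (13:ℝ)^3 * x^3 ≤ 13^3 * (ε / (2 * 13^3) * L) := mul_le_mul_of_nonneg_left hLL3 (by positivity)
    have h3 : (13:ℝ)^3 * (ε / (2 * 13^3) * L) = ε / 2 * L := by ring
    linarith
  have hℓ2 : 2 * (Real.log (N / D))^2 ≤ L := by
    have h1 : (Real.log (N / D))^2 ≤ (13 * x)^2 := pow_le_pow_left₀ hℓ0 hℓ 2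
    rw [mul_pow] at h1
    have h2 : (13:ℝ)^2 * x^2 ≤ 13^2 * (1 / (2 * 13^2) * L) := mul_le_mul_of_nonneg_left hLL2 (by positivity)
    have h3 : (13:ℝ)^2 * (1 / (2 * 13^2) * L) = 1 / 2 * L := by ring
    linarith
  have htail := typeI_tail hD0 hDN α
  have htail' : ‖∑ d ∈ Ioc D N, ((μ d : ℝ) : ℂ) * I2 (α * d) (N / d)‖ ≤ ε / 2 * (N * L) := by
    refine htail.trans ?_
    have := mul_le_mul_of_nonneg_left hℓ3 hN0.le
    linarith
  rw [← sum_Ioc_consecutive _ (Nat.zero_le D) hDN]
  refine (norm_add_le _ _).trans ?_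
  have hmain0 : 0 ≤ 80 / ((Nat.totient q : ℝ) * (1 + |β| * N)) := by positivity
  have hεL : 200 ≤ ε * L := by
    rw [div_le_iff₀ hε] at hLε; linarith
  have goal2 : ‖∑ d ∈ Ioc 0 D, ((μ d : ℝ) : ℂ) * I2 (α * d) (N / d)‖
      ≤ N * L * (80 / ((Nat.totient q : ℝ) * (1 + |β| * N))) + ε / 2 * (N * L) := by
    rcases le_or_gt (q:ℝ) (L^8) with hcase | hcase
    · -- small q
      have hβN : |β| * N ≤ L^8 := by
        refine le_trans ?_ hβ
        rw [mul_assoc]
        exact le_mul_of_one_le_left (by positivity) hq1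
      have hβ2 : |β| ≤ 1/2 := by
        have h1 : L^8 ≤ L^12 := pow_le_pow_right₀ (by linarith) (by norm_num)
        have h2 : |β| * N ≤ 1/2 * N := by linarith
        exact le_of_mul_le_mul_right h2 hN0
      have hsplit : ∑ d ∈ Ioc 0 D, ((μ d : ℝ) : ℂ) * I2 (α * d) (N / d)
          = ∑ d ∈ (Ioc 0 D).filter (q ∣ ·), ((μ d : ℝ) : ℂ) * I2 (β * d) (N / d)
            + ∑ d ∈ (Ioc 0 D).filter (fun d => ¬ q ∣ d), ((μ d : ℝ) : ℂ) * I2 (α * d) (N / d) := by
        rw [← sum_filter_add_sum_filter_not (Ioc 0 D) (fun d => q ∣ d)]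
        congr 1
        refine sum_congr rfl fun d hd => ?_
        congr 1
        unfold I2
        refine sum_congr rfl fun m _ => ?_
        congr 1
        have hdvd : (q:ℤ) ∣ (d:ℤ) * m := by
          apply Dvd.dvd.mul_right
          exact_mod_cast (mem_filter.1 hd).2
        have := e_alpha_of_dvd hq hα ((d:ℤ) * m) hdvd
        push_cast at this
        rw [mul_assoc, mul_assoc]
        exact this
      rw [hsplit]
      refine (norm_add_le _ _).trans ?_
      have h1 := typeI_multiples hq hD0 hDN hβ2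
      have h2 := typeI_nonmult (N := N) (D := D) hq hcop hα (by
        have h3 : |β| * D ≤ |β| * (N / L^12) := mul_le_mul_of_nonneg_left hDle (abs_nonneg _)
        refine h3.trans ?_
        rw [le_div_iff₀ (by positivity)]
        have h4 : |β| * (↑N / L ^ 12) * (2 * ↑q) = 2 * (q * |β| * N) / L^12 := by ring
        rw [h4, div_le_iff₀ hL12', one_mul]
        have h5 : 2 * (q * |β| * N) ≤ 2 * L^8 := by linarith
        refine h5.trans ?_
        have h6 : L^12 = L^8 * L^4 := by ring
        rw [h6]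
        have h7 : (2:ℝ) ≤ L^4 := by
          calc (2:ℝ) ≤ 2^4 := by norm_num
            _ ≤ L^4 := pow_le_pow_left₀ (by norm_num) hL2 4
        have h8 : L^8 * 2 ≤ L^8 * L^4 := mul_le_mul_of_nonneg_left h7 hL8.le
        linarith)
      rw [← hL] at h1 h2
      have h3 : 4 * N * (9 * (1 + L) + 2 * (Real.log (N / D))^2)
          / ((Nat.totient q : ℝ) * (1 + 2 * N * |β|))
          ≤ N * L * (80 / ((Nat.totient q : ℝ) * (1 + |β| * N))) := by
        rw [← mul_div_assoc]
        apply div_le_div₀ (by positivity) _ (by positivity)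
        · apply mul_le_mul_of_nonneg_left _ hφ.le
          have h4 : 0 ≤ |β| * N := by positivity
          have h5 : 2 * N * |β| = 2 * (|β| * N) := by ring
          rw [h5]
          linarith
        · have h4 : 9 * (1 + L) + 2 * (Real.log (N / D))^2 ≤ 19 * L := by linarith
          have h5 : 4 * N * (9 * (1 + L) + 2 * (Real.log (N / D))^2) ≤ 4 * N * (19 * L) :=
            mul_le_mul_of_nonneg_left h4 (by positivity)
          have h6 : 0 < N * L := by positivity
          have h7 : 4 * N * (19 * L) = 76 * (N * L) := by ring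
          rw [h7] at h5
          linarith
      have h4 : (D:ℝ) * (L^2 * (2 + 7 * |β| * N)) ≤ 9 * (N / L^2) := by
        have h5 : L^2 * (2 + 7 * |β| * N) ≤ L^2 * (9 * L^8) := by
          apply mul_le_mul_of_nonneg_left _ (by positivity)
          have h6 : (1:ℝ) ≤ L^8 := one_le_pow₀ (by linarith)
          have h7 : 7 * |β| * N = 7 * (|β| * N) := by ring
          rw [h7]
          linarith
        calc (D:ℝ) * (L^2 * (2 + 7 * |β| * N)) ≤ (N / L^12) * (L^2 * (9 * L^8)) :=
              mul_le_mul hDle h5 (by positivity) (by positivity)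
          _ = 9 * (N / L^2) := by field_simp
      have h5 : (D:ℝ) * (4 * q * L^2) ≤ 4 * (N / L^2) := by
        calc (D:ℝ) * (4 * q * L^2) ≤ (N / L^12) * (4 * L^8 * L^2) := by
              apply mul_le_mul hDle _ (by positivity) (by positivity)
              apply mul_le_mul_of_nonneg_right _ (by positivity)
              linarith
          _ = 4 * (N / L^2) := by field_simp
      have h6 : (N:ℝ) / L^2 ≤ N := div_le_self hN0.le (one_le_pow₀ (by linarith))
      have h7 : 13 * (N:ℝ) ≤ ε / 2 * (N * L) := by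
        have h8 : ε / 2 * (N * L) = N * (ε * L) / 2 := by ring
        have h9 : (N:ℝ) * 200 ≤ N * (ε * L) := mul_le_mul_of_nonneg_left hεL hN0.le
        rw [h8]
        linarith
      linarith
    · -- large q
      have hqN : (q:ℝ) ≤ N / L^8 := by rw [le_div_iff₀ hL8]; exact hqL
      have hL8ge : (1:ℝ) ≤ L^8 := one_le_pow₀ (by linarith)
      have hqN' : q ≤ N := by exact_mod_cast hqN.trans (div_le_self hN0.le hL8ge)
      have hβq : |β| * q ≤ 1 / q := by
        rw [le_div_iff₀ hq']
        have h1 : (|β| * q * q) * N ≤ 1 * N := by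
          have h2 : |β| * q * q * N = q * (q * |β| * N) := by ring
          rw [h2]
          have h3 : q * (q * |β| * N) ≤ q * L^8 := mul_le_mul_of_nonneg_left hβ hq'.le
          linarith
        exact le_of_mul_le_mul_right h1 hN0
      have h1 := typeI_large (D := D) (N := N) hq hcop hα hβq hqN' hDN
      rw [← hL] at h1
      have h2 : 8 * (N:ℝ) / q ≤ 8 * N / L^8 := by
        apply div_le_div_of_nonneg_left (by positivity) hL8 hcase.le
      have h3 : (D:ℝ) ≤ N / L^8 := hDle.trans (by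
        apply div_le_div_of_nonneg_left hN0.le hL8
        exact pow_le_pow_right₀ (by linarith) (by norm_num))
      have h4 : 8 * (N:ℝ) / q + 8 * D + 16 * q ≤ 32 * (N / L^8) := by
        have : 8 * (N:ℝ) / L^8 = 8 * (N / L^8) := by ring
        linarith
      have h5 : 2 * L^2 * ((8 * N / q + 8 * D + 16 * q) * (1 + L))
          ≤ 2 * L^2 * ((32 * (N / L^8)) * (2 * L)) := by
        apply mul_le_mul_of_nonneg_left _ (by positivity)
        apply mul_le_mul h4 (by linarith) (by positivity) (by positivity)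
      have h6 : 2 * L^2 * ((32 * (N / L^8)) * (2 * L)) = 128 * (N / L^5) := by
        field_simp; norm_num
      have h7 : (N:ℝ) / L^5 ≤ N / 2^5 := by
        apply div_le_div_of_nonneg_left hN0.le (by norm_num)
        exact pow_le_pow_left₀ (by norm_num) hL2 5
      have h8 : 4 * (N:ℝ) ≤ ε / 2 * (N * L) := by
        have h8 : ε / 2 * (N * L) = N * (ε * L) / 2 := by ring
        have h9 : (N:ℝ) * 200 ≤ N * (ε * L) := mul_le_mul_of_nonneg_left hεL hN0.le
        rw [h8]
        linarith
      have h9 : 0 ≤ N * L * (80 / ((Nat.totient q : ℝ) * (1 + |β| * N))) := by positivity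
      linarith
  linarith
  
end Pool.Agent.PrimeFourier
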