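import Pool.Agent.Common_PrimeFourier.TypeIFinal

set_option autoImplicit false

/-!
The type II sums `∑ Λ(m) |∑ Λ(n) e(alpha m n)|`: the general second moment bound, and large `q`.
-/

open Finset ArithmeticFunction Filter Topology
open scoped ArithmeticFunction.Moebius

namespace Pool.Agent.PrimeFourier

/-- inner sum over `n ≤ Y` of `Λ(n) e(α m n)` -/
noncomputable def X (α : ℝ) (Y m : ℕ) : ℂ := ∑ n ∈ Ioc 0 Y, ((Λ n : ℝ) : ℂ) * e (α * (m * n : ℕ))

/-- Chebyshev -/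
lemma sum_Lambda_le (n : ℕ) : ∑ k ∈ Ioc 0 n, Λ k ≤ 6 * n := by
  have h := Chebyshev.psi_le_const_mul_self (Nat.cast_nonneg n : (0:ℝ) ≤ n)
  rw [Chebyshev.psi, Nat.floor_natCast] at h
  have h4 : Real.log 4 ≤ 2 := by
    rw [show (4:ℝ) = 2^2 by norm_num, Real.log_pow]
    have := Real.log_two_lt_d9
    push_cast
    linarith
  have : (0:ℝ) ≤ n := Nat.cast_nonneg n
  nlinarith

lemma Lambda_nonneg (n : ℕ) : 0 ≤ Λ n := vonMangoldt_nonneg

lemma sum_Lambda_Ioc_le (a b : ℕ) : ∑ k ∈ Ioc a b, Λ k ≤ 6 * b := by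
  refine le_trans ?_ (sum_Lambda_le b)
  apply sum_le_sum_of_subset_of_nonneg
  · apply Ioc_subset_Ioc_left (Nat.zero_le a)
  · intros; exact vonMangoldt_nonneg

lemma norm_X_le (α : ℝ) (Y m : ℕ) : ‖X α Y m‖ ≤ 6 * Y := by
  unfold X
  refine (norm_sum_le _ _).trans (le_trans (le_of_eq ?_) (sum_Lambda_le Y))
  refine sum_congr rfl fun n _ => ?_
  rw [norm_mul, norm_e, mul_one, Complex.norm_real, Real.norm_eq_abs, abs_of_nonneg vonMangoldt_nonneg]

/-- second moment -/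
lemma sum_normSq_X_le (α : ℝ) {M M' N Y : ℕ} (hY : ∀ m, M < m → N / m ≤ Y) {Z : ℝ}
    (hZ : ((M' - M : ℕ) : ℝ) ≤ Z) :
    ∑ m ∈ Ioc M M', ‖X α (N / m) m‖^2
      ≤ ∑ n ∈ Ioc 0 Y, ∑ n' ∈ Ioc 0 Y, Λ n * Λ n' * bd Z (dist1 (α * ((n:ℤ) - (n':ℤ) : ℤ))) := by
  have hX : ∀ m ∈ Ioc M M', X α (N / m) m
      = ∑ n ∈ Ioc 0 Y, if n * m ≤ N then ((Λ n : ℝ) : ℂ) * e (α * (m * n : ℕ)) else 0 := by
    intro m hm
    have hm1 := (mem_Ioc.1 hm).1
    have hm0 : 0 < m := by omega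
    unfold X
    rw [← sum_filter]
    refine sum_congr ?_ fun _ _ => rfl
    ext n
    simp only [mem_Ioc, mem_filter]
    rw [Nat.le_div_iff_mul_le hm0]
    constructor
    · rintro ⟨h1, h2⟩
      exact ⟨⟨h1, ((Nat.le_div_iff_mul_le hm0).2 h2).trans (hY m hm1)⟩, h2⟩
    · rintro ⟨⟨h1, _⟩, h2⟩
      exact ⟨h1, h2⟩
  have hsq : ∀ m ∈ Ioc M M', ((‖X α (N / m) m‖^2 : ℝ) : ℂ)
      = ∑ n ∈ Ioc 0 Y, ∑ n' ∈ Ioc 0 Y, ((Λ n * Λ n' : ℝ) : ℂ) *
        (if n * m ≤ N ∧ n' * m ≤ N then e (α * ((n:ℤ) - (n':ℤ) : ℤ) * m) else 0) := by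
    intro m hm
    have h1 : ((‖X α (N / m) m‖^2 : ℝ) : ℂ) = X α (N / m) m * (starRingEnd ℂ) (X α (N / m) m) := by
      rw [Complex.mul_conj, Complex.normSq_eq_norm_sq]
    rw [h1, hX m hm, map_sum, sum_mul_sum]
    refine sum_congr rfl fun n _ => sum_congr rfl fun n' _ => ?_
    by_cases h2 : n * m ≤ N
    · by_cases h3 : n' * m ≤ N
      · rw [if_pos h2, if_pos h3, if_pos ⟨h2, h3⟩, map_mul, conj_e, Complex.conj_ofReal]
        have : e (α * ((n:ℤ) - (n':ℤ) : ℤ) * m) = e (α * (m * n : ℕ)) * e (-(α * (m * n' : ℕ))) := by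
          rw [← e_add]
          congr 1
          push_cast
          ring
        rw [this]
        push_cast
        ring
      · rw [if_pos h2, if_neg h3, if_neg (fun h => h3 h.2)]
        simp
    · rw [if_neg h2, if_neg (show ¬ (n * m ≤ N ∧ n' * m ≤ N) from fun h => h2 h.1)]
      simp
  have hsum : ((∑ m ∈ Ioc M M', ‖X α (N / m) m‖^2 : ℝ) : ℂ)
      = ∑ n ∈ Ioc 0 Y, ∑ n' ∈ Ioc 0 Y, ((Λ n * Λ n' : ℝ) : ℂ) *
        ∑ m ∈ Ioc M M', (if n * m ≤ N ∧ n' * m ≤ N then e (α * ((n:ℤ) - (n':ℤ) : ℤ) * m) else 0) := by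
    rw [Complex.ofReal_sum, sum_congr rfl hsq, sum_comm]
    refine sum_congr rfl fun n _ => ?_
    rw [sum_comm]
    refine sum_congr rfl fun n' _ => ?_
    rw [mul_sum]
  have h0 : (0:ℝ) ≤ ∑ m ∈ Ioc M M', ‖X α (N / m) m‖^2 := sum_nonneg fun _ _ => by positivity
  have h1 : ∑ m ∈ Ioc M M', ‖X α (N / m) m‖^2
      = ‖((∑ m ∈ Ioc M M', ‖X α (N / m) m‖^2 : ℝ) : ℂ)‖ := by
    rw [Complex.norm_real, Real.norm_eq_abs, abs_of_nonneg h0]
  rw [h1, hsum]
  refine (norm_sum_le _ _).trans (sum_le_sum fun n hn => ?_)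
  refine (norm_sum_le _ _).trans (sum_le_sum fun n' hn' => ?_)
  rw [norm_mul, Complex.norm_real, Real.norm_eq_abs,
    abs_of_nonneg (mul_nonneg vonMangoldt_nonneg vonMangoldt_nonneg)]
  apply mul_le_mul_of_nonneg_left _ (mul_nonneg vonMangoldt_nonneg vonMangoldt_nonneg)
  rw [← sum_filter]
  have hn0 := (mem_Ioc.1 hn).1
  have hn0' := (mem_Ioc.1 hn').1
  have h2 : (Ioc M M').filter (fun m => n * m ≤ N ∧ n' * m ≤ N)
      = Ioc M (min M' (N / max n n')) := by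
    ext m
    simp only [mem_filter, mem_Ioc, le_min_iff]
    rw [Nat.le_div_iff_mul_le (by omega)]
    constructor
    · rintro ⟨⟨h3, h4⟩, h5, h6⟩
      refine ⟨h3, h4, ?_⟩
      rcases max_cases n n' with ⟨h7, _⟩ | ⟨h7, _⟩ <;> rw [h7] <;> linarith [mul_comm m n, mul_comm m n']
    · rintro ⟨h3, h4, h5⟩
      refine ⟨⟨h3, h4⟩, ?_, ?_⟩
      · calc n * m = m * n := mul_comm _ _
          _ ≤ m * max n n' := Nat.mul_le_mul_left m (le_max_left _ _)
          _ ≤ N := h5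
      · calc n' * m = m * n' := mul_comm _ _
          _ ≤ m * max n n' := Nat.mul_le_mul_left m (le_max_right _ _)
          _ ≤ N := h5
  rw [h2]
  apply norm_sum_e_le'
  refine le_trans ?_ hZ
  have : min M' (N / max n n') - M ≤ M' - M := by
    have := min_le_left M' (N / max n n')
    omega
  exact_mod_cast this

/-- Cauchy–Schwarz with weights `Λ`. -/
lemma sum_Lambda_mul_le (S : Finset ℕ) (f : ℕ → ℝ) :
    (∑ m ∈ S, Λ m * f m)^2 ≤ (∑ m ∈ S, Λ m) * ∑ m ∈ S, Λ m * (f m)^2 := by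
  have h := sum_mul_sq_le_sq_mul_sq S (fun m => Real.sqrt (Λ m)) (fun m => Real.sqrt (Λ m) * f m)
  have h1 : ∀ m ∈ S, Real.sqrt (Λ m) * (Real.sqrt (Λ m) * f m) = Λ m * f m := by
    intro m _
    rw [← mul_assoc, Real.mul_self_sqrt vonMangoldt_nonneg]
  have h2 : ∀ m ∈ S, (Real.sqrt (Λ m))^2 = Λ m := fun m _ => Real.sq_sqrt vonMangoldt_nonneg
  have h3 : ∀ m ∈ S, (Real.sqrt (Λ m) * f m)^2 = Λ m * (f m)^2 := by
    intro m _
    rw [mul_pow, Real.sq_sqrt vonMangoldt_nonneg]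
  rw [sum_congr rfl h1, sum_congr rfl h2, sum_congr rfl h3] at h
  exact h

/-- sum over all `n' ≤ Y` of the geometric bounds, any `q`. -/
lemma sum_bd_diff_le {q : ℕ} {α β : ℝ} {a : ℤ} (hq : 0 < q) (hcop : IsCoprime a (q:ℤ))
    (hα : α = a / q + β) (hβ : |β| * q ≤ 1 / q) (n : ℤ) (Y : ℕ) {Z : ℝ} (hZ : 0 ≤ Z) :
    ∑ n' ∈ Ioc 0 Y, bd Z (dist1 (α * (n - (n':ℤ) : ℤ)))
      ≤ (2 * Y / q + 1) * (4 * Z + 4 * q * (1 + Real.log q)) := by
  have hq' : (0:ℝ) < q := by exact_mod_cast hq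
  have hlq : 0 ≤ Real.log q := Real.log_natCast_nonneg q
  obtain ⟨h, hh⟩ : ∃ h, h = (q + 1) / 2 := ⟨_, rfl⟩
  have hh0 : 0 < h := by omega
  have hh' : (0:ℝ) < h := by exact_mod_cast hh0
  have hhq : (q:ℝ) ≤ 2 * h := by exact_mod_cast (show q ≤ 2 * h by omega)
  have hmaps : ∀ d ∈ Ioc 0 Y, d / h ∈ range (Y / h + 1) := by
    intro d hd
    rw [mem_range, Nat.lt_succ_iff]
    exact Nat.div_le_div_right (mem_Ioc.1 hd).2
  rw [← sum_fiberwise_of_maps_to hmaps]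
  have hsep : ∀ j : ℕ, ∀ d ∈ (Ioc 0 Y).filter (fun d => d / h = j),
      ∀ d' ∈ (Ioc 0 Y).filter (fun d => d / h = j), d ≠ d' →
      1 / (2 * (q:ℝ)) ≤ dist1 (α * (n - (d:ℤ) : ℤ) - α * (n - (d':ℤ) : ℤ)) := by
    intro j d hd d' hd' hne
    have h1 := (mem_filter.1 hd).2
    have h2 := (mem_filter.1 hd').2
    have h3 := Nat.div_add_mod d h
    have h4 := Nat.div_add_mod d' h
    have h5 := Nat.mod_lt d hh0
    have h6 := Nat.mod_lt d' hh0
    rw [h1] at h3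
    rw [h2] at h4
    have := alpha_separated hq hcop hα hβ (k := (d':ℤ) - d) (by
      intro h0; apply hne; exact_mod_cast (by linarith : (d:ℤ) = d')) (by
      rcases abs_cases ((d':ℤ) - d) with ⟨h7, _⟩ | ⟨h7, _⟩ <;> rw [h7] <;> omega)
    have h8 : α * (n - (d:ℤ) : ℤ) - α * (n - (d':ℤ) : ℤ) = α * ((d':ℤ) - d : ℤ) := by
      push_cast; ring
    rw [h8]
    exact this
  have h1 : ∀ j ∈ range (Y / h + 1), ∑ n' ∈ (Ioc 0 Y).filter (fun d => d / h = j),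
      bd Z (dist1 (α * (n - (n':ℤ) : ℤ))) ≤ 4 * Z + 4 * q * (1 + Real.log q) := by
    intro j _
    exact sum_bd_separated _ (fun d : ℕ => α * (n - (d:ℤ) : ℤ)) hq (hsep j) hZ
  refine (sum_le_card_nsmul _ _ _ h1).trans ?_
  rw [card_range, nsmul_eq_mul]
  apply mul_le_mul_of_nonneg_right _ (by positivity)
  push_cast
  have h4 : ((Y / h : ℕ):ℝ) ≤ Y / h := Nat.cast_div_le
  have h5 : (Y:ℝ) / h ≤ 2 * Y / q := by
    rw [div_le_div_iff₀ hh' hq']
    nlinarith [(Nat.cast_nonneg Y : (0:ℝ) ≤ Y)]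
  linarith

lemma Lambda_le_log {n N : ℕ} (h : n ≤ N) : Λ n ≤ Real.log N := by
  rcases Nat.eq_zero_or_pos n with h0 | h0
  · subst h0
    simp only [ArithmeticFunction.map_zero]
    exact Real.log_natCast_nonneg N
  · exact vonMangoldt_le_log.trans (Real.log_le_log (by exact_mod_cast h0) (by exact_mod_cast h))

lemma typeII_large_sq {q M N : ℕ} {α β : ℝ} {a : ℤ} (hq : 0 < q) (hcop : IsCoprime a (q:ℤ))
    (hα : α = a / q + β) (hβ : |β| * q ≤ 1 / q) (hM : 0 < M) :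
    ∑ m ∈ Ioc M (2 * M), ‖X α (N / m) m‖^2
      ≤ (Real.log N)^2 * ((N:ℝ) / M) * ((2 * ((N:ℝ) / M) / q + 1) * (4 * M + 4 * q * (1 + Real.log q))) := by
  have hq' : (0:ℝ) < q := by exact_mod_cast hq
  have hlq : 0 ≤ Real.log q := Real.log_natCast_nonneg q
  have hYle : ((N / M : ℕ):ℝ) ≤ N / M := Nat.cast_div_le
  have h0 := sum_normSq_X_le α (M := M) (M' := 2 * M) (N := N) (Y := N / M)
    (fun m hm => Nat.div_le_div_left hm.le hM) (Z := (M:ℝ)) (by
      have : 2 * M - M = M := by omega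
      rw [this])
  refine h0.trans ?_
  have hL : 0 ≤ Real.log N := Real.log_natCast_nonneg N
  have h1 : ∀ n ∈ Ioc 0 (N / M), ∑ n' ∈ Ioc 0 (N / M),
      Λ n * Λ n' * bd M (dist1 (α * ((n:ℤ) - (n':ℤ) : ℤ)))
      ≤ (Real.log N)^2 * ((2 * ((N:ℝ) / M) / q + 1) * (4 * M + 4 * q * (1 + Real.log q))) := by
    intro n hn
    have hnN : n ≤ N := (mem_Ioc.1 hn).2.trans (Nat.div_le_self _ _)
    have h2 : ∀ n' ∈ Ioc 0 (N / M), Λ n * Λ n' * bd M (dist1 (α * ((n:ℤ) - (n':ℤ) : ℤ)))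
        ≤ (Real.log N)^2 * bd M (dist1 (α * ((n:ℤ) - (n':ℤ) : ℤ))) := by
      intro n' hn'
      have hnN' : n' ≤ N := (mem_Ioc.1 hn').2.trans (Nat.div_le_self _ _)
      apply mul_le_mul_of_nonneg_right _ (bd_nonneg (Nat.cast_nonneg _) (dist1_nonneg _))
      rw [pow_two]
      exact mul_le_mul (Lambda_le_log hnN) (Lambda_le_log hnN') vonMangoldt_nonneg hL
    refine (sum_le_sum h2).trans ?_
    rw [← mul_sum]
    apply mul_le_mul_of_nonneg_left _ (by positivity)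
    refine (sum_bd_diff_le hq hcop hα hβ (n:ℤ) (N / M) (Nat.cast_nonneg M)).trans ?_
    apply mul_le_mul_of_nonneg_right _ (by positivity)
    have : 2 * ((N / M : ℕ):ℝ) / q ≤ 2 * ((N:ℝ) / M) / q := by
      apply div_le_div_of_nonneg_right _ hq'.le
      linarith
    linarith
  refine (sum_le_card_nsmul _ _ _ h1).trans ?_
  rw [Nat.card_Ioc, nsmul_eq_mul, Nat.sub_zero]
  have h3 : 0 ≤ (Real.log N)^2 * ((2 * ((N:ℝ) / M) / q + 1) * (4 * M + 4 * q * (1 + Real.log q))) := by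
    positivity
  calc _ ≤ (N:ℝ) / M * ((Real.log N)^2 * ((2 * ((N:ℝ) / M) / q + 1) *
        (4 * M + 4 * q * (1 + Real.log q)))) := mul_le_mul_of_nonneg_right hYle h3
    _ = _ := by ring

/-- large `q`, one dyadic block. -/
lemma typeII_large_block {q M N : ℕ} {α β : ℝ} {a : ℤ} (hq : 0 < q) (hcop : IsCoprime a (q:ℤ))
    (hα : α = a / q + β) (hβ : q * |β| * N ≤ (Real.log N)^8) (hL : 2 ≤ Real.log N)
    (hqL : q * (Real.log N)^8 ≤ N) (hq8 : (Real.log N)^8 ≤ q) (hM : (Real.log N)^40 ≤ M)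
    (hM2 : M * M ≤ N) :
    ∑ m ∈ Ioc M (2 * M), Λ m * ‖X α (N / m) m‖ ≤ 21 * (N / (Real.log N)^2) := by
  set L := Real.log N with hLdef
  have hq' : (0:ℝ) < q := by exact_mod_cast hq
  have hL0 : 0 < L := by linarith
  have hL1 : 1 ≤ L := by linarith
  have hM0' : (0:ℝ) < M := lt_of_lt_of_le (by positivity) hM
  have hM0 : 0 < M := by exact_mod_cast hM0'
  have hM2' : (M:ℝ) * M ≤ N := by exact_mod_cast hM2
  have hN0 : (0:ℝ) < N := lt_of_lt_of_le (by positivity) hM2'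
  have hL8 : 0 < L^8 := by positivity
  have hqN : (q:ℝ) ≤ N / L^8 := by rw [le_div_iff₀ hL8]; exact hqL
  have hL8ge : (1:ℝ) ≤ L^8 := one_le_pow₀ hL1
  have hqN' : (q:ℝ) ≤ N := hqN.trans (div_le_self hN0.le hL8ge)
  have hβq : |β| * q ≤ 1 / q := by
    rw [le_div_iff₀ hq']
    have h1 : (|β| * q * q) * N ≤ 1 * N := by
      have h2 : |β| * q * q * N = q * (q * |β| * N) := by ring
      rw [h2]
      have h3 : q * (q * |β| * N) ≤ q * L^8 := mul_le_mul_of_nonneg_left hβ hq'.le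
      linarith
    exact le_of_mul_le_mul_right h1 hN0
  have hlq : Real.log q ≤ L := Real.log_le_log hq' hqN'
  have hlq0 : 0 ≤ Real.log q := Real.log_natCast_nonneg q
  have h1 := typeII_large_sq (N := N) hq hcop hα hβq hM0
  rw [← hLdef] at h1
  have hCS := sum_Lambda_mul_le (Ioc M (2 * M)) (fun m => ‖X α (N / m) m‖)
  have hA : ∑ m ∈ Ioc M (2 * M), Λ m ≤ 12 * M := by
    refine (sum_Lambda_Ioc_le M (2 * M)).trans (le_of_eq ?_)
    push_cast; ring
  have h2M : 2 * M ≤ N := by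
    have : (2:ℝ) ≤ M := le_trans (by
      calc (2:ℝ) ≤ 2^40 := by norm_num
        _ ≤ L^40 := pow_le_pow_left₀ (by norm_num) hL 40) hM
    have : 2 ≤ M := by exact_mod_cast this
    nlinarith
  have hB : ∑ m ∈ Ioc M (2 * M), Λ m * ‖X α (N / m) m‖^2
      ≤ L * ∑ m ∈ Ioc M (2 * M), ‖X α (N / m) m‖^2 := by
    rw [mul_sum]
    refine sum_le_sum fun m hm => ?_
    apply mul_le_mul_of_nonneg_right _ (by positivity)
    exact Lambda_le_log ((mem_Ioc.1 hm).2.trans h2M)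
  have hE : (2 * ((N:ℝ) / M) / q + 1) * (4 * M + 4 * q * (1 + Real.log q))
      ≤ 36 * (N / L^7) := by
    have e1 : 4 * (M:ℝ) + 4 * q * (1 + Real.log q) ≤ 4 * M + 8 * q * L := by
      have : 4 * (q:ℝ) * (1 + Real.log q) ≤ 4 * q * (2 * L) :=
        mul_le_mul_of_nonneg_left (by linarith) (by positivity)
      linarith
    have e2 : (2 * ((N:ℝ) / M) / q + 1) * (4 * M + 8 * q * L)
        = 8 * (N / q) + 16 * (N / M) * L + 4 * M + 8 * q * L := by
      field_simp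
      ring
    have hL7 : L^7 ≤ L^8 := pow_le_pow_right₀ hL1 (by norm_num)
    have e3 : (N:ℝ) / q ≤ N / L^7 := by
      apply div_le_div_of_nonneg_left hN0.le (by positivity) (hL7.trans hq8)
    have e4 : (N:ℝ) / M ≤ N / L^8 := by
      apply div_le_div_of_nonneg_left hN0.le (by positivity)
      exact le_trans (pow_le_pow_right₀ hL1 (by norm_num)) hM
    have e5 : (N:ℝ) / L^8 * L = N / L^7 := by field_simp
    have e6 : (M:ℝ) ≤ N / L^7 := by
      have : (M:ℝ) ≤ N / M := by rw [le_div_iff₀ hM0']; exact hM2'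
      refine this.trans (e4.trans ?_)
      exact div_le_div_of_nonneg_left hN0.le (by positivity) hL7
    have e7 : (N:ℝ) / M * L ≤ N / L^7 := by
      rw [← e5]; exact mul_le_mul_of_nonneg_right e4 hL0.le
    have e8 : (q:ℝ) * L ≤ N / L^7 := by
      rw [← e5]; exact mul_le_mul_of_nonneg_right hqN hL0.le
    calc _ ≤ (2 * ((N:ℝ) / M) / q + 1) * (4 * M + 8 * q * L) :=
          mul_le_mul_of_nonneg_left e1 (by positivity)
      _ = 8 * (N / q) + 16 * (N / M) * L + 4 * M + 8 * q * L := e2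
      _ = 8 * (N / q) + 16 * (N / M * L) + 4 * M + 8 * (q * L) := by ring
      _ ≤ 36 * (N / L^7) := by linarith
  have hfin : (∑ m ∈ Ioc M (2 * M), Λ m * ‖X α (N / m) m‖)^2 ≤ (21 * (N / L^2))^2 := by
    refine hCS.trans ?_
    calc _ ≤ (12 * (M:ℝ)) * (L * (L^2 * ((N:ℝ) / M) * (36 * (N / L^7)))) := by
          apply mul_le_mul hA _ (sum_nonneg fun m _ => mul_nonneg vonMangoldt_nonneg (by positivity))
            (by positivity)
          refine hB.trans (mul_le_mul_of_nonneg_left ?_ hL0.le)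
          refine h1.trans (mul_le_mul_of_nonneg_left hE (by positivity))
      _ = 432 * (N / L^2)^2 := by field_simp; norm_num
      _ ≤ (21 * (N / L^2))^2 := by
          rw [mul_pow]
          apply mul_le_mul_of_nonneg_right (by norm_num) (by positivity)
  exact le_of_sq_le_sq hfin (by positivity)

end Pool.Agent.PrimeFourier
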