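import Pool.Agent.Common_PrimeFourier.TypeIIShift

set_option autoImplicit false

/-!
The type II sums for small `q`: the near-diagonal analysis.
-/

open Finset ArithmeticFunction Filter Topology

namespace Pool.Agent.PrimeFourier

/-- decay function -/
noncomputable def g (T : ℝ) : ℝ := (1 + Real.log (1 + T)) / (1 + T)

lemma g_pos {T : ℝ} (hT : 0 ≤ T) : 0 < g T := by
  unfold g
  have : 0 ≤ Real.log (1 + T) := Real.log_nonneg (by linarith)
  positivity

/-- the harmonic type sum -/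
lemma sum_decay_le {T : ℝ} (hT : 0 ≤ T) {J : ℕ} (hJ : (J:ℝ) ≤ 2 * (1 + T)) :
    ∑ j ∈ range (J + 1), 1 / (1 + 2 * j * (T / (1 + T))) ≤ 5 * (1 + Real.log (1 + T)) := by
  have hlog : 0 ≤ Real.log (1 + T) := Real.log_nonneg (by linarith)
  rcases le_or_gt 1 T with h | h
  · have h1 : 1 ≤ 2 * (T / (1 + T)) := by
      rw [← mul_div_assoc, le_div_iff₀ (by linarith)]; linarith
    have h2 : ∀ j ∈ range (J + 1), 1 / (1 + 2 * j * (T / (1 + T))) ≤ 1 / ((j + 1 : ℕ) : ℝ) := by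
      intro j _
      apply div_le_div_of_nonneg_left zero_le_one (by positivity)
      push_cast
      have : (j:ℝ) * 1 ≤ j * (2 * (T / (1 + T))) := mul_le_mul_of_nonneg_left h1 (Nat.cast_nonneg j)
      linarith
    refine (sum_le_sum h2).trans ?_
    have h3 := harmonic_le_one_add_log (J + 1)
    have h4 : ∑ j ∈ range (J + 1), 1 / ((j + 1 : ℕ) : ℝ) = ((harmonic (J+1) : ℚ) : ℝ) := by
      rw [harmonic]
      push_cast
      refine sum_congr rfl fun k _ => ?_
      rw [one_div]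
    rw [h4]
    refine h3.trans ?_
    have h5 : Real.log ((J + 1 : ℕ) : ℝ) ≤ Real.log (4 * (1 + T)) := by
      apply Real.log_le_log (by positivity)
      push_cast
      linarith
    rw [Real.log_mul (by norm_num) (by positivity)] at h5
    have h6 : Real.log 4 ≤ 2 := by
      rw [show (4:ℝ) = 2^2 by norm_num, Real.log_pow]
      have := Real.log_two_lt_d9
      push_cast
      linarith
    linarith
  · have h2 : ∀ j ∈ range (J + 1), 1 / (1 + 2 * j * (T / (1 + T))) ≤ 1 := by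
      intro j _
      rw [div_le_one (by positivity)]
      have : 0 ≤ 2 * (j:ℝ) * (T / (1 + T)) := by positivity
      linarith
    refine (sum_le_card_nsmul _ _ _ h2).trans ?_
    rw [card_range, nsmul_eq_mul, mul_one]
    have h3 : J < 4 := by
      have : (J:ℝ) < 4 := by linarith
      exact_mod_cast this
    have h4 : ((J + 1 : ℕ):ℝ) ≤ 4 := by exact_mod_cast (show J + 1 ≤ 4 by omega)
    linarith

/-- Primes in a residue class, weighted by the distance to `n`. -/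
lemma sum_class_le {C : ℝ}
    (hBT : ∀ y H q u : ℕ, 0 < q → q ^ 4 ≤ H → y ≤ H ^ 2 →
      ∑ m ∈ (Finset.Ioc y (y + H)).filter (fun m => m % q = u % q), Λ m ≤ C * H / Nat.totient q)
    {q G Y : ℕ} (hq : 0 < q) (hG : q ^ 4 ≤ G) (hGY : 2 * Y ≤ G ^ 2)
    {β Z : ℝ} (hZ : 0 ≤ Z) {n : ℕ} (hn : 0 < n) (hnY : n ≤ Y) :
    ∑ n' ∈ (Ioc 0 Y).filter (fun n' => n' % q = n % q), Λ n' * bd Z (|β| * |((n:ℤ) - (n':ℤ) : ℤ)|)
      ≤ 2 * C * G / Nat.totient q * ∑ j ∈ range (Y / G + 1), bd Z (|β| * (j * G : ℕ)) := by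
  have hG0 : 0 < G := lt_of_lt_of_le (by positivity) hG
  have hφ : (0:ℝ) < Nat.totient q := by exact_mod_cast Nat.totient_pos.2 hq
  have hmaps : ∀ n' ∈ (Ioc 0 Y).filter (fun n' => n' % q = n % q),
      ((n:ℤ) - (n':ℤ)).natAbs / G ∈ range (Y / G + 1) := by
    intro n' hn'
    rw [mem_range, Nat.lt_succ_iff]
    apply Nat.div_le_div_right
    have := mem_Ioc.1 (mem_filter.1 hn').1
    omega
  rw [← sum_fiberwise_of_maps_to hmaps, mul_sum]
  refine sum_le_sum fun j hj => ?_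
  rw [mem_range, Nat.lt_succ_iff] at hj
  have hjG : j * G ≤ Y := (Nat.mul_le_mul_right G hj).trans (Nat.div_mul_le_self Y G)
  set S := ((Ioc 0 Y).filter (fun n' => n' % q = n % q)).filter
    (fun n' : ℕ => ((n:ℤ) - (n':ℤ)).natAbs / G = j) with hS
  have h1 : ∀ n' ∈ S, Λ n' * bd Z (|β| * |((n:ℤ) - (n':ℤ) : ℤ)|) ≤ Λ n' * bd Z (|β| * (j * G : ℕ)) := by
    intro n' hn'
    apply mul_le_mul_of_nonneg_left _ vonMangoldt_nonneg
    apply bd_anti hZ (by positivity)
    apply mul_le_mul_of_nonneg_left _ (abs_nonneg _)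
    have h2 := (mem_filter.1 hn').2
    have h3 : j * G ≤ ((n:ℤ) - (n':ℤ)).natAbs := by
      rw [← h2]; exact Nat.div_mul_le_self _ _
    have h4 : (((n:ℤ) - (n':ℤ)).natAbs : ℤ) = |(n:ℤ) - (n':ℤ)| := Int.natCast_natAbs _
    rw [← h4]
    exact_mod_cast h3
  refine (sum_le_sum h1).trans ?_
  rw [← sum_mul]
  apply mul_le_mul_of_nonneg_right _ (bd_nonneg hZ (by positivity))
  -- two intervals
  have hsub : S ⊆ ((Ioc (n + j * G - 1) (n + j * G - 1 + G)).filter (fun m => m % q = n % q))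
      ∪ ((Ioc (n - (j + 1) * G) (n - (j + 1) * G + G)).filter (fun m => m % q = n % q)) := by
    intro n' hn'
    rw [hS, mem_filter, mem_filter, mem_Ioc] at hn'
    obtain ⟨⟨⟨h2, h3⟩, h4⟩, h5⟩ := hn'
    have h6 : j * G ≤ ((n:ℤ) - (n':ℤ)).natAbs := by
      rw [← h5]; exact Nat.div_mul_le_self _ _
    have h7 : ((n:ℤ) - (n':ℤ)).natAbs < (j + 1) * G := by
      rw [← Nat.div_lt_iff_lt_mul hG0, h5]; omega
    have h8 : (j + 1) * G = j * G + G := by ring
    rw [h8] at h7 ⊢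
    generalize j * G = A at *
    rw [mem_union, mem_filter, mem_filter, mem_Ioc, mem_Ioc]
    rcases le_or_gt n n' with h9 | h9
    · left; refine ⟨by omega, h4⟩
    · right; refine ⟨by omega, h4⟩
  have h2 : ∑ n' ∈ S, Λ n' ≤ C * G / Nat.totient q + C * G / Nat.totient q := by
    refine le_trans (sum_le_sum_of_subset_of_nonneg hsub (fun _ _ _ => vonMangoldt_nonneg)) ?_
    have h3 := sum_union_inter (s₁ := (Ioc (n + j * G - 1) (n + j * G - 1 + G)).filter (fun m => m % q = n % q))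
      (s₂ := (Ioc (n - (j + 1) * G) (n - (j + 1) * G + G)).filter (fun m => m % q = n % q))
      (f := fun m => Λ m)
    have h4 : 0 ≤ ∑ m ∈ ((Ioc (n + j * G - 1) (n + j * G - 1 + G)).filter (fun m => m % q = n % q))
        ∩ ((Ioc (n - (j + 1) * G) (n - (j + 1) * G + G)).filter (fun m => m % q = n % q)), Λ m :=
      sum_nonneg fun _ _ => vonMangoldt_nonneg
    have h5 := hBT (n + j * G - 1) G q n hq hG (by omega)
    have h6 := hBT (n - (j + 1) * G) G q n hq hG (by omega)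
    linarith
  refine h2.trans (le_of_eq ?_)
  ring

/-- second moment over `(M, 3M]` for small `q`. -/
lemma sum_normSq_small {C : ℝ} (hC : 0 < C)
    (hBT : ∀ y H q u : ℕ, 0 < q → q ^ 4 ≤ H → y ≤ H ^ 2 →
      ∑ m ∈ (Finset.Ioc y (y + H)).filter (fun m => m % q = u % q), Λ m ≤ C * H / Nat.totient q)
    {q M N : ℕ} {α β : ℝ} {a : ℤ} (hq : 0 < q) (hcop : IsCoprime a (q:ℤ))
    (hα : α = a / q + β) (hβ : q * |β| * N ≤ (Real.log N)^8) (hL : 2 ≤ Real.log N)
    (hq8 : (q:ℝ) ≤ (Real.log N)^8) (hM : (Real.log N)^50 ≤ M) (hM2 : M * M ≤ N) :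
    ∑ m ∈ Ioc M (3 * M), ‖X α (N / m) m‖^2
      ≤ 6 * ((N:ℝ) / M) * (12 * q * ((N:ℝ) / M) + 40 * C * N * g (|β| * N) / Nat.totient q) := by
  set L := Real.log N with hLdef
  have hq' : (0:ℝ) < q := by exact_mod_cast hq
  have hq1 : (1:ℝ) ≤ q := by exact_mod_cast hq
  have hφ : (0:ℝ) < Nat.totient q := by exact_mod_cast Nat.totient_pos.2 hq
  have hL0 : 0 < L := by linarith
  have hL1 : 1 ≤ L := by linarith
  have hM0' : (0:ℝ) < M := lt_of_lt_of_le (by positivity) hM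
  have hM0 : 0 < M := by exact_mod_cast hM0'
  have hM2' : (M:ℝ) * M ≤ N := by exact_mod_cast hM2
  have hN0 : (0:ℝ) < N := lt_of_lt_of_le (by positivity) hM2'
  obtain ⟨Y, hY⟩ : ∃ Y, Y = N / M := ⟨_, rfl⟩
  have hYle : (Y:ℝ) ≤ N / M := by rw [hY]; exact Nat.cast_div_le
  obtain ⟨T, hT⟩ : ∃ T, T = |β| * N := ⟨_, rfl⟩
  have hT0 : 0 ≤ T := by rw [hT]; positivity
  have hTL : T ≤ L^8 := by
    have : q * T ≤ L^8 := by rw [hT, ← mul_assoc]; exact hβ
    have h2 : 1 * T ≤ q * T := mul_le_mul_of_nonneg_right hq1 hT0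
    linarith
  rw [← hT]
  -- powers of L
  have hpow : ∀ {i j : ℕ}, i ≤ j → L^i ≤ L^j := fun h => pow_le_pow_right₀ hL1 h
  have hpow2 : ∀ i j : ℕ, (2:ℝ)^i * L^j ≤ L^(i+j) := by
    intro i j
    rw [pow_add]
    exact mul_le_mul_of_nonneg_right (pow_le_pow_left₀ (by norm_num) hL i) (by positivity)
  have hMNM : (M:ℝ) ≤ N / M := by rw [le_div_iff₀ hM0']; exact hM2'
  -- G
  obtain ⟨G, hGdef⟩ : ∃ G : ℕ, G = ⌊(N:ℝ) / M / (1 + T)⌋₊ := ⟨_, rfl⟩
  have h1T : 1 + T ≤ 2 * L^8 := by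
    have : 1 ≤ L^8 := one_le_pow₀ hL1
    linarith
  have h1T0 : 0 < 1 + T := by linarith
  have hGle : (G:ℝ) ≤ (N:ℝ) / M / (1 + T) := by rw [hGdef]; exact Nat.floor_le (by positivity)
  have hGr : L^41 ≤ (N:ℝ) / M / (1 + T) := by
    rw [le_div_iff₀ h1T0]
    calc L^41 * (1 + T) ≤ L^41 * (2 * L^8) := mul_le_mul_of_nonneg_left h1T (by positivity)
      _ = 2^1 * L^49 := by ring
      _ ≤ L^50 := hpow2 1 49
      _ ≤ M := hM
      _ ≤ N / M := hMNM
  have hGge : (N:ℝ) / M / (1 + T) / 2 ≤ G := by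
    have h1 := Nat.lt_floor_add_one ((N:ℝ) / M / (1 + T))
    rw [← hGdef] at h1
    have h2 : 2 ≤ L^41 := by
      have h2 : 2^1 * L^40 ≤ L^41 := hpow2 1 40
      have h3 : 1 ≤ L^40 := one_le_pow₀ hL1
      linarith
    linarith
  have hG0' : (0:ℝ) < G := lt_of_lt_of_le (by positivity) hGge
  have hG0 : 0 < G := by exact_mod_cast hG0'
  have hGL : L^40 ≤ G := by
    have h2 : 2^1 * L^40 ≤ L^41 := hpow2 1 40
    linarith
  have hqG : q^4 ≤ G := by
    have h1 : (q:ℝ)^4 ≤ (L^8)^4 := pow_le_pow_left₀ hq'.le hq8 4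
    have h2 : (L^8)^4 = L^32 := by ring
    have h3 : (q:ℝ)^4 ≤ G := by
      rw [h2] at h1
      exact h1.trans ((hpow (by norm_num)).trans hGL)
    exact_mod_cast h3
  have hGY : 2 * Y ≤ G^2 := by
    have h1 : 2 * (Y:ℝ) ≤ (G:ℝ)^2 := by
      have h2 : 2 * ((N:ℝ) / M) ≤ (G:ℝ) * ((N:ℝ) / M / (1 + T) / 2) := by
        have h3 : (G:ℝ) * ((N:ℝ) / M / (1 + T) / 2) = (G / (2 * (1 + T))) * ((N:ℝ) / M) := by
          field_simp
        rw [h3]
        apply mul_le_mul_of_nonneg_right _ (by positivity)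
        rw [le_div_iff₀ (by positivity)]
        calc 2 * (2 * (1 + T)) ≤ 2 * (2 * (2 * L^8)) := by linarith
          _ = 2^3 * L^8 := by ring
          _ ≤ L^11 := hpow2 3 8
          _ ≤ L^40 := hpow (by norm_num)
          _ ≤ G := hGL
      rw [pow_two]
      have h4 := mul_le_mul_of_nonneg_left hGge hG0'.le
      linarith
    exact_mod_cast h1
  -- main
  have h0 := sum_normSq_X_le α (M := M) (M' := 3 * M) (N := N) (Y := Y)
    (fun m hm => by rw [hY]; exact Nat.div_le_div_left hm.le hM0) (Z := 2 * (M:ℝ)) (by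
      have : 3 * M - M = 2 * M := by omega
      rw [this]; push_cast; exact le_rfl)
  refine h0.trans ?_
  have hinner : ∀ n ∈ Ioc 0 Y, ∑ n' ∈ Ioc 0 Y,
      Λ n * Λ n' * bd (2 * M) (dist1 (α * ((n:ℤ) - (n':ℤ) : ℤ)))
      ≤ Λ n * (12 * q * ((N:ℝ) / M) + 40 * C * N * g T / Nat.totient q) := by
    intro n hn
    obtain ⟨hn1, hn2⟩ := mem_Ioc.1 hn
    have e1 : ∑ n' ∈ Ioc 0 Y, Λ n * Λ n' * bd (2 * M) (dist1 (α * ((n:ℤ) - (n':ℤ) : ℤ)))
        = Λ n * (∑ n' ∈ (Ioc 0 Y).filter (fun n' => n' % q = n % q),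
            Λ n' * bd (2 * M) (dist1 (α * ((n:ℤ) - (n':ℤ) : ℤ)))
          + ∑ n' ∈ (Ioc 0 Y).filter (fun n' => ¬ n' % q = n % q),
            Λ n' * bd (2 * M) (dist1 (α * ((n:ℤ) - (n':ℤ) : ℤ)))) := by
      rw [sum_filter_add_sum_filter_not, mul_sum]
      exact sum_congr rfl fun _ _ => by ring
    rw [e1]
    apply mul_le_mul_of_nonneg_left _ vonMangoldt_nonneg
    have habs : ∀ n' ∈ Ioc 0 Y, |(((n:ℤ) - (n':ℤ) : ℤ) : ℝ)| ≤ N / M := by
      intro n' hn'
      obtain ⟨hn'1, hn'2⟩ := mem_Ioc.1 hn'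
      refine le_trans ?_ hYle
      have : |((n:ℤ) - (n':ℤ) : ℤ)| ≤ (Y:ℤ) := by
        rw [abs_le]; constructor <;> omega
      exact_mod_cast this
    have hβNM : |β| * ((N:ℝ) / M) ≤ 1 / (2 * q) := by
      rw [le_div_iff₀ (by positivity)]
      have e2 : |β| * ((N:ℝ) / M) * (2 * q) = 2 * (q * |β| * N) / M := by ring
      rw [e2, div_le_iff₀ hM0', one_mul]
      calc 2 * (q * |β| * N) ≤ 2^1 * L^8 := by linarith
        _ ≤ L^9 := hpow2 1 8
        _ ≤ L^50 := hpow (by norm_num)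
        _ ≤ M := hM
    have hfirst : ∑ n' ∈ (Ioc 0 Y).filter (fun n' => n' % q = n % q),
        Λ n' * bd (2 * M) (dist1 (α * ((n:ℤ) - (n':ℤ) : ℤ)))
        ≤ 40 * C * N * g T / Nat.totient q := by
      have e2 : ∀ n' ∈ (Ioc 0 Y).filter (fun n' => n' % q = n % q),
          Λ n' * bd (2 * M) (dist1 (α * ((n:ℤ) - (n':ℤ) : ℤ)))
          = Λ n' * bd (2 * M) (|β| * |((n:ℤ) - (n':ℤ) : ℤ)|) := by
        intro n' hn'
        have hn'' := mem_filter.1 hn'
        have hdvd : (q:ℤ) ∣ (n:ℤ) - (n':ℤ) := by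
          have : (n':ℤ) ≡ n [ZMOD q] := by
            unfold Int.ModEq
            exact_mod_cast hn''.2
          exact this.dvd
        rw [dist1_alpha_of_dvd hq hα _ hdvd, dist1_eq_abs, abs_mul, Int.cast_abs]
        rw [abs_mul]
        have e3 := habs n' hn''.1
        calc |β| * |(((n:ℤ) - (n':ℤ) : ℤ) : ℝ)| ≤ |β| * (N / M) :=
              mul_le_mul_of_nonneg_left e3 (abs_nonneg _)
          _ ≤ 1 / (2 * q) := hβNM
          _ ≤ 1 / 2 := by
            apply div_le_div_of_nonneg_left zero_le_one (by norm_num)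
            linarith
      rw [sum_congr rfl e2]
      refine (sum_class_le hBT hq hqG hGY (by positivity) hn1 hn2).trans ?_
      have hJ : ((Y / G : ℕ):ℝ) ≤ 2 * (1 + T) := by
        refine Nat.cast_div_le.trans ?_
        rw [div_le_iff₀ hG0']
        calc (Y:ℝ) ≤ N / M := hYle
          _ = 2 * (1 + T) * ((N:ℝ) / M / (1 + T) / 2) := by field_simp
          _ ≤ 2 * (1 + T) * G := mul_le_mul_of_nonneg_left hGge (by positivity)
      have e3 : ∀ j ∈ range (Y / G + 1), bd (2 * M) (|β| * (j * G : ℕ))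
          ≤ 4 * M * (1 / (1 + 2 * j * (T / (1 + T)))) := by
        intro j _
        unfold bd
        rw [show 2 * (2 * (M:ℝ)) = 4 * M by ring, mul_one_div]
        apply div_le_div_of_nonneg_left (by positivity) (by positivity)
        have e4 : 2 * (T / (1 + T)) ≤ 4 * M * (|β| * G) := by
          calc 2 * (T / (1 + T)) = 4 * M * (|β| * ((N:ℝ) / M / (1 + T) / 2)) := by
                rw [hT]; field_simp; ring
            _ ≤ 4 * M * (|β| * G) := by
                apply mul_le_mul_of_nonneg_left _ (by positivity)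
                exact mul_le_mul_of_nonneg_left hGge (abs_nonneg _)
        have e5 := mul_le_mul_of_nonneg_left e4 (Nat.cast_nonneg j : (0:ℝ) ≤ j)
        push_cast
        linarith
      have e4 : ∑ j ∈ range (Y / G + 1), bd (2 * M) (|β| * (j * G : ℕ))
          ≤ 4 * M * (5 * (1 + Real.log (1 + T))) := by
        refine (sum_le_sum e3).trans ?_
        rw [← mul_sum]
        exact mul_le_mul_of_nonneg_left (sum_decay_le hT0 hJ) (by positivity)
      have hlog : 0 ≤ Real.log (1 + T) := Real.log_nonneg (by linarith)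
      calc 2 * C * G / Nat.totient q * ∑ j ∈ range (Y / G + 1), bd (2 * M) (|β| * (j * G : ℕ))
          ≤ 2 * C * ((N:ℝ) / M / (1 + T)) / Nat.totient q * (4 * M * (5 * (1 + Real.log (1 + T)))) := by
            apply mul_le_mul _ e4 (sum_nonneg fun j _ => bd_nonneg (by positivity) (by positivity))
              (by positivity)
            apply div_le_div_of_nonneg_right _ hφ.le
            exact mul_le_mul_of_nonneg_left hGle (by positivity)
        _ = 40 * C * N * g T / Nat.totient q := by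
            unfold g
            field_simp
            norm_num
    have hsecond : ∑ n' ∈ (Ioc 0 Y).filter (fun n' => ¬ n' % q = n % q),
        Λ n' * bd (2 * M) (dist1 (α * ((n:ℤ) - (n':ℤ) : ℤ)))
        ≤ 12 * q * ((N:ℝ) / M) := by
      have e2 : ∀ n' ∈ (Ioc 0 Y).filter (fun n' => ¬ n' % q = n % q),
          Λ n' * bd (2 * M) (dist1 (α * ((n:ℤ) - (n':ℤ) : ℤ))) ≤ Λ n' * (2 * q) := by
        intro n' hn'
        have hn'' := mem_filter.1 hn'
        have hdvd : ¬ (q:ℤ) ∣ (n:ℤ) - (n':ℤ) := by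
          intro h
          apply hn''.2
          have h2 : (n':ℤ) ≡ n [ZMOD q] := (Int.modEq_iff_dvd).2 h
          unfold Int.ModEq at h2
          exact_mod_cast h2
        apply mul_le_mul_of_nonneg_left _ vonMangoldt_nonneg
        have e3 := dist1_alpha_ge hq hcop hα _ hdvd (by
          refine le_trans ?_ hβNM
          exact mul_le_mul_of_nonneg_left (habs n' hn''.1) (abs_nonneg _))
        have e4 : 0 < dist1 (α * ((n:ℤ) - (n':ℤ) : ℤ)) := lt_of_lt_of_le (by positivity) e3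
        refine (bd_le_inv (by positivity) e4).trans ?_
        rw [div_le_iff₀ e4]
        rw [div_le_iff₀ (by positivity)] at e3
        linarith
      refine (sum_le_sum e2).trans ?_
      rw [← sum_mul]
      have e3 : ∑ n' ∈ (Ioc 0 Y).filter (fun n' => ¬ n' % q = n % q), Λ n' ≤ 6 * (N / M) := by
        refine le_trans ?_ ((sum_Lambda_le Y).trans (by linarith))
        apply sum_le_sum_of_subset_of_nonneg (filter_subset _ _)
        intros; exact vonMangoldt_nonneg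
      calc _ ≤ (6 * ((N:ℝ) / M)) * (2 * q) := mul_le_mul_of_nonneg_right e3 (by positivity)
        _ = _ := by ring
    linarith
  refine (sum_le_sum hinner).trans ?_
  rw [← sum_mul]
  have hg0 := g_pos hT0
  apply mul_le_mul_of_nonneg_right _ (by positivity)
  exact (sum_Lambda_le Y).trans (by linarith)

/-- small `q`, one dyadic block. -/
lemma typeII_small_block {C : ℝ} (hC : 0 < C)
    (hBT : ∀ y H q u : ℕ, 0 < q → q ^ 4 ≤ H → y ≤ H ^ 2 →
      ∑ m ∈ (Finset.Ioc y (y + H)).filter (fun m => m % q = u % q), Λ m ≤ C * H / Nat.totient q)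
    {q M N : ℕ} {α β : ℝ} {a : ℤ} (hq : 0 < q) (hcop : IsCoprime a (q:ℤ))
    (hα : α = a / q + β) (hβ : q * |β| * N ≤ (Real.log N)^8) (hL : 2 ≤ Real.log N)
    (hq8 : (q:ℝ) ≤ (Real.log N)^8) (hM : (Real.log N)^50 ≤ M) (hM2 : M * M ≤ N) :
    (∑ m ∈ Ioc M (2 * M), Λ m * ‖X α (N / m) m‖)^2
      ≤ 12 * N^2 * (480 * C^2 * (q * g (|β| * N) / (Nat.totient q)^2)
          + (144 * C + 10584) / (Real.log N)^8) := by
  have hsmall := sum_normSq_small hC hBT hq hcop hα hβ hL hq8 hM hM2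
  set L := Real.log N with hLdef
  have hq' : (0:ℝ) < q := by exact_mod_cast hq
  have hq1 : (1:ℝ) ≤ q := by exact_mod_cast hq
  have hφ : (0:ℝ) < Nat.totient q := by exact_mod_cast Nat.totient_pos.2 hq
  have hφ1 : (1:ℝ) ≤ Nat.totient q := by exact_mod_cast Nat.totient_pos.2 hq
  have hL0 : 0 < L := by linarith
  have hL1 : 1 ≤ L := by linarith
  have hM0' : (0:ℝ) < M := lt_of_lt_of_le (by positivity) hM
  have hM0 : 0 < M := by exact_mod_cast hM0'
  have hM2' : (M:ℝ) * M ≤ N := by exact_mod_cast hM2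
  have hN0 : (0:ℝ) < N := lt_of_lt_of_le (by positivity) hM2'
  have hpow : ∀ {i j : ℕ}, i ≤ j → L^i ≤ L^j := fun h => pow_le_pow_right₀ hL1 h
  have hpow2 : ∀ i j : ℕ, (2:ℝ)^i * L^j ≤ L^(i+j) := by
    intro i j
    rw [pow_add]
    exact mul_le_mul_of_nonneg_right (pow_le_pow_left₀ (by norm_num) hL i) (by positivity)
  obtain ⟨T, hT⟩ : ∃ T, T = |β| * N := ⟨_, rfl⟩
  have hT0 : 0 ≤ T := by rw [hT]; positivity
  have hg0 := g_pos hT0
  rw [← hT] at hsmall ⊢
  -- H
  obtain ⟨H, hHdef⟩ : ∃ H : ℕ, H = ⌊(M:ℝ) / L^13⌋₊ := ⟨_, rfl⟩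
  have hHle : (H:ℝ) ≤ M / L^13 := by rw [hHdef]; exact Nat.floor_le (by positivity)
  have hMr : 2 * L^36 ≤ (M:ℝ) / L^13 := by
    rw [le_div_iff₀ (by positivity)]
    calc 2 * L^36 * L^13 = 2^1 * L^49 := by ring
      _ ≤ L^50 := hpow2 1 49
      _ ≤ M := hM
  have hL36 : 1 ≤ L^36 := one_le_pow₀ hL1
  have hHge : (M:ℝ) / L^13 / 2 ≤ H := by
    have h1 := Nat.lt_floor_add_one ((M:ℝ) / L^13)
    rw [← hHdef] at h1
    linarith
  have hH0' : (0:ℝ) < H := lt_of_lt_of_le (by positivity) hHge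
  have hH0 : 0 < H := by exact_mod_cast hH0'
  have hH36 : L^36 ≤ H := by linarith
  have c1 : q ^ 4 ≤ q * H := by
    have h1 : (q:ℝ)^3 ≤ H := by
      calc (q:ℝ)^3 ≤ (L^8)^3 := pow_le_pow_left₀ hq'.le hq8 3
        _ = L^24 := by ring
        _ ≤ L^36 := hpow (by norm_num)
        _ ≤ H := hH36
    have h2 : q^3 ≤ H := by exact_mod_cast h1
    calc q^4 = q * q^3 := by ring
      _ ≤ q * H := Nat.mul_le_mul_left q h2
  have c2 : 3 * M ≤ (q * H)^2 := by
    have h1 : 3 * (M:ℝ) ≤ ((q:ℝ) * H)^2 := by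
      have h2 : (H:ℝ) ≤ q * H := le_mul_of_one_le_left hH0'.le hq1
      have h3 : (M:ℝ) / L^13 / 2 ≤ q * H := hHge.trans h2
      have h4 : ((M:ℝ) / L^13 / 2)^2 ≤ ((q:ℝ) * H)^2 := pow_le_pow_left₀ (by positivity) h3 2
      refine le_trans ?_ h4
      have h5 : ((M:ℝ) / L^13 / 2)^2 = M * (M / (4 * L^26)) := by field_simp; norm_num
      rw [h5, mul_comm]
      apply mul_le_mul_of_nonneg_left _ hM0'.le
      rw [le_div_iff₀ (by positivity)]
      calc 3 * (4 * L^26) ≤ 2^4 * L^26 := by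
            have : 0 < L^26 := by positivity
            linarith
        _ ≤ L^30 := hpow2 4 26
        _ ≤ L^50 := hpow (by norm_num)
        _ ≤ M := hM
    exact_mod_cast h1
  have c3 : q * H ≤ M := by
    have h1 : (q:ℝ) * H ≤ M := by
      calc (q:ℝ) * H ≤ L^8 * (M / L^13) := mul_le_mul hq8 hHle hH0'.le (by positivity)
        _ = M / L^5 := by field_simp
        _ ≤ M := div_le_self hM0'.le (one_le_pow₀ hL1)
    exact_mod_cast h1
  -- second moment with weights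
  set W := ∑ m ∈ Ioc M (2 * M), Λ m * ‖X α (N / m) m‖^2 with hW
  have hA : ∑ m ∈ Ioc M (2 * M), Λ m ≤ 12 * M := by
    refine (sum_Lambda_Ioc_le M (2 * M)).trans (le_of_eq ?_)
    push_cast; ring
  obtain ⟨δ, hδ⟩ : ∃ δ, δ = 21 * ((N:ℝ) / M / L^4) := ⟨_, rfl⟩
  have hδ0 : 0 ≤ δ := by rw [hδ]; positivity
  have hstep : ∀ h ∈ Ioc 0 H, W ≤ 2 * ∑ m ∈ Ioc M (2 * M), Λ m * ‖X α (N / (m + q * h)) (m + q * h)‖^2
      + 2 * δ^2 * (12 * M) := by
    intro h hh
    obtain ⟨hh1, hh2⟩ := mem_Ioc.1 hh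
    have h1 : ∀ m ∈ Ioc M (2 * M), Λ m * ‖X α (N / m) m‖^2
        ≤ 2 * (Λ m * ‖X α (N / (m + q * h)) (m + q * h)‖^2) + 2 * δ^2 * Λ m := by
      intro m hm
      obtain ⟨hm1, hm2⟩ := mem_Ioc.1 hm
      have h2 := norm_X_sub_le (h := h) (m := m) hq hα hβ hL hq8
        ((hpow (by norm_num : 40 ≤ 50)).trans hM) hM2 hm1 hm2 (by
          have : (h:ℝ) ≤ H := by exact_mod_cast hh2
          have h3 := this.trans hHle
          rwa [le_div_iff₀ (by positivity)] at h3)
      rw [← hLdef, ← hδ] at h2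
      have h3 : ‖X α (N / m) m‖ ≤ ‖X α (N / (m + q * h)) (m + q * h)‖ + δ := by
        have := norm_add_le (X α (N / m) m - X α (N / (m + q * h)) (m + q * h))
          (X α (N / (m + q * h)) (m + q * h))
        rw [sub_add_cancel] at this
        linarith
      have h4 : ‖X α (N / m) m‖^2 ≤ (‖X α (N / (m + q * h)) (m + q * h)‖ + δ)^2 :=
        pow_le_pow_left₀ (norm_nonneg _) h3 2
      have h5 : (‖X α (N / (m + q * h)) (m + q * h)‖ + δ)^2
          ≤ 2 * ‖X α (N / (m + q * h)) (m + q * h)‖^2 + 2 * δ^2 := by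
        nlinarith [sq_nonneg (‖X α (N / (m + q * h)) (m + q * h)‖ - δ)]
      have h6 := mul_le_mul_of_nonneg_left (h4.trans h5) (vonMangoldt_nonneg (n := m))
      linarith
    rw [hW]
    refine (sum_le_sum h1).trans ?_
    rw [sum_add_distrib, ← mul_sum, ← mul_sum]
    have h2 : 2 * δ^2 * ∑ m ∈ Ioc M (2 * M), Λ m ≤ 2 * δ^2 * (12 * M) :=
      mul_le_mul_of_nonneg_left hA (by positivity)
    linarith
  have hsum := sum_le_sum hstep
  rw [sum_const, Nat.card_Ioc, nsmul_eq_mul, Nat.sub_zero, sum_add_distrib, ← mul_sum,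
    sum_const, Nat.card_Ioc, nsmul_eq_mul, Nat.sub_zero] at hsum
  have hshift := sum_shift_le hBT hq c1 c2 c3 (fun m => ‖X α (N / m) m‖^2) (fun m => by positivity)
  have hW1 : (H:ℝ) * W ≤ H * (2 * (C * q / Nat.totient q *
      ∑ m ∈ Ioc M (3 * M), ‖X α (N / m) m‖^2) + 2 * δ^2 * (12 * M)) := by
    refine hsum.trans ?_
    have e1 : C * (q * H : ℕ) / Nat.totient q * ∑ m ∈ Ioc M (3 * M), ‖X α (N / m) m‖^2
        = H * (C * q / Nat.totient q * ∑ m ∈ Ioc M (3 * M), ‖X α (N / m) m‖^2) := by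
      push_cast; ring
    rw [e1] at hshift
    linarith
  have hW2 : W ≤ 2 * (C * q / Nat.totient q *
      ∑ m ∈ Ioc M (3 * M), ‖X α (N / m) m‖^2) + 2 * δ^2 * (12 * M) :=
    le_of_mul_le_mul_left hW1 hH0'
  have hW3 : W ≤ (N:ℝ)^2 / M * (480 * C^2 * (q * g T / (Nat.totient q)^2)
          + (144 * C + 10584) / L^8) := by
    refine hW2.trans ?_
    have e1 : C * q / Nat.totient q * ∑ m ∈ Ioc M (3 * M), ‖X α (N / m) m‖^2
        ≤ C * q / Nat.totient q *
          (6 * ((N:ℝ) / M) * (12 * q * ((N:ℝ) / M) + 40 * C * N * g T / Nat.totient q)) :=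
      mul_le_mul_of_nonneg_left hsmall (by positivity)
    have e2 : C * q / Nat.totient q *
          (6 * ((N:ℝ) / M) * (12 * q * ((N:ℝ) / M) + 40 * C * N * g T / Nat.totient q))
        = (N:ℝ)^2 / M * (240 * C^2 * (q * g T / (Nat.totient q)^2)
          + 72 * C * (q^2 / Nat.totient q / M)) := by
      field_simp
      ring
    have e3 : 2 * δ^2 * (12 * M) = (N:ℝ)^2 / M * (10584 / L^8) := by
      rw [hδ]; field_simp; norm_num
    have e4 : (q:ℝ)^2 / Nat.totient q / M ≤ 1 / L^8 := by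
      rw [div_div, div_le_div_iff₀ (by positivity) (by positivity), one_mul]
      calc (q:ℝ)^2 * L^8 ≤ (L^8)^2 * L^8 :=
            mul_le_mul_of_nonneg_right (pow_le_pow_left₀ hq'.le hq8 2) (by positivity)
        _ = L^24 := by ring
        _ ≤ L^50 := hpow (by norm_num)
        _ ≤ M := hM
        _ ≤ Nat.totient q * M := le_mul_of_one_le_left hM0'.le hφ1
    have e5 : 72 * C * ((q:ℝ)^2 / Nat.totient q / M) ≤ 72 * C * (1 / L^8) :=
      mul_le_mul_of_nonneg_left e4 (by positivity)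
    rw [e2] at e1
    rw [e3]
    have e6 : 0 ≤ (N:ℝ)^2 / M := by positivity
    have e7 := mul_le_mul_of_nonneg_left e5 e6
    have e8 : (N:ℝ)^2 / M * (480 * C^2 * (q * g T / (Nat.totient q)^2) + (144 * C + 10584) / L^8)
        = 2 * ((N:ℝ)^2 / M * (240 * C^2 * (q * g T / (Nat.totient q)^2)) + (N:ℝ)^2 / M * (72 * C * (1 / L^8)))
          + (N:ℝ)^2 / M * (10584 / L^8) := by
      ring
    rw [e8]
    rw [mul_add] at e1
    linarith
  have hCS := sum_Lambda_mul_le (Ioc M (2 * M)) (fun m => ‖X α (N / m) m‖)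
  refine hCS.trans ?_
  have hW0 : 0 ≤ W := sum_nonneg fun m _ => mul_nonneg vonMangoldt_nonneg (by positivity)
  calc (∑ m ∈ Ioc M (2 * M), Λ m) * W ≤ (12 * M) * ((N:ℝ)^2 / M *
        (480 * C^2 * (q * g T / (Nat.totient q)^2) + (144 * C + 10584) / L^8)) :=
        mul_le_mul hA hW3 hW0 (by positivity)
    _ = _ := by field_simp

end Pool.Agent.PrimeFourier
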