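import Pool.Agent.Common_PrimeFourier.TypeII

set_option autoImplicit false

/-!
The type II sums for small `q`: the shift `m ↦ m + q h`.
-/

open Finset ArithmeticFunction Filter Topology

namespace Pool.Agent.PrimeFourier

/-- one shift -/
lemma norm_X_sub_le {q M N m h : ℕ} {α β : ℝ} {a : ℤ} (hq : 0 < q)
    (hα : α = a / q + β) (hβ : q * |β| * N ≤ (Real.log N)^8) (hL : 2 ≤ Real.log N)
    (hq8 : (q:ℝ) ≤ (Real.log N)^8) (hM : (Real.log N)^40 ≤ M)
    (hM2 : M * M ≤ N) (hm1 : M < m) (hm2 : m ≤ 2 * M) (hh : h * (Real.log N)^13 ≤ M) :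
    ‖X α (N / m) m - X α (N / (m + q * h)) (m + q * h)‖ ≤ 21 * ((N:ℝ) / M / (Real.log N)^4) := by
  set L := Real.log N with hLdef
  have hq' : (0:ℝ) < q := by exact_mod_cast hq
  have hL0 : 0 < L := by linarith
  have hL1 : 1 ≤ L := by linarith
  have hM0' : (0:ℝ) < M := lt_of_lt_of_le (by positivity) hM
  have hM0 : 0 < M := by exact_mod_cast hM0'
  have hm0 : 0 < m := by omega
  have hM2' : (M:ℝ) * M ≤ N := by exact_mod_cast hM2
  have hN0 : (0:ℝ) < N := lt_of_lt_of_le (by positivity) hM2'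
  have hmM : (M:ℝ) < m := by exact_mod_cast hm1
  obtain ⟨m', hm'⟩ : ∃ m', m' = m + q * h := ⟨_, rfl⟩
  rw [← hm']
  have hmm' : m ≤ m' := by omega
  have hmm'R : (m:ℝ) ≤ m' := by exact_mod_cast hmm'
  have hm'0 : 0 < m' := by omega
  have hle : N / m' ≤ N / m := Nat.div_le_div_left hmm' hm0
  have hhM : (h:ℝ) ≤ M / L^13 := by rw [le_div_iff₀ (by positivity)]; exact hh
  -- splitting
  have hsplit : X α (N / m) m - X α (N / m') m'
      = ∑ n ∈ Ioc 0 (N / m'), ((Λ n : ℝ) : ℂ) * (e (α * (m * n : ℕ)) - e (α * (m' * n : ℕ)))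
        + ∑ n ∈ Ioc (N / m') (N / m), ((Λ n : ℝ) : ℂ) * e (α * (m * n : ℕ)) := by
    unfold X
    rw [← sum_Ioc_consecutive _ (Nat.zero_le _) hle]
    have : ∑ n ∈ Ioc 0 (N / m'), ((Λ n : ℝ) : ℂ) * (e (α * (m * n : ℕ)) - e (α * (m' * n : ℕ)))
        = ∑ n ∈ Ioc 0 (N / m'), ((Λ n : ℝ) : ℂ) * e (α * (m * n : ℕ))
          - ∑ n ∈ Ioc 0 (N / m'), ((Λ n : ℝ) : ℂ) * e (α * (m' * n : ℕ)) := by
      rw [← sum_sub_distrib]
      exact sum_congr rfl fun n _ => by ring
    rw [this]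
    ring
  rw [hsplit]
  refine (norm_add_le _ _).trans ?_
  have hNM : 0 < (N:ℝ) / M := by positivity
  have hYM : ((N / m' : ℕ):ℝ) ≤ N / M := by
    refine (Nat.cast_div_le).trans ?_
    apply div_le_div_of_nonneg_left hN0.le hM0'
    linarith
  have h1 : ‖∑ n ∈ Ioc 0 (N / m'), ((Λ n : ℝ) : ℂ) * (e (α * (m * n : ℕ)) - e (α * (m' * n : ℕ)))‖
      ≤ 19 * ((N:ℝ) / M / L^4) := by
    have h2 : ∀ n ∈ Ioc 0 (N / m'), ‖((Λ n : ℝ) : ℂ) * (e (α * (m * n : ℕ)) - e (α * (m' * n : ℕ)))‖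
        ≤ Λ n * (2 * Real.pi * (1 / L^5)) := by
      intro n hn
      obtain ⟨hn1, hn2⟩ := mem_Ioc.1 hn
      rw [norm_mul, Complex.norm_real, Real.norm_eq_abs, abs_of_nonneg vonMangoldt_nonneg]
      apply mul_le_mul_of_nonneg_left _ vonMangoldt_nonneg
      have h3 : e (α * (m' * n : ℕ)) = e (α * (m * n : ℕ)) * e (β * ((q * (h * n) : ℕ) : ℤ)) := by
        rw [← e_alpha_of_dvd hq hα ((q * (h * n) : ℕ) : ℤ) (by push_cast; exact Dvd.intro _ rfl), ← e_add]
        congr 1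
        rw [hm']
        push_cast
        ring
      have h4 : e (α * (m * n : ℕ)) - e (α * (m' * n : ℕ))
          = e (α * (m * n : ℕ)) * (e 0 - e (β * ((q * (h * n) : ℕ) : ℤ))) := by
        rw [h3, e_zero]; ring
      rw [h4, norm_mul, norm_e, one_mul]
      refine (norm_e_sub_e_le _ _).trans ?_
      apply mul_le_mul_of_nonneg_left _ (by positivity)
      rw [zero_sub, abs_neg, abs_mul]
      have h5 : |(((q * (h * n) : ℕ) : ℤ) : ℝ)| = q * (h * n) := by
        push_cast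
        exact abs_of_nonneg (by positivity)
      rw [h5]
      have h6 : (n:ℝ) ≤ N / M := le_trans (by exact_mod_cast hn2) hYM
      have h7 : (h:ℝ) * n ≤ (M / L^13) * (N / M) := mul_le_mul hhM h6 (by positivity) (by positivity)
      have h8 : (M / L^13) * ((N:ℝ) / M) = N / L^13 := by field_simp
      rw [h8] at h7
      calc |β| * (q * (h * n)) = (q * |β|) * (h * n) := by ring
        _ ≤ (q * |β|) * (N / L^13) := mul_le_mul_of_nonneg_left h7 (by positivity)
        _ = (q * |β| * N) / L^13 := by ring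
        _ ≤ L^8 / L^13 := div_le_div_of_nonneg_right hβ (by positivity)
        _ = 1 / L^5 := by field_simp
    refine (norm_sum_le_of_le _ h2).trans ?_
    rw [← sum_mul]
    have h3 := sum_Lambda_le (N / m')
    have h4 : 2 * Real.pi ≤ 6.3 := by linarith [Real.pi_lt_d2]
    have h5 : ∑ k ∈ Ioc 0 (N / m'), Λ k ≤ 6 * (N / M) := by linarith
    calc _ ≤ (6 * ((N:ℝ) / M)) * (6.3 * (1 / L^5)) := by
          apply mul_le_mul h5 _ (by positivity) (by positivity)
          exact mul_le_mul_of_nonneg_right h4 (by positivity)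
      _ = 37.8 / L * ((N:ℝ) / M / L^4) := by field_simp; norm_num
      _ ≤ 19 * ((N:ℝ) / M / L^4) := by
          apply mul_le_mul_of_nonneg_right _ (by positivity)
          rw [div_le_iff₀ hL0]
          linarith
  have h2 : ‖∑ n ∈ Ioc (N / m') (N / m), ((Λ n : ℝ) : ℂ) * e (α * (m * n : ℕ))‖
      ≤ 2 * ((N:ℝ) / M / L^4) := by
    have h3 : ∀ n ∈ Ioc (N / m') (N / m), ‖((Λ n : ℝ) : ℂ) * e (α * (m * n : ℕ))‖ ≤ L := by
      intro n hn
      rw [norm_mul, norm_e, mul_one, Complex.norm_real, Real.norm_eq_abs,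
        abs_of_nonneg vonMangoldt_nonneg]
      exact Lambda_le_log ((mem_Ioc.1 hn).2.trans (Nat.div_le_self _ _))
    refine (norm_sum_le_of_le _ h3).trans ?_
    rw [sum_const, Nat.card_Ioc, nsmul_eq_mul, Nat.cast_sub hle]
    have h4 : ((N / m : ℕ):ℝ) ≤ N / m := Nat.cast_div_le
    have h5 : (N:ℝ) / m' < ((N / m' : ℕ):ℝ) + 1 := by
      rw [div_lt_iff₀ (by exact_mod_cast hm'0)]
      have := Nat.lt_mul_div_succ N hm'0
      have h6 : (N:ℝ) < m' * (((N / m' : ℕ):ℝ) + 1) := by exact_mod_cast this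
      linarith
    have h6 : (N:ℝ) / m - N / m' ≤ (N:ℝ) / M / L^5 := by
      have hm'R : (0:ℝ) < m' := by exact_mod_cast hm'0
      have hmR : (0:ℝ) < m := by exact_mod_cast hm0
      have e1 : (N:ℝ) / m - N / m' = N * (q * h) / (m * m') := by
        have : (m':ℝ) = m + q * h := by rw [hm']; push_cast; ring
        rw [this] at hm'R ⊢
        field_simp
        ring
      rw [e1]
      have e2 : (N:ℝ) * (q * h) ≤ N * (L^8 * (M / L^13)) := by
        apply mul_le_mul_of_nonneg_left _ hN0.le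
        exact mul_le_mul hq8 hhM (by positivity) (by positivity)
      have e3 : (M:ℝ) * M ≤ m * m' := mul_le_mul hmM.le (hmM.le.trans hmm'R) hM0'.le hmR.le
      calc (N:ℝ) * (q * h) / (m * m') ≤ N * (L^8 * (M / L^13)) / (M * M) :=
            div_le_div₀ (by positivity) e2 (by positivity) e3
        _ = (N:ℝ) / M / L^5 := by field_simp
    have h7 : ((N / m : ℕ):ℝ) - ((N / m' : ℕ):ℝ) ≤ (N:ℝ) / M / L^5 + 1 := by linarith
    have h8 : L ≤ (N:ℝ) / M / L^4 := by
      rw [le_div_iff₀ (by positivity), le_div_iff₀ hM0']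
      have e1 : L * L^4 ≤ M := by
        refine le_trans ?_ hM
        rw [← pow_succ']
        exact pow_le_pow_right₀ hL1 (by norm_num)
      calc L * L^4 * M ≤ M * M := mul_le_mul_of_nonneg_right e1 hM0'.le
        _ ≤ N := hM2'
    calc (((N / m : ℕ):ℝ) - ((N / m' : ℕ):ℝ)) * L ≤ ((N:ℝ) / M / L^5 + 1) * L :=
          mul_le_mul_of_nonneg_right h7 hL0.le
      _ = (N:ℝ) / M / L^4 + L := by field_simp
      _ ≤ 2 * ((N:ℝ) / M / L^4) := by linarith
  linarith

/-- regrouping the shifts. -/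
lemma sum_shift_le {C : ℝ}
    (hBT : ∀ y H q u : ℕ, 0 < q → q ^ 4 ≤ H → y ≤ H ^ 2 →
      ∑ m ∈ (Finset.Ioc y (y + H)).filter (fun m => m % q = u % q), Λ m ≤ C * H / Nat.totient q)
    {q M H : ℕ} (hq : 0 < q) (h1 : q ^ 4 ≤ q * H) (h2 : 3 * M ≤ (q * H)^2) (h3 : q * H ≤ M)
    (F : ℕ → ℝ) (hF : ∀ m, 0 ≤ F m) :
    ∑ h ∈ Ioc 0 H, ∑ m ∈ Ioc M (2 * M), Λ m * F (m + q * h)
      ≤ C * (q * H : ℕ) / Nat.totient q * ∑ m ∈ Ioc M (3 * M), F m := by
  have e1 : ∀ h ∈ Ioc 0 H, ∑ m ∈ Ioc M (2 * M), Λ m * F (m + q * h)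
      = ∑ m ∈ Ioc M (2 * M), ∑ m' ∈ Ioc M (3 * M), if m + q * h = m' then Λ m * F m' else 0 := by
    intro h hh
    refine sum_congr rfl fun m hm => ?_
    rw [sum_ite_eq, if_pos]
    obtain ⟨hm1, hm2⟩ := mem_Ioc.1 hm
    obtain ⟨hh1, hh2⟩ := mem_Ioc.1 hh
    have : q * h ≤ q * H := Nat.mul_le_mul_left q hh2
    rw [mem_Ioc]
    omega
  rw [sum_congr rfl e1]
  have e2 : ∑ h ∈ Ioc 0 H, ∑ m ∈ Ioc M (2 * M), ∑ m' ∈ Ioc M (3 * M),
        (if m + q * h = m' then Λ m * F m' else 0)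
      = ∑ m' ∈ Ioc M (3 * M), ∑ m ∈ Ioc M (2 * M), ∑ h ∈ Ioc 0 H,
        (if m + q * h = m' then Λ m * F m' else 0) := by
    rw [sum_comm]
    have : ∀ m ∈ Ioc M (2 * M), ∑ h ∈ Ioc 0 H, ∑ m' ∈ Ioc M (3 * M),
        (if m + q * h = m' then Λ m * F m' else 0)
        = ∑ m' ∈ Ioc M (3 * M), ∑ h ∈ Ioc 0 H, (if m + q * h = m' then Λ m * F m' else 0) :=
      fun m _ => sum_comm
    rw [sum_congr rfl this, sum_comm]
  rw [e2, mul_sum]
  refine sum_le_sum fun m' hm' => ?_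
  obtain ⟨hm'1, hm'2⟩ := mem_Ioc.1 hm'
  obtain ⟨y, hy⟩ : ∃ y, y = m' - 1 - q * H := ⟨_, rfl⟩
  have hBT' := hBT y (q * H) q m' hq h1 (by omega)
  have e3 : ∀ m ∈ Ioc M (2 * M), ∑ h ∈ Ioc 0 H, (if m + q * h = m' then Λ m * F m' else 0)
      ≤ if (m ∈ (Ioc y (y + q * H)).filter (fun m => m % q = m' % q)) then Λ m * F m' else 0 := by
    intro m _
    by_cases hex : ∃ h ∈ Ioc 0 H, m + q * h = m'
    · obtain ⟨h, hh, hh2⟩ := hex
      have hmem : m ∈ (Ioc y (y + q * H)).filter (fun m => m % q = m' % q) := by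
        rw [mem_filter, mem_Ioc]
        obtain ⟨hh3, hh4⟩ := mem_Ioc.1 hh
        have g1 : q * h ≤ q * H := Nat.mul_le_mul_left q hh4
        have g2 : q * 1 ≤ q * h := Nat.mul_le_mul_left q hh3
        refine ⟨by omega, ?_⟩
        rw [← hh2, Nat.add_mul_mod_self_left]
      rw [if_pos hmem]
      rw [sum_eq_single h]
      · rw [if_pos hh2]
      · intro h' _ hne
        rw [if_neg]
        intro h''
        apply hne
        have : q * h' = q * h := by omega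
        exact Nat.eq_of_mul_eq_mul_left hq this
      · intro h''; exact absurd hh h''
    · have : ∀ h ∈ Ioc 0 H, (if m + q * h = m' then Λ m * F m' else 0) = 0 := by
        intro h hh
        rw [if_neg]
        intro h'; exact hex ⟨h, hh, h'⟩
      rw [sum_congr rfl this, sum_const_zero]
      split_ifs
      · exact mul_nonneg vonMangoldt_nonneg (hF m')
      · exact le_rfl
  refine (sum_le_sum e3).trans ?_
  rw [← sum_filter, ← sum_mul]
  apply mul_le_mul_of_nonneg_right _ (hF m')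
  refine le_trans ?_ hBT'
  apply sum_le_sum_of_subset_of_nonneg
  · intro m hm
    exact (mem_filter.1 hm).2
  · intros; exact vonMangoldt_nonneg

end Pool.Agent.PrimeFourier
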