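import Pool.Agent.Common_PrimeFourier.Exp
import Pool.Agent.Common_PrimeFourier.MobiusSums

set_option autoImplicit false

/-!
The sum `∑ (mu * log^2)(n) e(alpha n)` when `alpha = a/q + beta` with small `q`.
-/

open Finset ArithmeticFunction
open scoped ArithmeticFunction.Moebius

namespace Pool.Agent.PrimeFourier

/-- inner sum -/
noncomputable def I2 (γ : ℝ) (M : ℕ) : ℂ :=
  ∑ m ∈ Ioc 0 M, (((Real.log m)^2 : ℝ) : ℂ) * e (γ * m)

lemma sum_Ioo_telescope (g : ℕ → ℝ) {M : ℕ} (hM : 0 < M) :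
    ∑ m ∈ Ioo 0 M, (g (m+1) - g m) = g M - g 1 := by
  induction M, hM using Nat.le_induction with
  | base => have : Ioo 0 1 = (∅ : Finset ℕ) := by decide
            simp [this]
  | succ n hn ih =>
    have h1 : Ioo 0 (n+1) = insert n (Ioo 0 n) := by
      ext k; simp only [mem_Ioo, mem_insert]; omega
    rw [h1, sum_insert (by simp), ih]
    ring

lemma log_sq_mono {a b : ℝ} (ha : 1 ≤ a) (hab : a ≤ b) : (Real.log a)^2 ≤ (Real.log b)^2 := by
  have h1 : 0 ≤ Real.log a := Real.log_nonneg ha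
  have h2 : Real.log a ≤ Real.log b := Real.log_le_log (by linarith) hab
  exact pow_le_pow_left₀ h1 h2 2

lemma log_sq_nat_mono {a b : ℕ} (hab : a ≤ b) : (Real.log a)^2 ≤ (Real.log b)^2 := by
  rcases Nat.eq_zero_or_pos a with h | h
  · subst h
    simp only [Nat.cast_zero, Real.log_zero]
    have := sq_nonneg (Real.log b)
    simpa using this
  · exact log_sq_mono (by exact_mod_cast h) (by exact_mod_cast hab)

lemma norm_I2_le (γ : ℝ) (M : ℕ) {X : ℝ} (hX : (M:ℝ) ≤ X) :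
    ‖I2 γ M‖ ≤ 2 * (Real.log M)^2 * bd X (dist1 γ) := by
  rcases Nat.eq_zero_or_pos M with h0 | hM
  · subst h0; simp [I2]
  unfold I2
  have hX0 : 0 ≤ X := le_trans (Nat.cast_nonneg M) hX
  have h := norm_sum_mul_le (fun m => (((Real.log m)^2 : ℝ) : ℂ)) (fun m => e (γ * m)) M
    (bd X (dist1 γ)) (fun k hk => norm_sum_e_le' γ 0 k (by
      have : (k:ℝ) ≤ M := by exact_mod_cast hk
      simp only [tsub_zero]
      linarith))
  refine h.trans ?_
  have h2 : ∀ m ∈ Ioo 0 M, ‖(((Real.log ((m+1 : ℕ) : ℝ))^2 : ℝ) : ℂ) - (((Real.log m)^2 : ℝ) : ℂ)‖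
      = (Real.log ((m+1 : ℕ) : ℝ))^2 - (Real.log m)^2 := by
    intro m _
    rw [← Complex.ofReal_sub, Complex.norm_real, Real.norm_eq_abs, abs_of_nonneg]
    have := log_sq_nat_mono (Nat.le_succ m)
    simp only [Nat.succ_eq_add_one] at this
    linarith
  rw [sum_congr rfl h2, sum_Ioo_telescope (fun m => (Real.log (m:ℝ))^2) hM]
  rw [Complex.norm_real, Real.norm_eq_abs, abs_of_nonneg (by positivity : (0:ℝ) ≤ (Real.log M)^2)]
  simp only [Nat.cast_one, Real.log_one]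
  have hb := bd_nonneg hX0 (dist1_nonneg γ)
  nlinarith

lemma norm_I2_trivial (γ : ℝ) (M : ℕ) : ‖I2 γ M‖ ≤ ∑ m ∈ Ioc 0 M, (Real.log m)^2 := by
  unfold I2
  refine (norm_sum_le _ _).trans (sum_le_sum fun m _ => ?_)
  rw [norm_mul, norm_e, mul_one, Complex.norm_real, Real.norm_eq_abs, abs_of_nonneg (by positivity)]

/-- comparison of a sum over multiples of `d` with the average over all integers -/
lemma compare_aux (β : ℝ) {d : ℕ} (hd : 0 < d) {M : ℕ} (hM : 0 < M) :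
    ‖I2 (β * d) M - (1 / (d:ℂ)) * ∑ t ∈ Ioc d (d * M), (((Real.log (t/d))^2 : ℝ) : ℂ) * e (β * t)‖
      ≤ (Real.log M)^2 * (1 + 2 * Real.pi * |β| * d * M) := by
  have hd' : (0:ℝ) < d := by exact_mod_cast hd
  have hdc : (d:ℂ) ≠ 0 := by exact_mod_cast hd.ne'
  induction M, hM using Nat.le_induction with
  | base =>
    simp [I2]
  | succ M hM ih =>
    have hM' : (1:ℝ) ≤ M := by exact_mod_cast hM
    have h1 : I2 (β * d) (M+1) = I2 (β * d) M
        + (((Real.log ((M+1:ℕ):ℝ))^2 : ℝ) : ℂ) * e (β * d * ((M+1:ℕ):ℝ)) := by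
      unfold I2
      rw [← Finset.insert_Ioc_right_eq_Ioc_add_one (by omega), sum_insert (by simp)]
      ring
    have h2 : ∑ t ∈ Ioc d (d * (M+1)), (((Real.log (t/d))^2 : ℝ) : ℂ) * e (β * t)
        = ∑ t ∈ Ioc d (d * M), (((Real.log (t/d))^2 : ℝ) : ℂ) * e (β * t)
          + ∑ t ∈ Ioc (d * M) (d * (M+1)), (((Real.log (t/d))^2 : ℝ) : ℂ) * e (β * t) := by
      rw [sum_Ioc_consecutive _ (by nlinarith) (by nlinarith)]
    set L1 : ℝ := (Real.log ((M+1:ℕ):ℝ))^2 with hL1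
    have h3 : (((Real.log ((M+1:ℕ):ℝ))^2 : ℝ) : ℂ) * e (β * d * ((M+1:ℕ):ℝ))
        = (1 / (d:ℂ)) * ∑ t ∈ Ioc (d * M) (d * (M+1)), ((L1 : ℝ) : ℂ) * e (β * d * ((M+1:ℕ):ℝ)) := by
      rw [sum_const, Nat.card_Ioc]
      have : d * (M+1) - d * M = d := by rw [mul_add, mul_one]; omega
      rw [this, nsmul_eq_mul, ← mul_assoc, one_div, inv_mul_cancel₀ hdc, one_mul]
    have h4 : I2 (β * d) (M+1) - (1 / (d:ℂ)) * ∑ t ∈ Ioc d (d * (M+1)),
          (((Real.log (t/d))^2 : ℝ) : ℂ) * e (β * t)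
        = (I2 (β * d) M - (1 / (d:ℂ)) * ∑ t ∈ Ioc d (d * M), (((Real.log (t/d))^2 : ℝ) : ℂ) * e (β * t))
          + (1 / (d:ℂ)) * ∑ t ∈ Ioc (d * M) (d * (M+1)),
            (((L1 : ℝ) : ℂ) * e (β * d * ((M+1:ℕ):ℝ)) - (((Real.log (t/d))^2 : ℝ) : ℂ) * e (β * t)) := by
      rw [h1, h2, sum_sub_distrib, mul_sub, ← h3]
      ring
    rw [h4]
    refine (norm_add_le _ _).trans ?_
    have h5 : ‖(1 / (d:ℂ)) * ∑ t ∈ Ioc (d * M) (d * (M+1)),
            (((L1 : ℝ) : ℂ) * e (β * d * ((M+1:ℕ):ℝ)) - (((Real.log (t/d))^2 : ℝ) : ℂ) * e (β * t))‖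
        ≤ (L1 - (Real.log M)^2) + 2 * Real.pi * |β| * d * L1 := by
      rw [norm_mul]
      have h6 : ‖(1 / (d:ℂ))‖ = 1 / d := by simp
      rw [h6]
      have h7 : ∀ t ∈ Ioc (d * M) (d * (M+1)),
          ‖((L1 : ℝ) : ℂ) * e (β * d * ((M+1:ℕ):ℝ)) - (((Real.log (t/d))^2 : ℝ) : ℂ) * e (β * t)‖
          ≤ (L1 - (Real.log M)^2) + 2 * Real.pi * |β| * d * L1 := by
        intro t ht
        obtain ⟨ht1, ht2⟩ := mem_Ioc.1 ht
        have ht1' : (d:ℝ) * M < t := by exact_mod_cast ht1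
        have ht2' : (t:ℝ) ≤ d * (M + 1) := by exact_mod_cast ht2
        have h8 : (M:ℝ) ≤ t / d := by rw [le_div_iff₀ hd']; linarith
        have h9 : (t:ℝ) / d ≤ ((M+1:ℕ):ℝ) := by
          rw [div_le_iff₀ hd']; push_cast; linarith
        have h10 : (Real.log M)^2 ≤ (Real.log (t/d))^2 := log_sq_mono hM' h8
        have h11 : (Real.log (t/d))^2 ≤ L1 := log_sq_mono (hM'.trans h8) h9
        have h12 : ((L1 : ℝ) : ℂ) * e (β * d * ((M+1:ℕ):ℝ)) - (((Real.log (t/d))^2 : ℝ) : ℂ) * e (β * t)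
            = ((L1 - (Real.log (t/d))^2 : ℝ) : ℂ) * e (β * t)
              + ((L1 : ℝ) : ℂ) * (e (β * d * ((M+1:ℕ):ℝ)) - e (β * t)) := by
          push_cast; ring
        rw [h12]
        refine (norm_add_le _ _).trans ?_
        rw [norm_mul, norm_mul, norm_e, mul_one, Complex.norm_real, Complex.norm_real,
          Real.norm_eq_abs, Real.norm_eq_abs, abs_of_nonneg (by linarith : 0 ≤ L1 - (Real.log (t/d))^2),
          abs_of_nonneg (by positivity : 0 ≤ L1)]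
        have h13 := norm_e_sub_e_le (β * d * ((M+1:ℕ):ℝ)) (β * t)
        have h14 : |β * d * ((M+1:ℕ):ℝ) - β * t| ≤ |β| * d := by
          rw [show β * d * ((M+1:ℕ):ℝ) - β * t = β * (d * (M+1) - t) by push_cast; ring, abs_mul]
          apply mul_le_mul_of_nonneg_left _ (abs_nonneg _)
          rw [abs_of_nonneg (by linarith)]
          linarith
        have h15 : L1 * ‖e (β * d * ((M+1:ℕ):ℝ)) - e (β * t)‖ ≤ L1 * (2 * Real.pi * (|β| * d)) := by
          apply mul_le_mul_of_nonneg_left _ (by positivity)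
          exact h13.trans (mul_le_mul_of_nonneg_left h14 (by positivity))
        nlinarith
      have h16 := norm_sum_le_of_le _ h7
      rw [sum_const, Nat.card_Ioc] at h16
      have : d * (M+1) - d * M = d := by rw [mul_add, mul_one]; omega
      rw [this, nsmul_eq_mul] at h16
      rw [one_div, inv_mul_le_iff₀ hd']
      exact h16
    have h6 : (Real.log M)^2 ≤ L1 := log_sq_nat_mono (Nat.le_succ M)
    have h7 : (Real.log M)^2 * (2 * Real.pi * |β| * d * M) ≤ L1 * (2 * Real.pi * |β| * d * M) :=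
      mul_le_mul_of_nonneg_right h6 (by positivity)
    have h8 : (Real.log M)^2 * (1 + 2 * Real.pi * |β| * d * M)
        + ((L1 - (Real.log M)^2) + 2 * Real.pi * |β| * d * L1)
        ≤ L1 * (1 + 2 * Real.pi * |β| * d * ((M + 1 : ℕ) : ℝ)) := by
      push_cast
      nlinarith
    exact (add_le_add ih h5).trans h8

lemma compare (β : ℝ) {d N : ℕ} (hd : 0 < d) (hdN : d ≤ N) :
    ‖I2 (β * d) (N / d) - (1 / (d:ℂ)) * ∑ t ∈ Icc d N, (((Real.log (t/d))^2 : ℝ) : ℂ) * e (β * t)‖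
      ≤ (Real.log N)^2 * (2 + 7 * |β| * N) := by
  have hd' : (0:ℝ) < d := by exact_mod_cast hd
  have hM : 0 < N / d := Nat.div_pos hdN hd
  have h1 := compare_aux β hd hM
  have hMN : d * (N / d) ≤ N := Nat.mul_div_le N d
  have hMN' : (d:ℝ) * ((N / d : ℕ) : ℝ) ≤ N := by exact_mod_cast hMN
  have h2 : ∑ t ∈ Icc d N, (((Real.log (t/d))^2 : ℝ) : ℂ) * e (β * t)
      = ∑ t ∈ Ioc d (d * (N/d)), (((Real.log (t/d))^2 : ℝ) : ℂ) * e (β * t)
        + ∑ t ∈ Ioc (d * (N/d)) N, (((Real.log (t/d))^2 : ℝ) : ℂ) * e (β * t) := by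
    have hins : Icc d N = insert d (Ioc d N) := by
      ext k; simp only [mem_Icc, mem_Ioc, mem_insert]; omega
    rw [sum_Ioc_consecutive _ (by nlinarith) hMN, hins, sum_insert (by simp)]
    rw [div_self hd'.ne', Real.log_one]
    simp
  rw [h2, mul_add, ← sub_sub]
  refine (norm_sub_le _ _).trans ?_
  have h3 : ‖(1 / (d:ℂ)) * ∑ t ∈ Ioc (d * (N/d)) N, (((Real.log (t/d))^2 : ℝ) : ℂ) * e (β * t)‖
      ≤ (Real.log N)^2 := by
    rw [norm_mul]
    have h6 : ‖(1 / (d:ℂ))‖ = 1 / d := by simp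
    rw [h6]
    have h7 : ∀ t ∈ Ioc (d * (N/d)) N, ‖(((Real.log (t/d))^2 : ℝ) : ℂ) * e (β * t)‖
        ≤ (Real.log N)^2 := by
      intro t ht
      obtain ⟨ht1, ht2⟩ := mem_Ioc.1 ht
      rw [norm_mul, norm_e, mul_one, Complex.norm_real, Real.norm_eq_abs,
        abs_of_nonneg (by positivity)]
      have h8 : d ≤ t := by nlinarith
      apply log_sq_mono
      · rw [le_div_iff₀ hd', one_mul]; exact_mod_cast h8
      · rw [div_le_iff₀ hd']
        have h9 : (t:ℝ) ≤ N := by exact_mod_cast ht2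
        have h10 : (1:ℝ) ≤ d := by exact_mod_cast hd
        nlinarith [(Nat.cast_nonneg N : (0:ℝ) ≤ N)]
    have h16 := norm_sum_le_of_le _ h7
    rw [sum_const, Nat.card_Ioc, nsmul_eq_mul] at h16
    rw [one_div, inv_mul_le_iff₀ hd']
    refine h16.trans ?_
    apply mul_le_mul_of_nonneg_right _ (by positivity)
    have h17 : N - d * (N/d) ≤ d := by
      have := Nat.lt_mul_div_succ N hd
      rw [mul_add, mul_one] at this
      omega
    exact_mod_cast h17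
  have h4 : (Real.log ((N/d:ℕ):ℝ))^2 ≤ (Real.log N)^2 := log_sq_nat_mono (Nat.div_le_self N d)
  have h5 : 2 * Real.pi * |β| * d * ((N/d:ℕ):ℝ) ≤ 7 * |β| * N := by
    have h6 : 2 * Real.pi ≤ 7 := by linarith [Real.pi_lt_d2]
    have h7 : |β| * (d * ((N/d:ℕ):ℝ)) ≤ |β| * N := mul_le_mul_of_nonneg_left hMN' (abs_nonneg _)
    nlinarith [abs_nonneg β, Real.pi_pos, mul_nonneg (abs_nonneg β) (mul_nonneg hd'.le (Nat.cast_nonneg (N/d) : (0:ℝ) ≤ ((N/d:ℕ):ℝ)))]
  have h6 : (Real.log ((N/d:ℕ):ℝ))^2 * (1 + 2 * Real.pi * |β| * d * ((N/d:ℕ):ℝ))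
      ≤ (Real.log N)^2 * (1 + 7 * |β| * N) := by
    apply mul_le_mul h4 (by linarith) (by positivity) (by positivity)
  nlinarith

end Pool.Agent.PrimeFourier
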