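import Pool.Agent.Common_PrimeFourier.TypeISmall

set_option autoImplicit false

/-!
The main part of the type I sum: multiples of `q`, for `alpha = a/q + beta`.
-/

open Finset ArithmeticFunction
open scoped ArithmeticFunction.Moebius

namespace Pool.Agent.PrimeFourier

/-- exchanging the order of summation -/
lemma sum_multiples_exchange (β : ℝ) (q D N : ℕ) :
    ∑ d ∈ (Ioc 0 D).filter (q ∣ ·), ((μ d : ℝ) : ℂ) *
        ((1 / (d:ℂ)) * ∑ t ∈ Icc d N, (((Real.log (t/d))^2 : ℝ) : ℂ) * e (β * t))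
      = ∑ t ∈ Ioc 0 N, ((K q 2 (min t D) t : ℝ) : ℂ) * e (β * t) := by
  have h1 : ∀ d ∈ (Ioc 0 D).filter (q ∣ ·), ((μ d : ℝ) : ℂ) *
        ((1 / (d:ℂ)) * ∑ t ∈ Icc d N, (((Real.log (t/d))^2 : ℝ) : ℂ) * e (β * t))
      = ∑ t ∈ Ioc 0 N, if d ≤ t then
          (((μ d : ℝ) / d * (Real.log (t/d))^2 : ℝ) : ℂ) * e (β * t) else 0 := by
    intro d hd
    rw [mem_filter, mem_Ioc] at hd
    rw [← sum_filter]
    have h2 : (Ioc 0 N).filter (fun t => d ≤ t) = Icc d N := by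
      ext t; simp only [mem_filter, mem_Ioc, mem_Icc]; omega
    rw [h2, mul_sum, mul_sum]
    refine sum_congr rfl fun t _ => ?_
    push_cast
    ring
  rw [sum_congr rfl h1, sum_comm]
  refine sum_congr rfl fun t ht => ?_
  rw [← sum_filter, filter_filter]
  have h3 : (Ioc 0 D).filter (fun d => q ∣ d ∧ d ≤ t) = (Ioc 0 (min t D)).filter (q ∣ ·) := by
    ext d; simp only [mem_filter, mem_Ioc]; omega
  rw [h3, K, Complex.ofReal_sum, sum_mul]

lemma K_succ_sub (q D : ℕ) {t : ℕ} (ht : 0 < t) :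
    K q 2 (min (t+1) D) ((t+1 : ℕ) : ℝ) - K q 2 (min t D) t
      = Real.log (((t+1 : ℕ) : ℝ) / t) * (2 * K q 1 (min t D) t
          + Real.log (((t+1 : ℕ) : ℝ) / t) * K q 0 (min t D) t) := by
  have ht' : (0:ℝ) < t := by exact_mod_cast ht
  have h1 : K q 2 (min (t+1) D) ((t+1 : ℕ) : ℝ) = K q 2 (min t D) ((t+1 : ℕ) : ℝ) := by
    rcases le_or_gt D t with h | h
    · rw [min_eq_right h, min_eq_right (by omega)]
    · rw [min_eq_left h.le, min_eq_left h]
      unfold K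
      have h2 : Ioc 0 (t+1) = insert (t+1) (Ioc 0 t) := by
        ext k; simp only [mem_Ioc, mem_insert]; omega
      rw [h2, filter_insert]
      split_ifs with h3
      · rw [sum_insert (by simp)]
        rw [div_self (by positivity), Real.log_one]
        simp
      · rfl
  rw [h1]
  unfold K
  rw [← sum_sub_distrib, mul_add, mul_sum, mul_sum, mul_sum, mul_sum, ← sum_add_distrib]
  refine sum_congr rfl fun d hd => ?_
  have hd0 : (0:ℝ) < d := by exact_mod_cast (mem_Ioc.1 (mem_filter.1 hd).1).1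
  rw [show ((t+1 : ℕ) : ℝ) / (d:ℝ) = (((t+1 : ℕ) : ℝ) / t) * (t / d) by field_simp,
    Real.log_mul (by positivity) (by positivity)]
  ring

lemma abs_K_succ_sub_le {q D : ℕ} (hq : 0 < q) (hD : 0 < D) {t : ℕ} (ht : 0 < t) :
    |K q 2 (min (t+1) D) ((t+1 : ℕ) : ℝ) - K q 2 (min t D) t|
      ≤ (9 + 2 * Real.log (t / (min t D : ℕ))) * (1 / t) / (Nat.totient q : ℝ) := by
  have ht' : (1:ℝ) ≤ t := by exact_mod_cast ht
  have ht0 : (0:ℝ) < t := by linarith
  have hφ : (0:ℝ) < Nat.totient q := by exact_mod_cast Nat.totient_pos.2 hq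
  rw [K_succ_sub q D ht]
  set δ := Real.log (((t+1 : ℕ) : ℝ) / t) with hδ
  have hδ1 : δ ≤ 1 / t := by
    have h := Real.log_le_sub_one_of_pos (x := ((t+1 : ℕ) : ℝ) / t) (by positivity)
    refine h.trans (le_of_eq ?_)
    push_cast
    field_simp
    ring
  have hδ0 : 0 ≤ δ := Real.log_nonneg (by
    rw [le_div_iff₀ ht0]; push_cast; linarith)
  have hδ2 : δ ≤ 1 := hδ1.trans (by rw [div_le_one ht0]; exact ht')
  have h0 := abs_K_zero_le hq (min t D) (t:ℝ)
  have hm : 0 < min t D := lt_min ht hD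
  have hmt : ((min t D : ℕ) : ℝ) ≤ t := by exact_mod_cast min_le_left t D
  have h1 := abs_K_one_le hq hm hmt
  have hl : 0 ≤ Real.log (t / (min t D : ℕ)) := Real.log_nonneg (by
    rw [le_div_iff₀ (by exact_mod_cast hm)]; linarith)
  rw [abs_mul, abs_of_nonneg hδ0]
  have h2 : |2 * K q 1 (min t D) t + δ * K q 0 (min t D) t|
      ≤ (9 + 2 * Real.log (t / (min t D : ℕ))) / (Nat.totient q : ℝ) := by
    refine (abs_add_le _ _).trans ?_
    rw [abs_mul, abs_mul, abs_two, abs_of_nonneg hδ0]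
    have h3 : δ * |K q 0 (min t D) t| ≤ 1 * (1 / (Nat.totient q : ℝ)) :=
      mul_le_mul hδ2 h0 (abs_nonneg _) zero_le_one
    have h4 : (9 + 2 * Real.log (t / (min t D : ℕ))) / (Nat.totient q : ℝ)
      = 2 * ((4 + Real.log (t / (min t D : ℕ))) / (Nat.totient q : ℝ)) + 1 * (1 / (Nat.totient q : ℝ)) := by
      ring
    rw [h4]
    linarith
  calc δ * |2 * K q 1 (min t D) t + δ * K q 0 (min t D) t|
      ≤ (1 / t) * ((9 + 2 * Real.log (t / (min t D : ℕ))) / (Nat.totient q : ℝ)) :=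
        mul_le_mul hδ1 h2 (abs_nonneg _) (by positivity)
    _ = _ := by ring

lemma sum_inv_Ioo_le (N : ℕ) (hN : 0 < N) : ∑ t ∈ Ioo 0 N, (1:ℝ) / t ≤ 1 + Real.log N := by
  have h1 : ∑ t ∈ Ioo 0 N, (1:ℝ) / t ≤ ∑ t ∈ Ioc 0 N, (1:ℝ) / t := by
    apply sum_le_sum_of_subset_of_nonneg Ioo_subset_Ioc_self
    intros; positivity
  refine h1.trans ?_
  have h2 := harmonic_le_one_add_log N
  rw [← Hs_eq_harmonic] at h2
  exact h2

/-- `∑_{D < t ≤ N} 1/t ≤ log (N/D)`. -/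
lemma sum_inv_Ioc_le {D N : ℕ} (hD : 0 < D) (hDN : D ≤ N) :
    ∑ t ∈ Ioc D N, (1:ℝ) / t ≤ Real.log (N / D) := by
  induction N, hDN using Nat.le_induction with
  | base => simp
  | succ n hn ih =>
    have h1 : Ioc D (n+1) = insert (n+1) (Ioc D n) := by
      ext k; simp only [mem_Ioc, mem_insert]; omega
    rw [h1, sum_insert (by simp)]
    have hn' : (0:ℝ) < n := by exact_mod_cast (lt_of_lt_of_le hD hn)
    have hD' : (0:ℝ) < D := by exact_mod_cast hD
    have h2 : Real.log (((n+1 : ℕ) : ℝ) / D) = Real.log (((n+1 : ℕ):ℝ) / n) + Real.log (n / D) := by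
      rw [← Real.log_mul (by positivity) (by positivity)]
      congr 1
      field_simp
    rw [h2]
    have h3 : (1:ℝ) / ((n+1 : ℕ):ℝ) ≤ Real.log (((n+1 : ℕ):ℝ) / n) := by
      have h := Real.one_sub_inv_le_log_of_pos (x := ((n+1 : ℕ):ℝ) / n) (by positivity)
      refine le_trans (le_of_eq ?_) h
      push_cast
      field_simp
      ring
    linarith

/-- total variation of `t ↦ K q 2 (min t D) t` on `[1, N]`. -/
lemma sum_abs_K_succ_sub_le {q D N : ℕ} (hq : 0 < q) (hD : 0 < D) (hDN : D ≤ N) :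
    ∑ t ∈ Ioo 0 N, |K q 2 (min (t+1) D) ((t+1 : ℕ) : ℝ) - K q 2 (min t D) t|
      ≤ (9 * (1 + Real.log N) + 2 * (Real.log (N / D))^2) / (Nat.totient q : ℝ) := by
  have hφ : (0:ℝ) < Nat.totient q := by exact_mod_cast Nat.totient_pos.2 hq
  have hN : 0 < N := lt_of_lt_of_le hD hDN
  have hD' : (0:ℝ) < D := by exact_mod_cast hD
  have hN' : (0:ℝ) < N := by exact_mod_cast hN
  have hℓ : 0 ≤ Real.log (N / D) := Real.log_nonneg (by
    rw [le_div_iff₀ hD', one_mul]; exact_mod_cast hDN)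
  have h1 : ∀ t ∈ Ioo 0 N, |K q 2 (min (t+1) D) ((t+1 : ℕ) : ℝ) - K q 2 (min t D) t|
      ≤ (9 * (1 / (t:ℝ)) + (if D < t then 2 * Real.log (N / D) * (1 / (t:ℝ)) else 0))
        / (Nat.totient q : ℝ) := by
    intro t ht
    obtain ⟨ht1, ht2⟩ := mem_Ioo.1 ht
    refine (abs_K_succ_sub_le hq hD ht1).trans ?_
    apply div_le_div_of_nonneg_right _ hφ.le
    have ht0 : (0:ℝ) < t := by exact_mod_cast ht1
    split_ifs with h
    · rw [min_eq_right h.le]
      have h2 : Real.log (t / D) ≤ Real.log (N / D) := by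
        apply Real.log_le_log (by positivity)
        apply div_le_div_of_nonneg_right _ hD'.le
        exact_mod_cast ht2.le
      have h3 : (0:ℝ) ≤ 1 / t := by positivity
      nlinarith
    · rw [min_eq_left (by omega), div_self ht0.ne', Real.log_one]
      linarith
  refine (sum_le_sum h1).trans ?_
  rw [← sum_div]
  apply div_le_div_of_nonneg_right _ hφ.le
  rw [sum_add_distrib, ← mul_sum, ← sum_filter, ← mul_sum]
  have h2 := sum_inv_Ioo_le N hN
  have h3 : ∑ t ∈ (Ioo 0 N).filter (fun t => D < t), (1:ℝ) / t ≤ Real.log (N / D) := by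
    refine le_trans ?_ (sum_inv_Ioc_le hD hDN)
    apply sum_le_sum_of_subset_of_nonneg
    · intro t ht
      simp only [mem_filter, mem_Ioo] at ht
      simp only [mem_Ioc]; omega
    · intros; positivity
  have h4 : 2 * Real.log (N / D) * ∑ t ∈ (Ioo 0 N).filter (fun t => D < t), (1:ℝ) / t
      ≤ 2 * Real.log (N / D) * Real.log (N / D) := mul_le_mul_of_nonneg_left h3 (by positivity)
  nlinarith

lemma norm_sum_K_le {q D N : ℕ} (hq : 0 < q) (hD : 0 < D) (hDN : D ≤ N) (β : ℝ) :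
    ‖∑ t ∈ Ioc 0 N, ((K q 2 (min t D) t : ℝ) : ℂ) * e (β * t)‖
      ≤ bd N (dist1 β) * (2 * ((9 * (1 + Real.log N) + 2 * (Real.log (N / D))^2)
        / (Nat.totient q : ℝ))) := by
  have hN : 0 < N := lt_of_lt_of_le hD hDN
  have h := norm_sum_mul_le (fun t => ((K q 2 (min t D) t : ℝ) : ℂ)) (fun t => e (β * t)) N
    (bd N (dist1 β)) (fun k hk => norm_sum_e_le' β 0 k (by
      have : (k:ℝ) ≤ N := by exact_mod_cast hk
      simp only [tsub_zero]
      linarith))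
  refine h.trans ?_
  apply mul_le_mul_of_nonneg_left _ (bd_nonneg (Nat.cast_nonneg N) (dist1_nonneg β))
  have h2 : ∀ m ∈ Ioo 0 N, ‖((K q 2 (min (m+1) D) ((m+1 : ℕ):ℝ) : ℝ) : ℂ)
      - ((K q 2 (min m D) (m:ℝ) : ℝ) : ℂ)‖
      = |K q 2 (min (m+1) D) ((m+1 : ℕ) : ℝ) - K q 2 (min m D) m| := by
    intro m _
    rw [← Complex.ofReal_sub, Complex.norm_real, Real.norm_eq_abs]
  rw [sum_congr rfl h2, Complex.norm_real, Real.norm_eq_abs]
  have h3 := sum_abs_K_succ_sub_le hq hD hDN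
  have h4 : |K q 2 (min N D) N| ≤
      ∑ t ∈ Ioo 0 N, |K q 2 (min (t+1) D) ((t+1 : ℕ) : ℝ) - K q 2 (min t D) t| := by
    have h5 := sum_Ioo_telescope (fun t => K q 2 (min t D) (t:ℝ)) hN
    have h6 : K q 2 (min 1 D) ((1:ℕ):ℝ) = 0 := by
      rw [min_eq_left (by omega : 1 ≤ D)]
      unfold K
      apply sum_eq_zero
      intro d hd
      have : d = 1 := by
        have := mem_Ioc.1 (mem_filter.1 hd).1
        omega
      subst this
      simp
    have h7 : K q 2 (min N D) N = ∑ t ∈ Ioo 0 N,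
        (K q 2 (min (t+1) D) ((t+1 : ℕ) : ℝ) - K q 2 (min t D) t) := by
      rw [h5, h6, sub_zero]
    rw [h7]
    exact abs_sum_le_sum_abs _ _
  linarith

/-- The sum over multiples of `q`. -/
lemma typeI_multiples {q D N : ℕ} (hq : 0 < q) (hD : 0 < D) (hDN : D ≤ N) {β : ℝ}
    (hβ : |β| ≤ 1/2) :
    ‖∑ d ∈ (Ioc 0 D).filter (q ∣ ·), ((μ d : ℝ) : ℂ) * I2 (β * d) (N / d)‖
      ≤ 4 * N * (9 * (1 + Real.log N) + 2 * (Real.log (N / D))^2)
          / ((Nat.totient q : ℝ) * (1 + 2 * N * |β|))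
        + D * ((Real.log N)^2 * (2 + 7 * |β| * N)) := by
  have hφ : (0:ℝ) < Nat.totient q := by exact_mod_cast Nat.totient_pos.2 hq
  have h1 : ∑ d ∈ (Ioc 0 D).filter (q ∣ ·), ((μ d : ℝ) : ℂ) * I2 (β * d) (N / d)
      = ∑ t ∈ Ioc 0 N, ((K q 2 (min t D) t : ℝ) : ℂ) * e (β * t)
        + ∑ d ∈ (Ioc 0 D).filter (q ∣ ·), ((μ d : ℝ) : ℂ) * (I2 (β * d) (N / d)
          - (1 / (d:ℂ)) * ∑ t ∈ Icc d N, (((Real.log (t/d))^2 : ℝ) : ℂ) * e (β * t)) := by
    rw [← sum_multiples_exchange, ← sum_add_distrib]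
    refine sum_congr rfl fun d _ => ?_
    ring
  rw [h1]
  refine (norm_add_le _ _).trans (add_le_add ?_ ?_)
  · refine (norm_sum_K_le hq hD hDN β).trans (le_of_eq ?_)
    rw [dist1_eq_abs hβ, bd]
    have : (0:ℝ) < 1 + 2 * N * |β| := by positivity
    field_simp
    ring
  · have h2 : ∀ d ∈ (Ioc 0 D).filter (q ∣ ·), ‖((μ d : ℝ) : ℂ) * (I2 (β * d) (N / d)
          - (1 / (d:ℂ)) * ∑ t ∈ Icc d N, (((Real.log (t/d))^2 : ℝ) : ℂ) * e (β * t))‖
          ≤ (Real.log N)^2 * (2 + 7 * |β| * N) := by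
      intro d hd
      obtain ⟨hd1, hd2⟩ := mem_Ioc.1 (mem_filter.1 hd).1
      rw [norm_mul, Complex.norm_real, Real.norm_eq_abs]
      have h3 := abs_mu_le d
      have h4 := compare β hd1 (hd2.trans hDN)
      calc _ ≤ 1 * _ := mul_le_mul h3 h4 (norm_nonneg _) zero_le_one
        _ = _ := one_mul _
    have h5 := norm_sum_le_of_le _ h2
    refine h5.trans ?_
    rw [sum_const, nsmul_eq_mul]
    apply mul_le_mul_of_nonneg_right _ (by positivity)
    have h6 : ((Ioc 0 D).filter (q ∣ ·)).card ≤ D := by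
      refine (card_filter_le _ _).trans ?_
      simp
    exact_mod_cast h6

end Pool.Agent.PrimeFourier
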